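import Mathlib

/-!
# JOB Abs: orbits of a map up to a hitting time (pure combinatorics, no geometry)

`Hits f r s T`: the orbit `r, f r, f² r, …` is at `s` at time `T` and not before.
`run f r T = [r, f r, …, f^[T-1] r]`.

* `Hits.unique`: compare with `lt_trichotomy`.
* `hits_inj`: if `f^[i] r = f^[j] r`, `i < j ≤ T`, then by injectivity `r = f^[j-i] r`
  (`Function.iterate_injective`, `Function.iterate_add_apply`), so `f^[T - (j-i)] r = f^[T] r = s`, contradiction.
* `exists_hits`: `C` is finite and `f` maps `C` injectively to `C`, so there are `i < j` with `f^[i] r = f^[j] r`, hence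
  `f^[N] r = r` for `N = j - i > 0`, and `f^[N * k] r = r = f^[k] s`; as `N * k ≥ k`, injectivity gives
  `f^[N * k - k] r = s`. Take the least time with `Nat.find`.
* `chain_run`: induction on the list (generalise `r`), or `List.isChain_iff_getElem`, `List.ext_getElem`.
-/

set_option autoImplicit false

namespace FKI

variable {α : Type*}

/-- the orbit of `r` hits `s` for the first time at time `T` -/
def Hits (f : α → α) (r s : α) (T : ℕ) : Prop := f^[T] r = s ∧ ∀ i < T, f^[i] r ≠ s

/-- the first `T` points of the orbit of `r` -/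
def run (f : α → α) (r : α) (T : ℕ) : List α := (List.range T).map (fun i => f^[i] r)

theorem abs_run_succ (f : α → α) (r : α) (n : ℕ) : run f r (n + 1) = r :: run f (f r) n := by
  unfold run
  rw [List.range_succ_eq_map, List.map_cons, List.map_map]
  rfl

theorem abs_iter_mem {f : α → α} {C : Finset α} (hC : ∀ p ∈ C, f p ∈ C) {r : α} (hr : r ∈ C)
    (i : ℕ) : f^[i] r ∈ C := by
  induction i with
  | zero => exact hr
  | succ n ih =>
    rw [Function.iterate_succ_apply']
    exact hC _ ih

theorem abs_cancel {f : α → α} (hf : Function.Injective f) {r : α} {i j : ℕ} (hij : i ≤ j)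
    (h : f^[i] r = f^[j] r) : f^[j - i] r = r := by
  have h1 : f^[j] r = f^[i] (f^[j - i] r) := by
    rw [← Function.iterate_add_apply]
    congr 1
    rw [Nat.add_sub_cancel' hij]
  rw [h1] at h
  exact (hf.iterate i h).symm

theorem Hits.unique {f : α → α} {r s : α} {T T' : ℕ} (h : Hits f r s T) (h' : Hits f r s T') :
    T = T' := by
  rcases lt_trichotomy T T' with h1 | h1 | h1
  · exact absurd h.1 (h'.2 T h1)
  · exact h1
  · exact absurd h'.1 (h.2 T' h1)

theorem hits_inj {f : α → α} (hf : Function.Injective f) {r s : α} {T : ℕ} (h : Hits f r s T)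
    {i j : ℕ} (hi : i ≤ T) (hj : j ≤ T) (hij : f^[i] r = f^[j] r) : i = j := by
  have key : ∀ a b : ℕ, a < b → b ≤ T → f^[a] r = f^[b] r → False := by
    intro a b hab hb he
    have h1 := abs_cancel hf hab.le he
    have h2 : f^[T - (b - a)] r = s := by
      have h3 : f^[T] r = f^[T - (b - a)] (f^[b - a] r) := by
        rw [← Function.iterate_add_apply]
        congr 1
        rw [Nat.sub_add_cancel (by omega)]
      rw [h1] at h3
      rw [← h3]
      exact h.1
    exact h.2 (T - (b - a)) (by omega) h2
  rcases lt_trichotomy i j with h1 | h1 | h1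
  · exact (key i j h1 hj hij).elim
  · exact h1
  · exact (key j i h1 hi hij.symm).elim

theorem run_nodup {f : α → α} (hf : Function.Injective f) {r s : α} {T : ℕ} (h : Hits f r s T) :
    (run f r T).Nodup := by
  unfold run
  refine List.Nodup.map_on ?_ List.nodup_range
  intro x hx y hy hxy
  rw [List.mem_range] at hx hy
  exact hits_inj hf h hx.le hy.le hxy

theorem exists_hits {f : α → α} (hf : Function.Injective f) (C : Finset α)
    (hC : ∀ p ∈ C, f p ∈ C) {r s : α} (hr : r ∈ C) (k : ℕ) (hk : f^[k] s = r) :
    ∃ T, Hits f r s T := by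
  have hper : ∃ N : ℕ, 0 < N ∧ f^[N] r = r := by
    obtain ⟨i, j, hij, he⟩ := Finite.exists_ne_map_eq_of_infinite
      (fun i : ℕ => (⟨f^[i] r, abs_iter_mem hC hr i⟩ : {x // x ∈ C}))
    have he' : f^[i] r = f^[j] r := by
      simpa using he
    rcases lt_or_gt_of_ne hij with h1 | h1
    · exact ⟨j - i, by omega, abs_cancel hf h1.le he'⟩
    · exact ⟨i - j, by omega, abs_cancel hf h1.le he'.symm⟩
  obtain ⟨N, hN0, hN⟩ := hper
  have h1 : f^[N * k] r = r := by
    rw [Function.iterate_mul]
    exact Function.iterate_fixed hN k
  have h2 : k ≤ N * k := Nat.le_mul_of_pos_left k hN0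
  have h3 : f^[k] (f^[N * k - k] r) = f^[k] s := by
    rw [← Function.iterate_add_apply, hk, Nat.add_sub_cancel' h2]
    exact h1
  have h4 : f^[N * k - k] r = s := hf.iterate k h3
  classical
  have hex : ∃ n, f^[n] r = s := ⟨_, h4⟩
  refine ⟨Nat.find hex, Nat.find_spec hex, ?_⟩
  intro i hi
  exact Nat.find_min hex hi

theorem mem_run {f : α → α} {r : α} {T : ℕ} {p : α} : p ∈ run f r T ↔ ∃ i < T, f^[i] r = p := by
  unfold run
  simp only [List.mem_map, List.mem_range]

theorem run_subset {f : α → α} {C : Finset α} (hC : ∀ p ∈ C, f p ∈ C) {r : α} (hr : r ∈ C)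
    {T : ℕ} {p : α} (hp : p ∈ run f r T) : p ∈ C := by
  obtain ⟨i, _, rfl⟩ := mem_run.mp hp
  exact abs_iter_mem hC hr i

/-- a list which looks like a run is the run -/
theorem chain_run {f : α → α} {r s : α} {D : List α} (h1 : D.head? = some r)
    (h2 : D.IsChain (fun p q => f p = q)) (h3 : ∀ p ∈ D.getLast?, f p = s) (h4 : s ∉ D) :
    Hits f r s D.length ∧ D = run f r D.length := by
  induction D generalizing r with
  | nil => simp at h1
  | cons a D ih =>
    have ha : a = r := by simpa using h1
    subst ha
    cases D with
    | nil =>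
      refine ⟨⟨?_, ?_⟩, ?_⟩
      · exact h3 a (by simp)
      · intro i hi
        have hi0 : i = 0 := by simpa using hi
        subst hi0
        intro h5
        apply h4
        rw [← h5]
        simp
      · simp [run]
    | cons q D =>
      rw [List.isChain_cons_cons] at h2
      obtain ⟨hq, hch⟩ := h2
      have h5 : (q :: D).head? = some (f a) := by
        rw [hq]
        rfl
      have h6 : ∀ p ∈ (q :: D).getLast?, f p = s := by
        intro p hp
        apply h3
        rw [List.getLast?_cons_cons]
        exact hp
      have h7 : s ∉ q :: D := fun hm => h4 (List.mem_cons_of_mem _ hm)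
      obtain ⟨hH, hR⟩ := ih h5 hch h6 h7
      refine ⟨⟨?_, ?_⟩, ?_⟩
      · rw [List.length_cons, Function.iterate_succ_apply]
        exact hH.1
      · intro i hi
        cases i with
        | zero =>
          intro h8
          apply h4
          rw [← h8]
          exact List.mem_cons_self
        | succ i =>
          rw [Function.iterate_succ_apply]
          exact hH.2 i (by simpa using hi)
      · rw [List.length_cons, abs_run_succ, ← hR]

theorem run_isChain (f : α → α) (r : α) (T : ℕ) : (run f r T).IsChain (fun p q => f p = q) := by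
  induction T generalizing r with
  | zero => simp [run]
  | succ n ih =>
    rw [abs_run_succ]
    cases n with
    | zero => simp [run]
    | succ k =>
      have h1 := ih (f r)
      rw [abs_run_succ] at h1 ⊢
      rw [List.isChain_cons_cons]
      exact ⟨rfl, h1⟩

end FKI
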