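import Pool.Agent.Lib.MP_216314_pr.NextB

/-!
# JOB CC: the number of clusters when an edge is added

* `ncard_cc`: `G' = G` plus the edge `{u,v}`, `S` a finite set containing `u, v`. The map `φ : G.ConnectedComponent → G'.ConnectedComponent`
  (`SimpleGraph.ConnectedComponent.map (SimpleGraph.Hom.ofLE h)`) satisfies `G'.mk = φ ∘ G.mk`. If `x, y` are connected in `G'` then they are connected in
  `G`, or `x` to `u` and `v` to `y`, or `x` to `v` and `u` to `y` (in `G`) (induction on the walk). If `G` connects `u, v`, `φ` is injective: same cardinality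
  (`Set.ncard_image_of_injective`). If not, `φ` is injective on the components different from the one of `v`, and `φ [v] = φ [u]`:
  `Set.ncard_image_of_injOn` and `Set.ncard_diff_singleton_add_one`.
* `wts_reach`, `wts_not_reach`: `Finset.card_insert_of_notMem`, `pow_succ`.
-/

set_option autoImplicit false

noncomputable section

namespace FKI

open Finset

theorem CC_key {U : Type*} {G G' : SimpleGraph U} {u v : U}
    (h : ∀ x y, G'.Adj x y ↔ G.Adj x y ∨ (x ≠ y ∧ ((x = u ∧ y = v) ∨ (x = v ∧ y = u))))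
    {x y : U} (hr : G'.Reachable x y) :
    G.Reachable x y ∨ (G.Reachable x u ∧ G.Reachable v y) ∨ (G.Reachable x v ∧ G.Reachable u y) := by
  obtain ⟨w⟩ := hr
  induction w with
  | nil => exact Or.inl (SimpleGraph.Reachable.refl _)
  | cons hadj _ ih =>
    rcases (h _ _).1 hadj with h1 | ⟨_, ⟨h1, h2⟩ | ⟨h1, h2⟩⟩
    · rcases ih with i | ⟨i, j⟩ | ⟨i, j⟩
      · exact Or.inl (h1.reachable.trans i)
      · exact Or.inr (Or.inl ⟨h1.reachable.trans i, j⟩)
      · exact Or.inr (Or.inr ⟨h1.reachable.trans i, j⟩)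
    · subst h1 h2
      rcases ih with i | ⟨i, j⟩ | ⟨i, j⟩
      · exact Or.inr (Or.inl ⟨SimpleGraph.Reachable.refl _, i⟩)
      · exact Or.inr (Or.inl ⟨SimpleGraph.Reachable.refl _, j⟩)
      · exact Or.inl j
    · subst h1 h2
      rcases ih with i | ⟨i, j⟩ | ⟨i, j⟩
      · exact Or.inr (Or.inr ⟨SimpleGraph.Reachable.refl _, i⟩)
      · exact Or.inl j
      · exact Or.inr (Or.inr ⟨SimpleGraph.Reachable.refl _, j⟩)

theorem ncard_cc {U : Type*} {G G' : SimpleGraph U} {u v : U}
    (h : ∀ x y, G'.Adj x y ↔ G.Adj x y ∨ (x ≠ y ∧ ((x = u ∧ y = v) ∨ (x = v ∧ y = u))))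
    {S : Set U} (hS : S.Finite) (hu : u ∈ S) (hv : v ∈ S) :
    (G.Reachable u v → Set.ncard (G'.connectedComponentMk '' S) = Set.ncard (G.connectedComponentMk '' S)) ∧
    (¬ G.Reachable u v →
      Set.ncard (G'.connectedComponentMk '' S) + 1 = Set.ncard (G.connectedComponentMk '' S)) := by
  have hle : G ≤ G' := fun x y hxy => (h x y).2 (Or.inl hxy)
  set φ : G.ConnectedComponent → G'.ConnectedComponent :=
    SimpleGraph.ConnectedComponent.map (SimpleGraph.Hom.ofLE hle) with hφ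
  have hφmk : ∀ x, φ (G.connectedComponentMk x) = G'.connectedComponentMk x := fun x => rfl
  have himg : G'.connectedComponentMk '' S = φ '' (G.connectedComponentMk '' S) := by
    rw [Set.image_image]
    rfl
  have huv : G'.Reachable u v := by
    by_cases e : u = v
    · rw [e]
    · exact ((h u v).2 (Or.inr ⟨e, Or.inl ⟨rfl, rfl⟩⟩)).reachable
  constructor
  · intro hr
    rw [himg]
    apply Set.ncard_image_of_injective
    intro c d
    refine SimpleGraph.ConnectedComponent.ind₂ (fun x y => ?_) c d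
    intro hxy
    rw [hφmk, hφmk, SimpleGraph.ConnectedComponent.eq] at hxy
    rw [SimpleGraph.ConnectedComponent.eq]
    rcases CC_key h hxy with i | ⟨i, j⟩ | ⟨i, j⟩
    · exact i
    · exact i.trans (hr.trans j)
    · exact i.trans (hr.symm.trans j)
  · intro hr
    have hfin : (G.connectedComponentMk '' S).Finite := hS.image _
    have hvm : G.connectedComponentMk v ∈ G.connectedComponentMk '' S := ⟨v, hv, rfl⟩
    rw [← Set.ncard_diff_singleton_add_one hvm hfin]
    have h2 : G'.connectedComponentMk '' S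
        = φ '' (G.connectedComponentMk '' S \ {G.connectedComponentMk v}) := by
      rw [himg]
      apply Set.Subset.antisymm
      · rintro c ⟨d, ⟨x, hx, rfl⟩, rfl⟩
        by_cases e : G.connectedComponentMk x = G.connectedComponentMk v
        · refine ⟨G.connectedComponentMk u, ⟨⟨u, hu, rfl⟩, ?_⟩, ?_⟩
          · intro e2
            exact hr (SimpleGraph.ConnectedComponent.eq.1 e2)
          · rw [e, hφmk, hφmk, SimpleGraph.ConnectedComponent.eq]
            exact huv
        · exact ⟨_, ⟨⟨x, hx, rfl⟩, e⟩, rfl⟩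
      · exact Set.image_mono Set.diff_subset
    rw [h2, Set.ncard_image_of_injOn]
    intro c hc d hd
    obtain ⟨⟨x, hx, rfl⟩, hcx⟩ := hc
    obtain ⟨⟨y, hy, rfl⟩, hdy⟩ := hd
    intro hxy
    rw [hφmk, hφmk, SimpleGraph.ConnectedComponent.eq] at hxy
    rw [SimpleGraph.ConnectedComponent.eq]
    have hx' : ¬ G.Reachable x v := fun e => hcx (SimpleGraph.ConnectedComponent.eq.2 e)
    have hy' : ¬ G.Reachable y v := fun e => hdy (SimpleGraph.ConnectedComponent.eq.2 e)
    rcases CC_key h hxy with i | ⟨i, j⟩ | ⟨i, j⟩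
    · exact i
    · exact absurd j.symm hy'
    · exact absurd i hx'

theorem gr_insert (ω : Finset Edge) (e : Edge) (x y : V) :
    (gr (insert e ω)).Adj x y ↔
      (gr ω).Adj x y ∨ (x ≠ y ∧ ((x = ea e ∧ y = eb e) ∨ (x = eb e ∧ y = ea e))) := by
  simp only [gr, SimpleGraph.fromRel_adj, mem_insert]
  constructor
  · rintro ⟨hne, ⟨f, rfl | hf, h1, h2⟩ | ⟨f, rfl | hf, h1, h2⟩⟩
    · exact Or.inr ⟨hne, Or.inl ⟨h1.symm, h2.symm⟩⟩
    · exact Or.inl ⟨hne, Or.inl ⟨f, hf, h1, h2⟩⟩
    · exact Or.inr ⟨hne, Or.inr ⟨h2.symm, h1.symm⟩⟩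
    · exact Or.inl ⟨hne, Or.inr ⟨f, hf, h1, h2⟩⟩
  · rintro (⟨hne, ⟨f, hf, h1, h2⟩ | ⟨f, hf, h1, h2⟩⟩ | ⟨hne, ⟨h1, h2⟩ | ⟨h1, h2⟩⟩)
    · exact ⟨hne, Or.inl ⟨f, Or.inr hf, h1, h2⟩⟩
    · exact ⟨hne, Or.inr ⟨f, Or.inr hf, h1, h2⟩⟩
    · exact ⟨hne, Or.inl ⟨e, Or.inl rfl, h1.symm, h2.symm⟩⟩
    · exact ⟨hne, Or.inr ⟨e, Or.inl rfl, h2.symm, h1.symm⟩⟩

theorem CC_ends {m n : ℕ} {e : Edge} (he : e ∈ edges m n) :
    ea e ∈ (verts m n : Set V) ∧ eb e ∈ (verts m n : Set V) := by
  obtain ⟨x, y, t⟩ := e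
  have h := mem_edges.1 he
  cases t
  · simp only [ea, eb, verts, coe_product, Set.mem_prod, mem_coe, mem_Icc] at *
    simp at h
    simp
    omega
  · simp only [ea, eb, verts, coe_product, Set.mem_prod, mem_coe, mem_Icc] at *
    simp at h
    simp
    omega

theorem wts_reach {m n : ℕ} {ω : Finset Edge} {e : Edge} (he : e ∈ edges m n) (heω : e ∉ ω)
    (s : ℝ) (h : (gr ω).Reachable (ea e) (eb e)) :
    wts s m n (insert e ω) = s * wts s m n ω := by
  have h1 := (ncard_cc (gr_insert ω e) (verts m n).finite_toSet (CC_ends he).1 (CC_ends he).2).1 h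
  have h2 : clusters m n (insert e ω) = clusters m n ω := h1
  rw [wts, wts, h2, card_insert_of_notMem heω, pow_succ]
  ring

theorem wts_not_reach {m n : ℕ} {ω : Finset Edge} {e : Edge} (he : e ∈ edges m n) (heω : e ∉ ω)
    (s : ℝ) (h : ¬ (gr ω).Reachable (ea e) (eb e)) :
    wts s m n ω = s * wts s m n (insert e ω) := by
  have h1 := (ncard_cc (gr_insert ω e) (verts m n).finite_toSet (CC_ends he).1 (CC_ends he).2).2 h
  have h2 : clusters m n (insert e ω) + 1 = clusters m n ω := h1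
  rw [wts, wts, ← h2, card_insert_of_notMem heω, pow_succ, pow_succ]
  ring

end FKI
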