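import Pool.Agent.Lib.MP_216314_pr.NextB

/-!
# JOB Chain: chains modulo 2

A chain is a function `c : Edge → ZMod 2`, `bd c v` its boundary at the vertex `v` (sum over the four edges at `v`).
`pth`: every pair of connected vertices of `gr ω` is the boundary of a chain supported in `ω` (induction: `SimpleGraph.Reachable`, `Walk` or
`Relation.ReflTransGen`; one edge `e` added: `sg e`, `bd_sg`). `hs y x1 x2`, `vs x y1 y2`: straight segments, boundary = end points (`bd_hs`, `bd_vs`;
by cases with `split_ifs`/`omega`, everything in `ZMod 2`, where `1 + 1 = 0`: `by decide`; or induction on the length).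
-/

set_option autoImplicit false

noncomputable section

namespace FKI

open Finset

/-- the boundary of a chain -/
def bd (c : Edge → ZMod 2) (v : V) : ZMod 2 :=
  c (v.1 - 1, v.2, false) + c (v.1, v.2, false) + c (v.1, v.2 - 1, true) + c (v.1, v.2, true)

open Classical in
/-- indicator of a point -/
def ind (u v : V) : ZMod 2 := if v = u then 1 else 0

open Classical in
/-- the chain of one edge -/
def sg (e : Edge) : Edge → ZMod 2 := fun e' => if e' = e then 1 else 0

/-- horizontal segment from `(x1, y)` to `(x2, y)` -/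
def hs (y x1 x2 : ℤ) : Edge → ZMod 2 :=
  fun e => if e.2.2 = false ∧ e.2.1 = y ∧ x1 ≤ e.1 ∧ e.1 < x2 then 1 else 0

/-- vertical segment from `(x, y1)` to `(x, y2)` -/
def vs (x y1 y2 : ℤ) : Edge → ZMod 2 :=
  fun e => if e.2.2 = true ∧ e.1 = x ∧ y1 ≤ e.2.1 ∧ e.2.1 < y2 then 1 else 0

theorem bd_add (c c' : Edge → ZMod 2) (v : V) : bd (c + c') v = bd c v + bd c' v := by
  simp only [bd, Pi.add_apply]
  ring

theorem bd_sg (e : Edge) (v : V) : bd (sg e) v = ind (ea e) v + ind (eb e) v := by
  obtain ⟨x, y, t⟩ := e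
  obtain ⟨u, w⟩ := v
  cases t
  · have h1 : ((u - 1, w, false) = ((x, y, false) : Edge)) ↔ ((u, w) = ((x + 1, y) : V)) := by
      simp only [Prod.mk.injEq, and_true]
      omega
    have h2 : ((u, w, false) = ((x, y, false) : Edge)) ↔ ((u, w) = ((x, y) : V)) := by
      simp
    simp only [bd, sg, ind, ea, eb, h1, h2, Prod.mk.injEq, Bool.true_eq_false, Bool.false_eq_true,
      and_false, if_false, add_zero]
    ring
  · have h1 : ((u, w - 1, true) = ((x, y, true) : Edge)) ↔ ((u, w) = ((x, y + 1) : V)) := by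
      simp only [Prod.mk.injEq, and_true]
      omega
    have h2 : ((u, w, true) = ((x, y, true) : Edge)) ↔ ((u, w) = ((x, y) : V)) := by
      simp
    simp only [bd, sg, ind, ea, eb, h1, h2, Prod.mk.injEq, Bool.false_eq_true,
      and_false, if_false, if_true, zero_add]
    ring

theorem bd_hs {y x1 x2 : ℤ} (h : x1 ≤ x2) (v : V) :
    bd (hs y x1 x2) v = ind (x1, y) v + ind (x2, y) v := by
  obtain ⟨u, w⟩ := v
  simp only [bd, hs, ind, Prod.mk.injEq, true_and, Bool.true_eq_false, false_and, if_false,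
    add_zero]
  split_ifs <;> first | (exfalso; omega) | decide

theorem bd_vs {x y1 y2 : ℤ} (h : y1 ≤ y2) (v : V) :
    bd (vs x y1 y2) v = ind (x, y1) v + ind (x, y2) v := by
  obtain ⟨u, w⟩ := v
  simp only [bd, vs, ind, Prod.mk.injEq, true_and, Bool.false_eq_true, false_and, if_false,
    zero_add]
  split_ifs <;> first | (exfalso; omega) | decide

/-- a path of open edges as a chain -/
theorem pth {ω : Finset Edge} {u v : V} (h : (gr ω).Reachable u v) :
    ∃ c : Edge → ZMod 2, (∀ e ∉ ω, c e = 0) ∧ ∀ w, bd c w = ind u w + ind v w := by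
  obtain ⟨p⟩ := h
  induction p with
  | nil =>
    rename_i u
    refine ⟨0, fun _ _ => rfl, fun w => ?_⟩
    have h2 : ∀ x : ZMod 2, x + x = 0 := by decide
    rw [h2]
    simp [bd]
  | cons hadj _ ih =>
    rename_i u0 v0 w0 wk
    obtain ⟨c, hc1, hc2⟩ := ih
    have h2 : ∀ x : ZMod 2, x + x = 0 := by decide
    rw [gr, SimpleGraph.fromRel_adj] at hadj
    obtain ⟨_, ⟨e, he, h3, h4⟩ | ⟨e, he, h3, h4⟩⟩ := hadj
    · refine ⟨sg e + c, ?_, fun w => ?_⟩
      · intro e' he'
        have h5 : e' ≠ e := fun h => he' (h ▸ he)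
        simp [sg, h5, hc1 e' he']
      · rw [bd_add, bd_sg, hc2, h3, h4]
        linear_combination h2 (ind v0 w)
    · refine ⟨sg e + c, ?_, fun w => ?_⟩
      · intro e' he'
        have h5 : e' ≠ e := fun h => he' (h ▸ he)
        simp [sg, h5, hc1 e' he']
      · rw [bd_add, bd_sg, hc2, h3, h4]
        linear_combination h2 (ind v0 w)

end FKI
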