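import Mathlib

/-!
# MP_216314_pr: critical random-cluster model in a box, the interface

* `Edge`, `V`: edges and vertices of the square lattice;
* `edges m n`, `verts m n`: edges and vertices of the box `[0,m] × [0,n]`;
* `gr ω`: the graph of the open edges; `clusters m n ω`: number of clusters in the box;
* `cfg m n a b`: configurations of the box in which the edges of the bottom side between `(a,0)` and
  `(b,0)` (the wired arc) are open;
* `wt q m n ω`: critical random-cluster weight `(√q)^(number of open edges) q^(number of clusters)`;
* `next ω`: the loops of the configuration; `Visits ω a b p`: the interface passes at the corner `p`.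
-/

set_option autoImplicit false

noncomputable section

namespace FKI

open Finset

/-- vertices of the square lattice -/
abbrev V := ℤ × ℤ

/-- edges of the square lattice: `(x, y, false)` is the horizontal edge from `(x, y)` to
`(x + 1, y)`, `(x, y, true)` is the vertical edge from `(x, y)` to `(x, y + 1)` -/
abbrev Edge := ℤ × ℤ × Bool

/-- the left/lower endpoint of an edge -/
def ea (e : Edge) : V := (e.1, e.2.1)

/-- the right/upper endpoint of an edge -/
def eb (e : Edge) : V := if e.2.2 then (e.1, e.2.1 + 1) else (e.1 + 1, e.2.1)

/-- the vertices of the box `[0,m] × [0,n]` -/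
def verts (m n : ℕ) : Finset V := Icc 0 (m : ℤ) ×ˢ Icc 0 (n : ℤ)

/-- the edges of the box `[0,m] × [0,n]` -/
def edges (m n : ℕ) : Finset Edge :=
  (Ico 0 (m : ℤ) ×ˢ (Icc 0 (n : ℤ) ×ˢ {false})) ∪ (Icc 0 (m : ℤ) ×ˢ (Ico 0 (n : ℤ) ×ˢ {true}))

/-- the edges of the bottom side between `(a,0)` and `(b,0)` -/
def arc (a b : ℤ) : Finset Edge := Ico a b ×ˢ ({0} ×ˢ {false})

/-- the graph of the open edges -/
def gr (ω : Finset Edge) : SimpleGraph V :=
  SimpleGraph.fromRel (fun u v => ∃ e ∈ ω, ea e = u ∧ eb e = v)

/-- the number of clusters in the box (isolated vertices included) -/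
def clusters (m n : ℕ) (ω : Finset Edge) : ℕ :=
  Set.ncard ((gr ω).connectedComponentMk '' (verts m n : Set V))

/-- the configurations: sets of edges of the box containing the wired arc from `(a,0)` to `(b,0)` -/
def cfg (m n : ℕ) (a b : ℤ) : Finset (Finset Edge) :=
  (edges m n).powerset.filter (fun ω => arc a b ⊆ ω)

/-- the weight with parameter `s = √q`: `s^(number of open edges) (s^2)^(number of clusters)` -/
def wts (s : ℝ) (m n : ℕ) (ω : Finset Edge) : ℝ := s ^ ω.card * (s ^ 2) ^ clusters m n ω

/-- the critical random-cluster weight `x^(number of open edges) q^(number of clusters)`,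
`x = √q` -/
def wt (q : ℝ) (m n : ℕ) (ω : Finset Edge) : ℝ := Real.sqrt q ^ ω.card * q ^ clusters m n ω

/-- expectation under the critical random-cluster measure of the box `[0,m] × [0,n]` with the
wired arc from `(a,0)` to `(b,0)`, all other boundary vertices being free -/
def EE (q : ℝ) (m n : ℕ) (a b : ℤ) (F : Finset Edge → ℝ) : ℝ :=
  (∑ ω ∈ cfg m n a b, wt q m n ω * F ω) / ∑ ω ∈ cfg m n a b, wt q m n ω

/-! ### Loops

The vertex `(x,y)` has four corners, the points `(2x,2y)` (south west), `(2x+1,2y)` (south east),
`(2x,2y+1)` (north west), `(2x+1,2y+1)` (north east) of `ℤ²`. Every point of `ℤ²` is a corner of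
exactly one vertex. The loops of `ω` go from corner to corner, with the vertex on their left; at the
corner `p` the loop meets the edge `edgeOf p`; if it is closed the loop goes on around the same
vertex, if it is open it goes along the edge to the other endpoint. -/

/-- the edge that the loop through the corner `p` meets next -/
def edgeOf (p : V) : Edge :=
  if p.1 % 2 = 1 then
    (if p.2 % 2 = 0 then (p.1 / 2, p.2 / 2, false) else (p.1 / 2, p.2 / 2, true))
  else
    (if p.2 % 2 = 1 then (p.1 / 2 - 1, p.2 / 2, false) else (p.1 / 2, p.2 / 2 - 1, true))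

/-- the step of the loop at a corner, if the edge `edgeOf p` is open -/
def ostep (p : V) : V :=
  if p.1 % 2 = 1 then (if p.2 % 2 = 0 then (1, 0) else (0, 1))
  else (if p.2 % 2 = 1 then (-1, 0) else (0, -1))

/-- the step of the loop at a corner, if the edge `edgeOf p` is closed -/
def cstep (p : V) : V :=
  if p.1 % 2 = 1 then (if p.2 % 2 = 0 then (0, 1) else (-1, 0))
  else (if p.2 % 2 = 1 then (0, -1) else (1, 0))

/-- the next corner of the loop through the corner `p` -/
def next (ω : Finset Edge) (p : V) : V := p + (if edgeOf p ∈ ω then ostep p else cstep p)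

/-- The interface, that is the part of the loop around the cluster of the wired arc between the
south east corner `(2b+1,0)` of `(b,0)` and the south west corner `(2a,0)` of `(a,0)`, passes at the
corner `p`. -/
def Visits (ω : Finset Edge) (a b : ℤ) (p : V) : Prop :=
  ∃ t : ℕ, (next ω)^[t] (2 * b + 1, 0) = p ∧ ∀ i ≤ t, (next ω)^[i] (2 * b + 1, 0) ≠ (2 * a, 0)

open Classical in
/-- number of vertices of the top side connected to the wired arc -/
def nT (m n : ℕ) (a : ℤ) (ω : Finset Edge) : ℝ :=
  ((Icc 0 (m : ℤ)).filter (fun x => (gr ω).Reachable (a, 0) (x, (n : ℤ)))).card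

open Classical in
/-- number of vertices of the right side connected to the wired arc -/
def nR (m n : ℕ) (a : ℤ) (ω : Finset Edge) : ℝ :=
  ((Icc 0 (n : ℤ)).filter (fun y => (gr ω).Reachable (a, 0) ((m : ℤ), y))).card

open Classical in
/-- number of vertices of the left side connected to the wired arc -/
def nL (n : ℕ) (a : ℤ) (ω : Finset Edge) : ℝ :=
  ((Icc 0 (n : ℤ)).filter (fun y => (gr ω).Reachable (a, 0) (0, y))).card

open Classical in
/-- number of vertices of the bottom side to the right of the wired arc connected to it -/
def nBR (m : ℕ) (a b : ℤ) (ω : Finset Edge) : ℝ :=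
  ((Ioc b (m : ℤ)).filter (fun x => (gr ω).Reachable (a, 0) (x, 0))).card

open Classical in
/-- number of vertices of the bottom side to the left of the wired arc connected to it -/
def nBL (a : ℤ) (ω : Finset Edge) : ℝ :=
  ((Ico 0 a).filter (fun x => (gr ω).Reachable (a, 0) (x, 0))).card

open Classical in
/-- number of edges of the wired arc along whose upper side the interface passes -/
def nA (a b : ℤ) (ω : Finset Edge) : ℝ :=
  ((Ico a b).filter (fun j => Visits ω a b (2 * j + 2, 1))).card

end FKI
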