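import Pool.Agent.Lib.MP_216314_pr.Chain

/-!
# JOB Par: the parity function of a closed chain

`par c p` = sum of `c` over the horizontal edges below the point `p` (in the column of `p`, rows `≥ -1`).

* The column of `p = (X, Y)` is `(X - 1) / 2` (floor), the rows are the integers `b` with `-1 ≤ b`, `2 b < Y`, i.e. `b ∈ Ico (-1) ((Y + 1) / 2)`.
* `par_col`: for a closed chain without edges in the rows below `-1`, and `b ≥ -1`:
  `∑_{-1 ≤ k < b+1} (c (x-1,k,false) + c (x,k,false)) = c (x,b,true)` by induction on `b` (`bd c (x,k) = 0`, characteristic 2), base `c (x,-2,true) = 0`.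
* `par_next`: the four types of corners (`corner_cases`) and open/closed. Open steps do not change the column and the rows; closed steps:
  SE `(2x+1,2y) → (2x+1,2y+1)`: one more row `y`: `c (x,y,false)`; NW `(2x,2y+1) → (2x,2y)`: one row less; NE `(2x+1,2y+1) → (2x,2y+1)` and
  SW `(2x,2y) → (2x+1,2y)`: the column changes between `x` and `x-1`: `par_col`. (Ordinates are `≥ 0`.)
* `par_c1_c2`: horizontal `e = (x,y,false)`: corners `(2x+1,2y)`, `(2x+2,2y+1)`, same column `x`, one more row. Vertical `e = (x,y,true)`: corners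
  `(2x+1,2y+1)`, `(2x,2y+2)`: columns `x`, `x-1`, same rows: `par_col`.
-/

set_option autoImplicit false

noncomputable section

namespace FKI

open Finset

/-- the parity function -/
def par (c : Edge → ZMod 2) (p : V) : ZMod 2 :=
  ∑ k ∈ Ico (-1 : ℤ) ((p.2 + 1) / 2), c ((p.1 - 1) / 2, k, false)

/-- closed chain, without edges in the rows below `-1` -/
structure Clo (c : Edge → ZMod 2) : Prop where
  bd : ∀ v, bd c v = 0
  low : ∀ x k t, k < -1 → c (x, k, t) = 0

/-- partial sums of a column -/
def par_S (c : Edge → ZMod 2) (x r : ℤ) : ZMod 2 := ∑ k ∈ Ico (-1 : ℤ) r, c (x, k, false)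

theorem par_eval (c : Edge → ZMod 2) {X Y x r : ℤ} (h1 : (X - 1) / 2 = x) (h2 : (Y + 1) / 2 = r) :
    par c (X, Y) = par_S c x r := by
  subst h1
  subst h2
  rfl

theorem par_Ico (y : ℤ) (hy : -1 ≤ y) : Ico (-1 : ℤ) (y + 1) = insert y (Ico (-1 : ℤ) y) := by
  ext k
  simp only [mem_Ico, mem_insert]
  omega

theorem par_S_succ (c : Edge → ZMod 2) (x y : ℤ) (hy : -1 ≤ y) :
    par_S c x (y + 1) = par_S c x y + c (x, y, false) := by
  rw [par_S, par_Ico y hy, sum_insert (by simp), add_comm]
  rfl

theorem par_z0 (a : ZMod 2) : a + a = 0 := by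
  revert a
  decide

theorem par_z1 (a b c : ZMod 2) (h : a + b = c) : a = b + c := by
  revert h
  revert a b c
  decide

theorem par_z2 (a b c d : ZMod 2) (h : a + b + c + d = 0) : c + (a + b) = d := by
  revert h
  revert a b c d
  decide

theorem par_col {c : Edge → ZMod 2} (hc : Clo c) (x b : ℤ) (hb : -1 ≤ b) :
    ∑ k ∈ Ico (-1 : ℤ) (b + 1), (c (x - 1, k, false) + c (x, k, false)) = c (x, b, true) := by
  induction b, hb using Int.leInduction with
  | base =>
    have h1 := hc.bd (x, -1)
    have h2 : c (x, -1 - 1, true) = 0 := hc.low x (-1 - 1) true (by norm_num)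
    simp only [bd] at h1
    have h3 : Ico (-1 : ℤ) (-1 + 1) = {-1} := by decide
    rw [h3, sum_singleton]
    have h4 := par_z2 _ _ _ _ h1
    rw [h2, zero_add] at h4
    exact h4
  | succ b hb ih =>
    rw [par_Ico (b + 1) (by omega), sum_insert (by simp), ih]
    have h1 := hc.bd (x, b + 1)
    simp only [bd, add_sub_cancel_right] at h1
    have h4 := par_z2 _ _ _ _ h1
    rw [add_comm] at h4
    exact h4

theorem par_S_col {c : Edge → ZMod 2} (hc : Clo c) (x b : ℤ) (hb : -1 ≤ b) :
    par_S c (x - 1) (b + 1) = par_S c x (b + 1) + c (x, b, true) := by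
  apply par_z1
  rw [← par_col hc x b hb, sum_add_distrib]
  rfl

theorem par_S_col' {c : Edge → ZMod 2} (hc : Clo c) (x b : ℤ) (hb : -1 ≤ b) :
    par_S c x (b + 1) = par_S c (x - 1) (b + 1) + c (x, b, true) := by
  apply par_z1
  rw [← par_col hc x b hb, sum_add_distrib, add_comm]
  rfl

theorem par_next {c : Edge → ZMod 2} (hc : Clo c) (ω : Finset Edge) (p : V) (hp : 0 ≤ p.2) :
    par c (next ω p) = par c p + (if edgeOf p ∈ ω then 0 else c (edgeOf p)) := by
  rcases corner_cases p with ⟨x, y, rfl⟩ | ⟨x, y, rfl⟩ | ⟨x, y, rfl⟩ | ⟨x, y, rfl⟩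
  · have hy : 0 ≤ y := by simp only at hp; omega
    rw [edgeOf_SE, par_eval c (x := x) (r := y) (X := 2 * x + 1) (Y := 2 * y) (by omega) (by omega)]
    by_cases h : (x, y, false) ∈ ω
    · rw [next_SE_open h, if_pos h, par_eval c (x := x) (r := y) (by omega) (by omega), add_zero]
    · rw [next_SE_closed h, if_neg h, par_eval c (x := x) (r := y + 1) (by omega) (by omega),
        par_S_succ _ _ _ (by omega)]
  · have hy : 0 ≤ y := by simp only at hp; omega
    rw [edgeOf_NE, par_eval c (x := x) (r := y + 1) (X := 2 * x + 1) (Y := 2 * y + 1) (by omega)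
      (by omega)]
    by_cases h : (x, y, true) ∈ ω
    · rw [next_NE_open h, if_pos h, par_eval c (x := x) (r := y + 1) (by omega) (by omega),
        add_zero]
    · rw [next_NE_closed h, if_neg h, par_eval c (x := x - 1) (r := y + 1) (by omega) (by omega),
        par_S_col hc x y (by omega)]
  · have hy : 0 ≤ y := by simp only at hp; omega
    rw [edgeOf_NW, par_eval c (x := x - 1) (r := y + 1) (X := 2 * x) (Y := 2 * y + 1) (by omega)
      (by omega)]
    by_cases h : (x - 1, y, false) ∈ ω
    · rw [next_NW_open h, if_pos h, par_eval c (x := x - 1) (r := y + 1) (by omega) (by omega),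
        add_zero]
    · rw [next_NW_closed h, if_neg h, par_eval c (x := x - 1) (r := y) (by omega) (by omega),
        par_S_succ _ _ _ (by omega), add_assoc, par_z0, add_zero]
  · have hy : 0 ≤ y := by simp only at hp; omega
    rw [edgeOf_SW, par_eval c (x := x - 1) (r := y - 1 + 1) (X := 2 * x) (Y := 2 * y) (by omega)
      (by omega)]
    by_cases h : (x, y - 1, true) ∈ ω
    · rw [next_SW_open h, if_pos h, par_eval c (x := x - 1) (r := y - 1 + 1) (by omega)
        (by omega), add_zero]
    · rw [next_SW_closed h, if_neg h, par_eval c (x := x) (r := y - 1 + 1) (by omega) (by omega),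
        par_S_col' hc x (y - 1) (by omega)]

theorem par_c1_c2 {c : Edge → ZMod 2} (hc : Clo c) (e : Edge) (he : 0 ≤ e.2.1) :
    par c (c2 e) = par c (c1 e) + c e := by
  obtain ⟨x, y, t⟩ := e
  simp only at he
  cases t
  · have e1 : c1 (x, y, false) = (2 * x + 1, 2 * y) := by simp [c1]
    have e2 : c2 (x, y, false) = (2 * x + 2, 2 * y + 1) := by simp [c2]
    rw [e1, e2, par_eval c (x := x) (r := y + 1) (by omega) (by omega),
      par_eval c (x := x) (r := y) (by omega) (by omega), par_S_succ _ _ _ (by omega)]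
  · have e1 : c1 (x, y, true) = (2 * x + 1, 2 * y + 1) := by simp [c1]
    have e2 : c2 (x, y, true) = (2 * x, 2 * y + 2) := by simp [c2]
    rw [e1, e2, par_eval c (x := x - 1) (r := y + 1) (by omega) (by omega),
      par_eval c (x := x) (r := y + 1) (by omega) (by omega), par_S_col hc x y (by omega)]

end FKI
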