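import Pool.Agent.Lib.MP_216314_pr.VisA

/-!
# JOB VisB: the corners of the right and top side

`⇒`: `DD_reach` and `vtx (2x+1,2y) = (x,y)` etc. `⇐`: `vis_of_chain` with
* right side, `v = (m,y)`, `p0 = (2m+1,2y)`: `o = hs y m (m+1) + vs (m+1) (-1) y + hs (-1) a (m+1) + vs a (-1) 0`;
* top side, `v = (x,n)`, `p0 = (2x+1,2n+1)`: `o = vs x n (n+1) + hs (n+1) x (m+1) + vs (m+1) (-1) (n+1) + hs (-1) a (m+1) + vs a (-1) 0`.
Boundary: `bd_add`, `bd_hs`, `bd_vs`; the intermediate end points cancel (characteristic 2).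
`ho`: `corner_cases`, `edgeOf_SE` …, unfold `hs`, `vs` and `omega`: an edge `edgeOf p` of a corner of the box which is in `o` is `(m,y,false)` met by `(2m+1,2y)`
(its other corner `(2m+2,2y+1)` is not in the box), resp. `(x,n,true)` met by `(2x+1,2n+1)`, or `(a,-1,true)` met by `(2a,0)`.
-/

set_option autoImplicit false

noncomputable section

namespace FKI

open Finset

theorem visb_hs_f (y x1 x2 x y' : ℤ) : hs y x1 x2 (x, y', false) = if y' = y ∧ x1 ≤ x ∧ x < x2 then 1 else 0 := by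
  simp [hs]

theorem visb_hs_t (y x1 x2 x y' : ℤ) : hs y x1 x2 (x, y', true) = 0 := by
  simp [hs]

theorem visb_vs_f (x y1 y2 x' y' : ℤ) : vs x y1 y2 (x', y', false) = 0 := by
  simp [vs]

theorem visb_vs_t (x y1 y2 x' y' : ℤ) : vs x y1 y2 (x', y', true) = if x' = x ∧ y1 ≤ y' ∧ y' < y2 then 1 else 0 := by
  simp [vs]

theorem visb_two (z : ZMod 2) : z + z = 0 := by
  revert z
  decide

theorem visb_cancel4 (p q r s t : ZMod 2) : (p + q) + (r + q) + (s + r) + (s + t) = p + t := by
  have h : (p + q) + (r + q) + (s + r) + (s + t) = p + t + (q + q) + (r + r) + (s + s) := by ring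
  rw [h, visb_two, visb_two, visb_two, add_zero, add_zero, add_zero]

theorem visb_cancel5 (p q r s t u : ZMod 2) : (p + q) + (q + r) + (s + r) + (t + s) + (t + u) = p + u := by
  have h : (p + q) + (q + r) + (s + r) + (t + s) + (t + u) = p + u + (q + q) + (r + r) + (s + s) + (t + t) := by ring
  rw [h, visb_two, visb_two, visb_two, visb_two, add_zero, add_zero, add_zero, add_zero]

theorem vis_right {m n : ℕ} {a b : ℤ} (hg : Geo m a b) {ω : Finset Edge} (hω : ω ∈ cfg m n a b)
    {y : ℤ} (h0 : 0 ≤ y) (h1 : y ≤ n) :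
    (2 * (m : ℤ) + 1, 2 * y) ∈ DD ω a b ↔ (gr ω).Reachable (a, 0) ((m : ℤ), y) := by
  obtain ⟨ha, hab, hb⟩ := hg
  have hg : Geo m a b := ⟨ha, hab, hb⟩
  constructor
  · intro h
    have h2 := DD_reach hg hω h
    have h3 : vtx (2 * (m : ℤ) + 1, 2 * y) = ((m : ℤ), y) := by
      have e1 : (2 * (m : ℤ) + 1) / 2 = m := by omega
      have e2 : (2 * y) / 2 = y := by omega
      show ((2 * (m : ℤ) + 1) / 2, (2 * y) / 2) = ((m : ℤ), y)
      rw [e1, e2]
    rwa [h3] at h2
  · intro h
    refine vis_of_chain hg hω (v := ((m : ℤ), y))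
      (hs y m (m + 1) + vs (m + 1) (-1) y + hs (-1) a (m + 1) + vs a (-1) 0) ?_ ?_ ?_ ?_ h
    · intro w
      rw [bd_add, bd_add, bd_add, bd_hs (by omega), bd_vs (by omega), bd_hs (by omega), bd_vs (by omega)]
      exact visb_cancel4 _ _ _ _ _
    · intro x k t hk
      show hs y m (m + 1) (x, k, t) + vs (m + 1) (-1) y (x, k, t) + hs (-1) a (m + 1) (x, k, t) +
        vs a (-1) 0 (x, k, t) = 0
      cases t
      · rw [visb_hs_f, visb_vs_f, visb_hs_f, visb_vs_f, if_neg (by omega), if_neg (by omega)]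
        decide
      · rw [visb_hs_t, visb_vs_t, visb_hs_t, visb_vs_t, if_neg (by omega), if_neg (by omega)]
        decide
    · intro p hp hne
      by_contra hcon
      push Not at hcon
      obtain ⟨hc1, hc2⟩ := hcon
      apply hne
      show hs y m (m + 1) (edgeOf p) + vs (m + 1) (-1) y (edgeOf p) + hs (-1) a (m + 1) (edgeOf p) +
        vs a (-1) 0 (edgeOf p) = 0
      rcases corner_cases p with ⟨x', y', rfl⟩ | ⟨x', y', rfl⟩ | ⟨x', y', rfl⟩ | ⟨x', y', rfl⟩ <;>
        simp only [cor, mem_product, mem_Icc] at hp <;>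
        simp only [ss, Ne, Prod.mk.injEq] at hc1 hc2
      · rw [edgeOf_SE, visb_hs_f, visb_vs_f, visb_hs_f, visb_vs_f, if_neg (by omega), if_neg (by omega)]
        decide
      · rw [edgeOf_NE, visb_hs_t, visb_vs_t, visb_hs_t, visb_vs_t, if_neg (by omega), if_neg (by omega)]
        decide
      · rw [edgeOf_NW, visb_hs_f, visb_vs_f, visb_hs_f, visb_vs_f, if_neg (by omega), if_neg (by omega)]
        decide
      · rw [edgeOf_SW, visb_hs_t, visb_vs_t, visb_hs_t, visb_vs_t, if_neg (by omega), if_neg (by omega)]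
        decide
    · show hs y m (m + 1) (b, -1, false) + vs (m + 1) (-1) y (b, -1, false) + hs (-1) a (m + 1) (b, -1, false) +
        vs a (-1) 0 (b, -1, false) ≠ hs y m (m + 1) (a - 1, -1, false) + vs (m + 1) (-1) y (a - 1, -1, false) +
          hs (-1) a (m + 1) (a - 1, -1, false) + vs a (-1) 0 (a - 1, -1, false)
      rw [visb_hs_f, visb_vs_f, visb_hs_f, visb_vs_f, visb_hs_f, visb_vs_f, visb_hs_f, visb_vs_f,
        if_neg (by omega), if_pos (by omega), if_neg (by omega), if_neg (by omega)]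
      decide

theorem vis_top {m n : ℕ} {a b : ℤ} (hg : Geo m a b) {ω : Finset Edge} (hω : ω ∈ cfg m n a b)
    {x : ℤ} (h0 : 0 ≤ x) (h1 : x ≤ m) :
    (2 * x + 1, 2 * (n : ℤ) + 1) ∈ DD ω a b ↔ (gr ω).Reachable (a, 0) (x, (n : ℤ)) := by
  obtain ⟨ha, hab, hb⟩ := hg
  have hg : Geo m a b := ⟨ha, hab, hb⟩
  constructor
  · intro h
    have h2 := DD_reach hg hω h
    have h3 : vtx (2 * x + 1, 2 * (n : ℤ) + 1) = (x, (n : ℤ)) := by
      have e1 : (2 * (n : ℤ) + 1) / 2 = n := by omega
      have e2 : (2 * x + 1) / 2 = x := by omega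
      show ((2 * x + 1) / 2, (2 * (n : ℤ) + 1) / 2) = (x, (n : ℤ))
      rw [e1, e2]
    rwa [h3] at h2
  · intro h
    refine vis_of_chain hg hω (v := (x, (n : ℤ)))
      (vs x n (n + 1) + hs (n + 1) x (m + 1) + vs (m + 1) (-1) (n + 1) + hs (-1) a (m + 1) + vs a (-1) 0)
      ?_ ?_ ?_ ?_ h
    · intro w
      rw [bd_add, bd_add, bd_add, bd_add, bd_vs (by omega), bd_hs (by omega), bd_vs (by omega), bd_hs (by omega),
        bd_vs (by omega)]
      exact visb_cancel5 _ _ _ _ _ _
    · intro x' k t hk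
      show vs x n (n + 1) (x', k, t) + hs (n + 1) x (m + 1) (x', k, t) + vs (m + 1) (-1) (n + 1) (x', k, t) +
        hs (-1) a (m + 1) (x', k, t) + vs a (-1) 0 (x', k, t) = 0
      cases t
      · rw [visb_vs_f, visb_hs_f, visb_vs_f, visb_hs_f, visb_vs_f, if_neg (by omega), if_neg (by omega)]
        decide
      · rw [visb_vs_t, visb_hs_t, visb_vs_t, visb_hs_t, visb_vs_t, if_neg (by omega), if_neg (by omega),
          if_neg (by omega)]
        decide
    · intro p hp hne
      by_contra hcon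
      push Not at hcon
      obtain ⟨hc1, hc2⟩ := hcon
      apply hne
      show vs x n (n + 1) (edgeOf p) + hs (n + 1) x (m + 1) (edgeOf p) + vs (m + 1) (-1) (n + 1) (edgeOf p) +
        hs (-1) a (m + 1) (edgeOf p) + vs a (-1) 0 (edgeOf p) = 0
      rcases corner_cases p with ⟨x', y', rfl⟩ | ⟨x', y', rfl⟩ | ⟨x', y', rfl⟩ | ⟨x', y', rfl⟩ <;>
        simp only [cor, mem_product, mem_Icc] at hp <;>
        simp only [ss, Ne, Prod.mk.injEq] at hc1 hc2
      · rw [edgeOf_SE, visb_vs_f, visb_hs_f, visb_vs_f, visb_hs_f, visb_vs_f, if_neg (by omega), if_neg (by omega)]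
        decide
      · rw [edgeOf_NE, visb_vs_t, visb_hs_t, visb_vs_t, visb_hs_t, visb_vs_t, if_neg (by omega), if_neg (by omega),
          if_neg (by omega)]
        decide
      · rw [edgeOf_NW, visb_vs_f, visb_hs_f, visb_vs_f, visb_hs_f, visb_vs_f, if_neg (by omega), if_neg (by omega)]
        decide
      · rw [edgeOf_SW, visb_vs_t, visb_hs_t, visb_vs_t, visb_hs_t, visb_vs_t, if_neg (by omega), if_neg (by omega),
          if_neg (by omega)]
        decide
    · show vs x n (n + 1) (b, -1, false) + hs (n + 1) x (m + 1) (b, -1, false) +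
        vs (m + 1) (-1) (n + 1) (b, -1, false) + hs (-1) a (m + 1) (b, -1, false) + vs a (-1) 0 (b, -1, false) ≠
        vs x n (n + 1) (a - 1, -1, false) + hs (n + 1) x (m + 1) (a - 1, -1, false) +
        vs (m + 1) (-1) (n + 1) (a - 1, -1, false) + hs (-1) a (m + 1) (a - 1, -1, false) +
          vs a (-1) 0 (a - 1, -1, false)
      rw [visb_vs_f, visb_hs_f, visb_vs_f, visb_hs_f, visb_vs_f, visb_vs_f, visb_hs_f, visb_vs_f, visb_hs_f,
        visb_vs_f, if_neg (by omega), if_pos (by omega), if_neg (by omega), if_neg (by omega)]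
      decide

end FKI
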