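import Pool.Agent.Lib.MP_216314_pr.VisA

/-!
# JOB VisC: the corners of the left side and of the bottom side

`⇒`: `DD_reach` and `vtx`. `⇐`: `vis_of_chain` with
* left side, `v = (0,y)`, `p0 = (0,2y+1)`: `o = hs y (-1) 0 + vs (-1) (-1) y + hs (-1) (-1) a + vs a (-1) 0`;
* bottom side, `v = (x,0)`, `b < x ≤ m`, `p0 = (2x,0)`: `o = vs x (-1) 0 + hs (-1) a x + vs a (-1) 0`;
* bottom side, `v = (x,0)`, `0 ≤ x < a`, `p0 = (2x,0)`: `o = vs x (-1) 0 + hs (-1) x a + vs a (-1) 0`.
Boundary: `bd_add`, `bd_hs`, `bd_vs`; the intermediate end points cancel (characteristic 2).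
`ho`: `corner_cases`, `edgeOf_SE` …, unfold `hs`, `vs` and `omega`.
-/

set_option autoImplicit false

noncomputable section

namespace FKI

open Finset

theorem visc_c4 (A B C D E : ZMod 2) : (C + A) + (D + C) + (D + E) + (E + B) = A + B := by
  revert A B C D E
  decide

theorem visc_c3 (A B C D : ZMod 2) : (C + A) + (D + C) + (D + B) = A + B := by
  revert A B C D
  decide

theorem visc_c3' (A B C D : ZMod 2) : (C + A) + (C + D) + (D + B) = A + B := by
  revert A B C D
  decide

theorem visc_hs0 {y x1 x2 : ℤ} {e : Edge} (h : ¬ (e.2.2 = false ∧ e.2.1 = y ∧ x1 ≤ e.1 ∧ e.1 < x2)) :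
    hs y x1 x2 e = 0 := by
  unfold hs
  rw [if_neg h]

theorem visc_hs1 {y x1 x2 : ℤ} {e : Edge} (h : e.2.2 = false ∧ e.2.1 = y ∧ x1 ≤ e.1 ∧ e.1 < x2) :
    hs y x1 x2 e = 1 := by
  unfold hs
  rw [if_pos h]

theorem visc_vs0 {x y1 y2 : ℤ} {e : Edge} (h : ¬ (e.2.2 = true ∧ e.1 = x ∧ y1 ≤ e.2.1 ∧ e.2.1 < y2)) :
    vs x y1 y2 e = 0 := by
  unfold vs
  rw [if_neg h]

theorem visc_mem {m n : ℕ} {X Y : ℤ} (h : (X, Y) ∈ cor m n) : 0 ≤ X ∧ 0 ≤ Y := by
  unfold cor at h
  rw [mem_product, mem_Icc, mem_Icc] at h
  exact ⟨h.1.1, h.2.1⟩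

theorem vis_left {m n : ℕ} {a b : ℤ} (hg : Geo m a b) {ω : Finset Edge} (hω : ω ∈ cfg m n a b)
    {y : ℤ} (h0 : 0 ≤ y) (h1 : y ≤ n) :
    ((0 : ℤ), 2 * y + 1) ∈ DD ω a b ↔ (gr ω).Reachable (a, 0) (0, y) := by
  have ha := hg.ha
  have hab := hg.hab
  constructor
  · intro h
    have h2 := DD_reach hg hω h
    have h3 : vtx ((0 : ℤ), 2 * y + 1) = (0, y) := by
      unfold vtx
      refine Prod.ext ?_ ?_
      · show (0 : ℤ) / 2 = 0
        omega
      · show (2 * y + 1) / 2 = y
        omega
    rwa [h3] at h2
  · intro hr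
    refine vis_of_chain hg hω
      (hs y (-1) 0 + vs (-1) (-1) y + hs (-1) (-1) a + vs a (-1) 0) ?_ ?_ ?_ ?_ hr
    · intro w
      rw [bd_add, bd_add, bd_add, bd_hs (by omega), bd_vs (by omega), bd_hs (by omega),
        bd_vs (by omega)]
      exact visc_c4 _ _ _ _ _
    · intro x k t hk
      simp only [Pi.add_apply]
      rw [visc_hs0, visc_vs0, visc_hs0, visc_vs0]
      · rfl
      · rintro ⟨-, -, h, -⟩
        simp only at h
        omega
      · rintro ⟨-, h, -, -⟩
        simp only at h
        omega
      · rintro ⟨-, -, h, -⟩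
        simp only at h
        omega
      · rintro ⟨-, h, -, -⟩
        simp only at h
        omega
    · intro p hp hne
      rcases corner_cases p with ⟨x, z, rfl⟩ | ⟨x, z, rfl⟩ | ⟨x, z, rfl⟩ | ⟨x, z, rfl⟩
      · obtain ⟨hx, hz⟩ := visc_mem hp
        exfalso
        apply hne
        rw [edgeOf_SE]
        simp only [Pi.add_apply]
        rw [visc_hs0, visc_vs0, visc_hs0, visc_vs0]
        · rfl
        · rintro ⟨h, -, -, -⟩
          exact absurd h (by simp)
        · rintro ⟨-, h, -, -⟩
          simp only at h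
          omega
        · rintro ⟨h, -, -, -⟩
          exact absurd h (by simp)
        · rintro ⟨-, -, -, h⟩
          simp only at h
          omega
      · obtain ⟨hx, hz⟩ := visc_mem hp
        exfalso
        apply hne
        rw [edgeOf_NE]
        simp only [Pi.add_apply]
        rw [visc_hs0, visc_vs0, visc_hs0, visc_vs0]
        · rfl
        · rintro ⟨-, -, -, h⟩
          simp only at h
          omega
        · rintro ⟨h, -, -, -⟩
          exact absurd h (by simp)
        · rintro ⟨-, h, -, -⟩
          simp only at h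
          omega
        · rintro ⟨h, -, -, -⟩
          exact absurd h (by simp)
      · obtain ⟨hx, hz⟩ := visc_mem hp
        left
        by_contra hcon
        apply hne
        rw [edgeOf_NW]
        simp only [Pi.add_apply]
        rw [visc_hs0, visc_vs0, visc_hs0, visc_vs0]
        · rfl
        · rintro ⟨h, -, -, -⟩
          exact absurd h (by simp)
        · rintro ⟨-, h, -, -⟩
          simp only at h
          omega
        · rintro ⟨h, -, -, -⟩
          exact absurd h (by simp)
        · rintro ⟨-, h, -, h'⟩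
          simp only at h h'
          apply hcon
          refine Prod.ext ?_ ?_
          · show 2 * x = 0
            omega
          · show 2 * z + 1 = 2 * y + 1
            omega
      · obtain ⟨hx, hz⟩ := visc_mem hp
        right
        by_contra hcon
        apply hne
        rw [edgeOf_SW]
        simp only [Pi.add_apply]
        rw [visc_hs0, visc_vs0, visc_hs0, visc_vs0]
        · rfl
        · rintro ⟨-, h, -, h'⟩
          simp only at h h'
          apply hcon
          unfold ss
          refine Prod.ext ?_ ?_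
          · show 2 * x = 2 * a
            omega
          · show 2 * z = 0
            omega
        · rintro ⟨h, -, -, -⟩
          exact absurd h (by simp)
        · rintro ⟨-, h, -, -⟩
          simp only at h
          omega
        · rintro ⟨h, -, -, -⟩
          exact absurd h (by simp)
    · simp only [Pi.add_apply]
      have e1 : hs y (-1) 0 (b, -1, false) = 0 := by
        apply visc_hs0
        rintro ⟨-, h, -, -⟩
        simp only at h
        omega
      have e2 : vs (-1) (-1) y (b, -1, false) = 0 := by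
        apply visc_vs0
        rintro ⟨h, -, -, -⟩
        exact absurd h (by simp)
      have e3 : hs (-1) (-1) a (b, -1, false) = 0 := by
        apply visc_hs0
        rintro ⟨-, -, -, h⟩
        simp only at h
        omega
      have e4 : vs a (-1) 0 (b, -1, false) = 0 := by
        apply visc_vs0
        rintro ⟨h, -, -, -⟩
        exact absurd h (by simp)
      have f1 : hs y (-1) 0 (a - 1, -1, false) = 0 := by
        apply visc_hs0
        rintro ⟨-, h, -, -⟩
        simp only at h
        omega
      have f2 : vs (-1) (-1) y (a - 1, -1, false) = 0 := by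
        apply visc_vs0
        rintro ⟨h, -, -, -⟩
        exact absurd h (by simp)
      have f3 : hs (-1) (-1) a (a - 1, -1, false) = 1 := by
        apply visc_hs1
        refine ⟨rfl, rfl, ?_, ?_⟩
        · show -1 ≤ a - 1
          omega
        · show a - 1 < a
          omega
      have f4 : vs a (-1) 0 (a - 1, -1, false) = 0 := by
        apply visc_vs0
        rintro ⟨h, -, -, -⟩
        exact absurd h (by simp)
      rw [e1, e2, e3, e4, f1, f2, f3, f4]
      decide

/-- common part of `vis_br` and `vis_bl`: the edges met by the corners of the box -/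
theorem visc_ho {m n : ℕ} {a x x1 x2 : ℤ} (p : V) (hp : p ∈ cor m n)
    (hne : (vs x (-1) 0 + hs (-1) x1 x2 + vs a (-1) 0) (edgeOf p) ≠ 0) :
    p = (2 * x, (0 : ℤ)) ∨ p = ss a := by
  rcases corner_cases p with ⟨u, z, rfl⟩ | ⟨u, z, rfl⟩ | ⟨u, z, rfl⟩ | ⟨u, z, rfl⟩
  · obtain ⟨hx, hz⟩ := visc_mem hp
    exfalso
    apply hne
    rw [edgeOf_SE]
    simp only [Pi.add_apply]
    rw [visc_vs0, visc_hs0, visc_vs0]
    · rfl
    · rintro ⟨h, -, -, -⟩
      exact absurd h (by simp)
    · rintro ⟨-, h, -, -⟩
      simp only at h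
      omega
    · rintro ⟨h, -, -, -⟩
      exact absurd h (by simp)
  · obtain ⟨hx, hz⟩ := visc_mem hp
    exfalso
    apply hne
    rw [edgeOf_NE]
    simp only [Pi.add_apply]
    rw [visc_vs0, visc_hs0, visc_vs0]
    · rfl
    · rintro ⟨-, -, -, h⟩
      simp only at h
      omega
    · rintro ⟨h, -, -, -⟩
      exact absurd h (by simp)
    · rintro ⟨-, -, -, h⟩
      simp only at h
      omega
  · obtain ⟨hx, hz⟩ := visc_mem hp
    exfalso
    apply hne
    rw [edgeOf_NW]
    simp only [Pi.add_apply]
    rw [visc_vs0, visc_hs0, visc_vs0]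
    · rfl
    · rintro ⟨h, -, -, -⟩
      exact absurd h (by simp)
    · rintro ⟨-, h, -, -⟩
      simp only at h
      omega
    · rintro ⟨h, -, -, -⟩
      exact absurd h (by simp)
  · obtain ⟨hx, hz⟩ := visc_mem hp
    by_contra hcon
    rw [not_or] at hcon
    apply hne
    rw [edgeOf_SW]
    simp only [Pi.add_apply]
    rw [visc_vs0, visc_hs0, visc_vs0]
    · rfl
    · rintro ⟨-, h, -, h'⟩
      simp only at h h'
      apply hcon.2
      unfold ss
      refine Prod.ext ?_ ?_
      · show 2 * u = 2 * a
        omega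
      · show 2 * z = 0
        omega
    · rintro ⟨h, -, -, -⟩
      exact absurd h (by simp)
    · rintro ⟨-, h, -, h'⟩
      simp only at h h'
      apply hcon.1
      refine Prod.ext ?_ ?_
      · show 2 * u = 2 * x
        omega
      · show 2 * z = 0
        omega

/-- common part of `vis_br` and `vis_bl`: no edges below the row `-1` -/
theorem visc_low {a x x1 x2 : ℤ} (u k : ℤ) (t : Bool) (hk : k < -1) :
    (vs x (-1) 0 + hs (-1) x1 x2 + vs a (-1) 0) (u, k, t) = 0 := by
  simp only [Pi.add_apply]
  rw [visc_vs0, visc_hs0, visc_vs0]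
  · rfl
  · rintro ⟨-, -, h, -⟩
    simp only at h
    omega
  · rintro ⟨-, h, -, -⟩
    simp only at h
    omega
  · rintro ⟨-, -, h, -⟩
    simp only at h
    omega

theorem visc_vtx (x : ℤ) : vtx (2 * x, (0 : ℤ)) = (x, 0) := by
  unfold vtx
  refine Prod.ext ?_ ?_
  · show (2 * x) / 2 = x
    omega
  · show (0 : ℤ) / 2 = 0
    omega

theorem vis_br {m n : ℕ} {a b : ℤ} (hg : Geo m a b) {ω : Finset Edge} (hω : ω ∈ cfg m n a b)
    {x : ℤ} (h0 : b < x) (h1 : x ≤ m) :
    (2 * x, (0 : ℤ)) ∈ DD ω a b ↔ (gr ω).Reachable (a, 0) (x, 0) := by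
  have ha := hg.ha
  have hab := hg.hab
  constructor
  · intro h
    have h2 := DD_reach hg hω h
    rwa [visc_vtx] at h2
  · intro hr
    refine vis_of_chain hg hω (vs x (-1) 0 + hs (-1) a x + vs a (-1) 0) ?_ ?_ ?_ ?_ hr
    · intro w
      rw [bd_add, bd_add, bd_vs (by omega), bd_hs (by omega), bd_vs (by omega)]
      exact visc_c3 _ _ _ _
    · intro u k t hk
      exact visc_low u k t hk
    · intro p hp hne
      exact visc_ho p hp hne
    · simp only [Pi.add_apply]
      have e1 : vs x (-1) 0 (b, -1, false) = 0 := by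
        apply visc_vs0
        rintro ⟨h, -, -, -⟩
        exact absurd h (by simp)
      have e2 : hs (-1) a x (b, -1, false) = 1 := by
        apply visc_hs1
        exact ⟨rfl, rfl, hab, h0⟩
      have e3 : vs a (-1) 0 (b, -1, false) = 0 := by
        apply visc_vs0
        rintro ⟨h, -, -, -⟩
        exact absurd h (by simp)
      have f1 : vs x (-1) 0 (a - 1, -1, false) = 0 := by
        apply visc_vs0
        rintro ⟨h, -, -, -⟩
        exact absurd h (by simp)
      have f2 : hs (-1) a x (a - 1, -1, false) = 0 := by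
        apply visc_hs0
        rintro ⟨-, -, h, -⟩
        simp only at h
        omega
      have f3 : vs a (-1) 0 (a - 1, -1, false) = 0 := by
        apply visc_vs0
        rintro ⟨h, -, -, -⟩
        exact absurd h (by simp)
      rw [e1, e2, e3, f1, f2, f3]
      decide

theorem vis_bl {m n : ℕ} {a b : ℤ} (hg : Geo m a b) {ω : Finset Edge} (hω : ω ∈ cfg m n a b)
    {x : ℤ} (h0 : 0 ≤ x) (h1 : x < a) :
    (2 * x, (0 : ℤ)) ∈ DD ω a b ↔ (gr ω).Reachable (a, 0) (x, 0) := by
  have ha := hg.ha
  have hab := hg.hab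
  constructor
  · intro h
    have h2 := DD_reach hg hω h
    rwa [visc_vtx] at h2
  · intro hr
    refine vis_of_chain hg hω (vs x (-1) 0 + hs (-1) x a + vs a (-1) 0) ?_ ?_ ?_ ?_ hr
    · intro w
      rw [bd_add, bd_add, bd_vs (by omega), bd_hs (by omega), bd_vs (by omega)]
      exact visc_c3' _ _ _ _
    · intro u k t hk
      exact visc_low u k t hk
    · intro p hp hne
      exact visc_ho p hp hne
    · simp only [Pi.add_apply]
      have e1 : vs x (-1) 0 (b, -1, false) = 0 := by
        apply visc_vs0
        rintro ⟨h, -, -, -⟩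
        exact absurd h (by simp)
      have e2 : hs (-1) x a (b, -1, false) = 0 := by
        apply visc_hs0
        rintro ⟨-, -, -, h⟩
        simp only at h
        omega
      have e3 : vs a (-1) 0 (b, -1, false) = 0 := by
        apply visc_vs0
        rintro ⟨h, -, -, -⟩
        exact absurd h (by simp)
      have f1 : vs x (-1) 0 (a - 1, -1, false) = 0 := by
        apply visc_vs0
        rintro ⟨h, -, -, -⟩
        exact absurd h (by simp)
      have f2 : hs (-1) x a (a - 1, -1, false) = 1 := by
        apply visc_hs1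
        refine ⟨rfl, rfl, ?_, ?_⟩
        · show x ≤ a - 1
          omega
        · show a - 1 < a
          omega
      have f3 : vs a (-1) 0 (a - 1, -1, false) = 0 := by
        apply visc_vs0
        rintro ⟨h, -, -, -⟩
        exact absurd h (by simp)
      rw [e1, e2, e3, f1, f2, f3]
      decide

end FKI
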