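import Pool.Agent.Lib.MP_216314_pr.Loc
import Pool.Agent.Lib.MP_216314_pr.VisB
import Pool.Agent.Lib.MP_216314_pr.VisC

/-!
# JOB SumB: the boundary terms

* `SS_run`: `SS g ω P 0 (run (next ω) (rr b) T) = ∑ t ∈ range T, if P (pt ω b t) then ct g ω (pt ω b t) (Wd ω b t) else 0` (induction on `T`, `List.range_succ`,
  `SS_append`, `Wd_eq_sum`).
* `SS_const`: if all `t < TT` with `P (pt t)` have the same contribution `κ`, and `P p` holds for `p ∈ DD` iff `p = q j` for some `j ∈ J` (`q` injective on `J`),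
  then `SS = κ * #{j ∈ J : q j ∈ DD}`: `pt` is injective on `t < TT` (`hits_inj`), `Finset.card_bij` or `Finset.sum_bij`.
* `bdry_corners`: a corner `p` of the box with `edgeOf p ∉ edges m n` is of one of the four kinds (`corner_cases`, `mem_edges`, `omega`).
* `SS_out`: split the predicate into the five kinds (they are disjoint): right (winding 0, `Wd_right`), top (1), left (2), bottom with `x < a` (3),
  bottom with `b < x` (-1); the corners `(2x,0)`, `a ≤ x ≤ b`, are not in `DD` (`DD_under`). The edges are not in `ω ⊆ edges m n`, so the contribution is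
  `g (winding)`; count with `vis_right`, ….
* `SS_arc`: a corner of the box with `edgeOf p = (j,0,false)`, `a ≤ j < b`, is `(2j+1,0)` (not in `DD`, `DD_under`) or `(2j+2,1)` (winding 2, edge open:
  contribution `-g 1`); `visits_iff`.
-/

set_option autoImplicit false

noncomputable section

namespace FKI

open Finset

open Classical in
theorem SS_run (g : ℤ → ℝ) (ω : Finset Edge) (P : V → Prop) (b : ℤ) (T : ℕ) :
    SS g ω P 0 (run (next ω) (rr b) T) =
      ∑ t ∈ range T, if P (pt ω b t) then ct g ω (pt ω b t) (Wd ω b t) else 0 := by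
  induction T with
  | zero => simp [run, SS]
  | succ T ih =>
    have h : run (next ω) (rr b) (T + 1) = run (next ω) (rr b) T ++ [pt ω b T] := by
      rw [run, run, List.range_succ, List.map_append]
      rfl
    rw [h, SS_append, ih, sum_range_succ, ← Wd_eq_sum, zero_add]
    simp [SS]

open Classical in
theorem SS_const {m n : ℕ} {a b : ℤ} (hgeo : Geo m a b) (g : ℤ → ℝ) {ω : Finset Edge}
    (hω : ω ∈ cfg m n a b) (P : V → Prop) (κ : ℝ) (J : Finset ℤ) (q : ℤ → V)
    (hq : ∀ i ∈ J, ∀ j ∈ J, q i = q j → i = j) (hP : ∀ p ∈ DD ω a b, P p ↔ ∃ j ∈ J, q j = p)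
    (hκ : ∀ t < TT ω a b, P (pt ω b t) → ct g ω (pt ω b t) (Wd ω b t) = κ) :
    SS g ω P 0 (DD ω a b) = κ * ((J.filter (fun j => q j ∈ DD ω a b)).card : ℝ) := by
  have hh := hits hgeo hω
  have hDD : ∀ p, p ∈ DD ω a b ↔ ∃ t < TT ω a b, pt ω b t = p := fun p => mem_run
  have h0 : SS g ω P 0 (DD ω a b) = _ := SS_run g ω P b (TT ω a b)
  have h1 : ∑ t ∈ range (TT ω a b),
      (if P (pt ω b t) then ct g ω (pt ω b t) (Wd ω b t) else 0)
        = ∑ t ∈ (range (TT ω a b)).filter (fun t => P (pt ω b t)), κ := by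
    rw [sum_filter]
    apply sum_congr rfl
    intro t ht
    by_cases h : P (pt ω b t)
    · rw [if_pos h, if_pos h, hκ t (mem_range.1 ht) h]
    · rw [if_neg h, if_neg h]
  have h2 : ((range (TT ω a b)).filter (fun t => P (pt ω b t))).image (pt ω b)
      = (J.filter (fun j => q j ∈ DD ω a b)).image q := by
    ext p
    simp only [mem_image, mem_filter, mem_range]
    constructor
    · rintro ⟨t, ⟨ht, hp⟩, rfl⟩
      have hm : pt ω b t ∈ DD ω a b := (hDD _).2 ⟨t, ht, rfl⟩
      obtain ⟨j, hj, hqj⟩ := (hP _ hm).1 hp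
      exact ⟨j, ⟨hj, by rw [hqj]; exact hm⟩, hqj⟩
    · rintro ⟨j, ⟨hj, hm⟩, rfl⟩
      obtain ⟨t, ht, hpt⟩ := (hDD _).1 hm
      refine ⟨t, ⟨ht, ?_⟩, hpt⟩
      rw [hpt]
      exact (hP _ hm).2 ⟨j, hj, rfl⟩
  have h3 : ((range (TT ω a b)).filter (fun t => P (pt ω b t))).card
      = (J.filter (fun j => q j ∈ DD ω a b)).card := by
    have e1 : (((range (TT ω a b)).filter (fun t => P (pt ω b t))).image (pt ω b)).card
        = ((range (TT ω a b)).filter (fun t => P (pt ω b t))).card := by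
      apply card_image_of_injOn
      intro i hi j hj hij
      simp only [coe_filter, Set.mem_setOf_eq, mem_range] at hi hj
      exact hits_inj (next_inj ω) hh hi.1.le hj.1.le hij
    have e2 : ((J.filter (fun j => q j ∈ DD ω a b)).image q).card
        = (J.filter (fun j => q j ∈ DD ω a b)).card := by
      apply card_image_of_injOn
      intro i hi j hj hij
      simp only [coe_filter, Set.mem_setOf_eq] at hi hj
      exact hq i hi.1 j hj.1 hij
    rw [← e1, ← e2, h2]
  rw [h0, h1, sum_const, nsmul_eq_mul, mul_comm, h3]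

theorem bdry_corners {m n : ℕ} {p : V} (hp : p ∈ cor m n) (h : edgeOf p ∉ edges m n) :
    (∃ y, 0 ≤ y ∧ y ≤ (n : ℤ) ∧ p = (2 * (m : ℤ) + 1, 2 * y)) ∨
    (∃ x, 0 ≤ x ∧ x ≤ (m : ℤ) ∧ p = (2 * x + 1, 2 * (n : ℤ) + 1)) ∨
    (∃ y, 0 ≤ y ∧ y ≤ (n : ℤ) ∧ p = (0, 2 * y + 1)) ∨
    (∃ x, 0 ≤ x ∧ x ≤ (m : ℤ) ∧ p = (2 * x, 0)) := by
  rcases corner_cases p with ⟨x, y, rfl⟩ | ⟨x, y, rfl⟩ | ⟨x, y, rfl⟩ | ⟨x, y, rfl⟩ <;>
    simp only [cor, mem_product, mem_Icc] at hp
  · rw [edgeOf_SE, mem_edges] at h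
    simp at h
    refine Or.inl ⟨y, by omega, by omega, ?_⟩
    have : x = (m : ℤ) := by omega
    rw [this]
  · rw [edgeOf_NE, mem_edges] at h
    simp at h
    refine Or.inr (Or.inl ⟨x, by omega, by omega, ?_⟩)
    have : y = (n : ℤ) := by omega
    rw [this]
  · rw [edgeOf_NW, mem_edges] at h
    simp at h
    refine Or.inr (Or.inr (Or.inl ⟨y, by omega, by omega, ?_⟩))
    have : x = 0 := by omega
    rw [this]
    rfl
  · rw [edgeOf_SW, mem_edges] at h
    simp at h
    refine Or.inr (Or.inr (Or.inr ⟨x, by omega, by omega, ?_⟩))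
    have : y = 0 := by omega
    rw [this]
    rfl

/-- the corners `q j`, `j ∈ J` -/
def sumb_K (J : Finset ℤ) (q : ℤ → V) (p : V) : Prop := ∃ j ∈ J, q j = p

theorem sumb_const {m n : ℕ} {a b : ℤ} (hgeo : Geo m a b) (g : ℤ → ℝ) {ω : Finset Edge}
    (hω : ω ∈ cfg m n a b) (κ : ℤ) (J : Finset ℤ) (q : ℤ → V)
    (hq : ∀ i ∈ J, ∀ j ∈ J, q i = q j → i = j)
    (he : ∀ j ∈ J, edgeOf (q j) ∉ edges m n)
    (hκ : ∀ t < TT ω a b, ∀ j ∈ J, pt ω b t = q j → Wd ω b t = κ)
    (R : ℤ → Prop) [DecidablePred R] (hR : ∀ j ∈ J, q j ∈ DD ω a b ↔ R j) :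
    SS g ω (sumb_K J q) 0 (DD ω a b) = g κ * ((J.filter R).card : ℝ) := by
  classical
  have h := SS_const hgeo g hω (sumb_K J q) (g κ) J q hq (fun p _ => Iff.rfl) (by
    rintro t ht ⟨j, hj, hjt⟩
    have h1 : edgeOf (pt ω b t) ∉ ω := fun h => he j hj (by rw [hjt]; exact (mem_cfg.1 hω).1 h)
    rw [ct, if_neg h1, hκ t ht j hj hjt.symm])
  rw [h]
  congr 3
  apply filter_congr
  exact hR

open Classical in
theorem sumb_ind {m n : ℕ} {a b : ℤ} (hgeo : Geo m a b) {ω : Finset Edge}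
    (hω : ω ∈ cfg m n a b) {p : V} (hp : p ∈ DD ω a b) (c : ℝ) :
    (if edgeOf p ∉ edges m n then c else 0) =
      (if sumb_K (Icc 0 (n : ℤ)) (fun y => (2 * (m : ℤ) + 1, 2 * y)) p then c else 0) +
      (if sumb_K (Icc 0 (m : ℤ)) (fun x => (2 * x + 1, 2 * (n : ℤ) + 1)) p then c else 0) +
      (if sumb_K (Icc 0 (n : ℤ)) (fun y => (0, 2 * y + 1)) p then c else 0) +
      (if sumb_K (Ico 0 a) (fun x => (2 * x, 0)) p then c else 0) +
      (if sumb_K (Ioc b (m : ℤ)) (fun x => (2 * x, 0)) p then c else 0) := by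
  have ha := hgeo.ha
  have hab := hgeo.hab
  have hb := hgeo.hb
  by_cases h : edgeOf p ∉ edges m n
  · rw [if_pos h]
    have hu := DD_under hgeo hω hp
    rcases bdry_corners (DD_mem_cor hgeo hω hp) h with
      ⟨y, h0, h1, rfl⟩ | ⟨x, h0, h1, rfl⟩ | ⟨y, h0, h1, rfl⟩ | ⟨x, h0, h1, rfl⟩
    · rw [if_pos ⟨y, mem_Icc.2 ⟨h0, h1⟩, rfl⟩, if_neg, if_neg, if_neg, if_neg]
      · ring
      all_goals
        rintro ⟨j, hj, hj2⟩
        simp only [Prod.mk.injEq] at hj2
        omega
    · rw [if_neg, if_pos ⟨x, mem_Icc.2 ⟨h0, h1⟩, rfl⟩, if_neg, if_neg, if_neg]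
      · ring
      all_goals
        rintro ⟨j, hj, hj2⟩
        simp only [Prod.mk.injEq] at hj2
        omega
    · rw [if_neg, if_neg, if_pos ⟨y, mem_Icc.2 ⟨h0, h1⟩, rfl⟩, if_neg, if_neg]
      · ring
      all_goals
        rintro ⟨j, hj, hj2⟩
        simp only [Prod.mk.injEq] at hj2
        omega
    · simp only [true_and] at hu
      by_cases hx : x < a
      · rw [if_neg, if_neg, if_neg, if_pos ⟨x, mem_Ico.2 ⟨h0, hx⟩, rfl⟩, if_neg]
        · ring
        · rintro ⟨j, hj, hj2⟩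
          simp only [Prod.mk.injEq] at hj2
          rw [mem_Ioc] at hj
          omega
        all_goals
          rintro ⟨j, hj, hj2⟩
          simp only [Prod.mk.injEq] at hj2
          omega
      · have hx2 : b < x := by omega
        rw [if_neg, if_neg, if_neg, if_neg, if_pos ⟨x, mem_Ioc.2 ⟨hx2, h1⟩, rfl⟩]
        · ring
        · rintro ⟨j, hj, hj2⟩
          simp only [Prod.mk.injEq] at hj2
          rw [mem_Ico] at hj
          omega
        all_goals
          rintro ⟨j, hj, hj2⟩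
          simp only [Prod.mk.injEq] at hj2
          omega
  · rw [if_neg h, if_neg, if_neg, if_neg, if_neg, if_neg]
    · ring
    · rintro ⟨j, hj, rfl⟩
      apply h
      have e := edgeOf_SW j 0
      rw [mul_zero] at e
      simp only [e, mem_edges]
      simp
    · rintro ⟨j, hj, rfl⟩
      apply h
      have e := edgeOf_SW j 0
      rw [mul_zero] at e
      simp only [e, mem_edges]
      simp
    · rintro ⟨j, hj, rfl⟩
      apply h
      have e := edgeOf_NW 0 j
      rw [mul_zero] at e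
      simp only [e, mem_edges]
      simp
    · rintro ⟨j, hj, rfl⟩
      apply h
      simp only [edgeOf_NE, mem_edges]
      simp
    · rintro ⟨j, hj, rfl⟩
      apply h
      simp only [edgeOf_SE, mem_edges]
      simp

theorem SS_out {m n : ℕ} {a b : ℤ} (hgeo : Geo m a b) (g : ℤ → ℝ) {ω : Finset Edge}
    (hω : ω ∈ cfg m n a b) :
    SS g ω (fun p => edgeOf p ∉ edges m n) 0 (DD ω a b) =
      g 0 * nR m n a ω + g 1 * nT m n a ω + g 2 * nL n a ω + g 3 * nBL a ω
        + g (-1) * nBR m a b ω := by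
  classical
  have ha := hgeo.ha
  have hab := hgeo.hab
  have hb := hgeo.hb
  have c0 := sumb_const hgeo g hω 0 (Icc 0 (n : ℤ)) (fun y => (2 * (m : ℤ) + 1, 2 * y))
    (by
      intro i _ j _ h
      simp only [Prod.mk.injEq] at h
      omega)
    (by
      intro j _
      simp only [edgeOf_SE, mem_edges]
      simp)
    (fun t ht j _ h => Wd_right hgeo hω ht h)
    (fun y => (gr ω).Reachable (a, 0) ((m : ℤ), y))
    (fun j hj => vis_right hgeo hω (mem_Icc.1 hj).1 (mem_Icc.1 hj).2)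
  have c1 := sumb_const hgeo g hω 1 (Icc 0 (m : ℤ)) (fun x => (2 * x + 1, 2 * (n : ℤ) + 1))
    (by
      intro i _ j _ h
      simp only [Prod.mk.injEq] at h
      omega)
    (by
      intro j _
      simp only [edgeOf_NE, mem_edges]
      simp)
    (fun t ht j _ h => Wd_top hgeo hω ht h)
    (fun x => (gr ω).Reachable (a, 0) (x, (n : ℤ)))
    (fun j hj => vis_top hgeo hω (mem_Icc.1 hj).1 (mem_Icc.1 hj).2)
  have c2 := sumb_const hgeo g hω 2 (Icc 0 (n : ℤ)) (fun y => (0, 2 * y + 1))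
    (by
      intro i _ j _ h
      simp only [Prod.mk.injEq] at h
      omega)
    (by
      intro j _
      have e := edgeOf_NW 0 j
      rw [mul_zero] at e
      simp only [e, mem_edges]
      simp)
    (fun t ht j _ h => Wd_left hgeo hω ht h)
    (fun y => (gr ω).Reachable (a, 0) (0, y))
    (fun j hj => vis_left hgeo hω (mem_Icc.1 hj).1 (mem_Icc.1 hj).2)
  have c3 := sumb_const hgeo g hω 3 (Ico 0 a) (fun x => (2 * x, 0))
    (by
      intro i _ j _ h
      simp only [Prod.mk.injEq] at h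
      omega)
    (by
      intro j _
      have e := edgeOf_SW j 0
      rw [mul_zero] at e
      simp only [e, mem_edges]
      simp)
    (fun t ht j hj h => Wd_bl hgeo hω ht (mem_Ico.1 hj).2 h)
    (fun x => (gr ω).Reachable (a, 0) (x, 0))
    (fun j hj => vis_bl hgeo hω (mem_Ico.1 hj).1 (mem_Ico.1 hj).2)
  have c4 := sumb_const hgeo g hω (-1) (Ioc b (m : ℤ)) (fun x => (2 * x, 0))
    (by
      intro i _ j _ h
      simp only [Prod.mk.injEq] at h
      omega)
    (by
      intro j _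
      have e := edgeOf_SW j 0
      rw [mul_zero] at e
      simp only [e, mem_edges]
      simp)
    (fun t ht j hj h => Wd_br hgeo hω ht (mem_Ioc.1 hj).1 h)
    (fun x => (gr ω).Reachable (a, 0) (x, 0))
    (fun j hj => vis_br hgeo hω (mem_Ioc.1 hj).1 (mem_Ioc.1 hj).2)
  have hDD : DD ω a b = run (next ω) (rr b) (TT ω a b) := rfl
  have key : SS g ω (fun p => edgeOf p ∉ edges m n) 0 (DD ω a b) =
      SS g ω (sumb_K (Icc 0 (n : ℤ)) (fun y => (2 * (m : ℤ) + 1, 2 * y))) 0 (DD ω a b) +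
      SS g ω (sumb_K (Icc 0 (m : ℤ)) (fun x => (2 * x + 1, 2 * (n : ℤ) + 1))) 0 (DD ω a b) +
      SS g ω (sumb_K (Icc 0 (n : ℤ)) (fun y => (0, 2 * y + 1))) 0 (DD ω a b) +
      SS g ω (sumb_K (Ico 0 a) (fun x => (2 * x, 0))) 0 (DD ω a b) +
      SS g ω (sumb_K (Ioc b (m : ℤ)) (fun x => (2 * x, 0))) 0 (DD ω a b) := by
    rw [hDD]
    simp only [SS_run]
    rw [← sum_add_distrib, ← sum_add_distrib, ← sum_add_distrib, ← sum_add_distrib]
    apply sum_congr rfl
    intro t ht
    rw [← sumb_ind hgeo hω (p := pt ω b t) (mem_run.2 ⟨t, mem_range.1 ht, rfl⟩)]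
    by_cases h : edgeOf (pt ω b t) ∉ edges m n
    · rw [if_pos h, if_pos h]
    · rw [if_neg h, if_neg h]
  rw [key, c0, c1, c2, c3, c4]
  simp only [nR, nT, nL, nBL, nBR]

theorem SS_arc {m n : ℕ} {a b : ℤ} (hgeo : Geo m a b) (g : ℤ → ℝ) {ω : Finset Edge}
    (hω : ω ∈ cfg m n a b) :
    SS g ω (fun p => edgeOf p ∈ edges m n ∩ arc a b) 0 (DD ω a b) = - g 1 * nA a b ω := by
  classical
  have ha := hgeo.ha
  have hab := hgeo.hab
  have hb := hgeo.hb
  have hmem : ∀ p ∈ DD ω a b, edgeOf p ∈ edges m n ∩ arc a b ↔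
      ∃ j ∈ Ico a b, (fun j : ℤ => ((2 * j + 2, 1) : V)) j = p := by
    intro p hp
    have hu := DD_under hgeo hω hp
    constructor
    · intro h
      rw [mem_inter] at h
      obtain ⟨-, h2⟩ := h
      rcases corner_cases p with ⟨x, y, rfl⟩ | ⟨x, y, rfl⟩ | ⟨x, y, rfl⟩ | ⟨x, y, rfl⟩
      · rw [edgeOf_SE] at h2
        simp [arc] at h2
        exfalso
        apply hu
        simp only
        omega
      · rw [edgeOf_NE] at h2
        simp [arc] at h2
      · rw [edgeOf_NW] at h2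
        simp [arc] at h2
        refine ⟨x - 1, mem_Ico.2 ⟨by omega, by omega⟩, ?_⟩
        simp only [Prod.mk.injEq]
        omega
      · rw [edgeOf_SW] at h2
        simp [arc] at h2
    · rintro ⟨j, hj, rfl⟩
      rw [mem_Ico] at hj
      have e : edgeOf (2 * j + 2, 1) = (j, 0, false) := by
        have e1 := edgeOf_NW (j + 1) 0
        have e2 : ((2 * (j + 1), 2 * 0 + 1) : V) = (2 * j + 2, 1) := by
          simp only [Prod.mk.injEq]
          omega
        rw [e2] at e1
        rw [e1]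
        simp
      simp only [e, mem_inter, mem_edges]
      simp [arc]
      omega
  have h := SS_const hgeo g hω (fun p => edgeOf p ∈ edges m n ∩ arc a b) (- g 1) (Ico a b)
    (fun j => (2 * j + 2, 1))
    (by
      intro i _ j _ h
      simp only [Prod.mk.injEq] at h
      omega)
    hmem
    (by
      intro t ht hp
      have h1 : edgeOf (pt ω b t) ∈ ω := (mem_cfg.1 hω).2 (mem_inter.1 hp).2
      obtain ⟨j, hj, hjt⟩ := (hmem _ (mem_run.2 ⟨t, ht, rfl⟩)).1 hp
      rw [mem_Ico] at hj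
      rw [ct, if_pos h1, Wd_arc hgeo hω ht hj.1 hj.2 hjt.symm]
      norm_num)
  rw [h, nA]
  congr 3
  apply filter_congr
  intro j _
  exact (visits_iff hgeo hω _).symm

end FKI
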