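import Pool.Agent.Lib.MP_216314_pr.SumA
import Pool.Agent.Lib.MP_216314_pr.SumB

/-!
# The sum rules
-/

set_option autoImplicit false

noncomputable section

namespace FKI

open Finset

/-- the general sum rule: `g` is any solution of `g (w+1) + g (w-1) = √q g w` -/
theorem sum_rule {m n : ℕ} {a b : ℤ} (hgeo : Geo m a b) {g : ℤ → ℝ} {s : ℝ}
    (hg : ∀ w, g (w + 1) + g (w - 1) = s * g w) :
    ∑ ω ∈ cfg m n a b, wts s m n ω *
      (g 0 * nR m n a ω + g 1 * nT m n a ω + g 2 * nL n a ω + g 3 * nBL a ω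
        + g (-1) * nBR m a b ω - g 1 * nA a b ω) =
      (g 0 + g 1 + g 2) * ∑ ω ∈ cfg m n a b, wts s m n ω := by
  rw [← sum_rest hgeo hg]
  apply Finset.sum_congr rfl
  intro ω hω
  rw [SS_out hgeo g hω, SS_arc hgeo g hω]
  ring

end FKI
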