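import Pool.Agent.Lib.MP_216314_pr.Fin

/-!
# The two sum rules for the expectations
-/

set_option autoImplicit false

noncomputable section

namespace FKI

open Finset

/-- the step of the recursion as a permutation of the plane -/
def stp (s : ℝ) : Equiv.Perm (ℝ × ℝ) where
  toFun z := (z.2, s * z.2 - z.1)
  invFun z := (s * z.1 - z.2, z.1)
  left_inv z := by
    ext <;> simp
  right_inv z := by
    ext <;> simp

theorem exists_g (s c0 c1 : ℝ) : ∃ g : ℤ → ℝ, g 0 = c0 ∧ g 1 = c1 ∧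
    ∀ w, g (w + 1) + g (w - 1) = s * g w := by
  have key : ∀ w : ℤ, ((stp s) ^ (w + 1)) (c0, c1) = stp s (((stp s) ^ w) (c0, c1)) := by
    intro w
    rw [zpow_add_one, (Commute.zpow_self (stp s) w).eq]
    rfl
  refine ⟨fun w => (((stp s) ^ w) (c0, c1)).1, ?_, ?_, ?_⟩
  · simp
  · have h := key 0
    simp only [zero_add] at h
    show (((stp s) ^ (1 : ℤ)) (c0, c1)).1 = c1
    rw [h]
    simp [stp]
  · intro w
    have h1 := key w
    have h2 := key (w - 1)
    rw [sub_add_cancel] at h2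
    show (((stp s) ^ (w + 1)) (c0, c1)).1 + (((stp s) ^ (w - 1)) (c0, c1)).1
      = s * (((stp s) ^ w) (c0, c1)).1
    rw [h1, h2]
    simp [stp]

theorem wts_sqrt {q : ℝ} (hq : 0 < q) (m n : ℕ) (ω : Finset Edge) :
    wts (Real.sqrt q) m n ω = wt q m n ω := by
  unfold wts wt
  rw [Real.sq_sqrt hq.le]

theorem wt_pos {q : ℝ} (hq : 0 < q) (m n : ℕ) (ω : Finset Edge) : 0 < wt q m n ω := by
  unfold wt
  have : 0 < Real.sqrt q := Real.sqrt_pos.2 hq
  positivity

theorem arc_subset {m n : ℕ} {a b : ℤ} (hg : Geo m a b) : arc a b ⊆ edges m n := by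
  intro e he
  obtain ⟨x, y, t⟩ := e
  simp only [arc, mem_product, mem_Ico, mem_singleton] at he
  simp only [edges, mem_union, mem_product, mem_Ico, mem_Icc, mem_singleton]
  left
  have := hg.ha
  have := hg.hb
  obtain ⟨⟨h1, h2⟩, h3, h4⟩ := he
  refine ⟨⟨by omega, by omega⟩, ⟨by omega, by omega⟩, h4⟩

theorem Z_pos {q : ℝ} (hq : 0 < q) {m n : ℕ} {a b : ℤ} (hg : Geo m a b) :
    0 < ∑ ω ∈ cfg m n a b, wt q m n ω := by
  apply Finset.sum_pos (fun ω _ => wt_pos hq m n ω)
  exact ⟨arc a b, by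
    rw [mem_cfg]
    exact ⟨arc_subset hg, subset_rfl⟩⟩

theorem EE_add (q : ℝ) (m n : ℕ) (a b : ℤ) (F G : Finset Edge → ℝ) :
    EE q m n a b (fun ω => F ω + G ω) = EE q m n a b F + EE q m n a b G := by
  unfold EE
  rw [← add_div, ← Finset.sum_add_distrib]
  congr 1
  exact Finset.sum_congr rfl (fun ω _ => by ring)

theorem EE_smul (q : ℝ) (m n : ℕ) (a b : ℤ) (c : ℝ) (F : Finset Edge → ℝ) :
    EE q m n a b (fun ω => c * F ω) = c * EE q m n a b F := by
  unfold EE
  rw [mul_div_assoc', Finset.mul_sum]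
  congr 1
  exact Finset.sum_congr rfl (fun ω _ => by ring)

/-- the general sum rule for the expectations -/
theorem EE_rule {q : ℝ} (hq : 0 < q) {m n : ℕ} {a b : ℤ} (hgeo : Geo m a b) (c0 c1 : ℝ) :
    c0 * EE q m n a b (nR m n a) + c1 * EE q m n a b (nT m n a)
      + (Real.sqrt q * c1 - c0) * EE q m n a b (nL n a)
      + ((q - 1) * c1 - Real.sqrt q * c0) * EE q m n a b (nBL a)
      + (Real.sqrt q * c0 - c1) * EE q m n a b (nBR m a b)
      - c1 * EE q m n a b (nA a b) = (1 + Real.sqrt q) * c1 := by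
  obtain ⟨g, h0, h1, hg⟩ := exists_g (Real.sqrt q) c0 c1
  have hs : Real.sqrt q * Real.sqrt q = q := Real.mul_self_sqrt hq.le
  have e2 : g 2 = Real.sqrt q * c1 - c0 := by
    have := hg 1
    norm_num at this
    rw [h0, h1] at this
    linarith
  have e3 : g 3 = (q - 1) * c1 - Real.sqrt q * c0 := by
    have := hg 2
    norm_num at this
    rw [h1, e2] at this
    have h : g 3 = Real.sqrt q * (Real.sqrt q * c1 - c0) - c1 := by linarith
    rw [h]
    calc Real.sqrt q * (Real.sqrt q * c1 - c0) - c1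
        = (Real.sqrt q * Real.sqrt q) * c1 - Real.sqrt q * c0 - c1 := by ring
      _ = (q - 1) * c1 - Real.sqrt q * c0 := by rw [hs]; ring
  have em : g (-1) = Real.sqrt q * c0 - c1 := by
    have := hg 0
    norm_num at this
    rw [h1, h0] at this
    linarith
  have hsum := sum_rule (m := m) (n := n) hgeo hg
  simp only [wts_sqrt hq] at hsum
  have hZ := Z_pos (n := n) hq hgeo
  have hE : EE q m n a b (fun ω => g 0 * nR m n a ω + g 1 * nT m n a ω + g 2 * nL n a ω
      + g 3 * nBL a ω + g (-1) * nBR m a b ω - g 1 * nA a b ω) = g 0 + g 1 + g 2 := by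
    unfold EE
    rw [hsum]
    field_simp
  have hlin : EE q m n a b (fun ω => g 0 * nR m n a ω + g 1 * nT m n a ω + g 2 * nL n a ω
      + g 3 * nBL a ω + g (-1) * nBR m a b ω - g 1 * nA a b ω) =
      g 0 * EE q m n a b (nR m n a) + g 1 * EE q m n a b (nT m n a)
      + g 2 * EE q m n a b (nL n a) + g 3 * EE q m n a b (nBL a)
      + g (-1) * EE q m n a b (nBR m a b) + (- g 1) * EE q m n a b (nA a b) := by
    rw [← EE_smul, ← EE_smul, ← EE_smul, ← EE_smul, ← EE_smul, ← EE_smul, ← EE_add, ← EE_add,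
      ← EE_add, ← EE_add, ← EE_add]
    congr 1
    ext ω
    ring
  rw [hlin, h0, h1, e2, e3, em] at hE
  linarith

theorem rule_one {q : ℝ} (hq : 0 < q) {m n : ℕ} {a b : ℤ} (hgeo : Geo m a b) :
    EE q m n a b (nT m n a) + Real.sqrt q / 2 * (EE q m n a b (nL n a) + EE q m n a b (nR m n a))
      + (q - 2) / 2 * (EE q m n a b (nBL a) + EE q m n a b (nBR m a b))
      = 1 + Real.sqrt q + EE q m n a b (nA a b) := by
  have h := EE_rule hq (n := n) hgeo (Real.sqrt q / 2) 1
  have hs : Real.sqrt q * Real.sqrt q = q := Real.mul_self_sqrt hq.le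
  have h2 : Real.sqrt q * (Real.sqrt q / 2) = q / 2 := by
    rw [← hs]
    simp only [Real.sqrt_mul_self (Real.sqrt_nonneg q)]
    ring
  rw [h2] at h
  linarith

theorem rule_two {q : ℝ} (hq : 0 < q) {m n : ℕ} {a b : ℤ} (hgeo : Geo m a b) :
    EE q m n a b (nL n a) - EE q m n a b (nR m n a)
      = Real.sqrt q * (EE q m n a b (nBR m a b) - EE q m n a b (nBL a)) := by
  have h := EE_rule hq (n := n) hgeo (-1) 0
  linarith

end FKI
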