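import Pool.Agent.Lib.MP_216314_pr.Uni
import Pool.Agent.Lib.MP_216314_pr.Res
import Pool.Agent.Lib.MP_216314_pr.L.SumB

/-!
# The sum rules for every arc in the union of the lower and left side
-/

set_option autoImplicit false

noncomputable section

namespace FKI

open Finset

theorem reach_base {m n : ℕ} {a b : ℤ} (hg : Geo m a b) {ω : Finset Edge} (hω : ω ∈ cfg m n a b) :
    (gr ω).Reachable (a, 0) (b, 0) := by
  have h1 := DD_reach hg hω (p := rr b) (mem_run.2 ⟨0, TT_pos hg hω, rfl⟩)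
  rwa [L.vtx_rr] at h1

theorem reach_iff {m n : ℕ} {a b : ℤ} (hg : Geo m a b) {ω : Finset Edge} (hω : ω ∈ cfg m n a b)
    (v : V) : (gr ω).Reachable (a, 0) v ↔ (gr ω).Reachable (b, 0) v :=
  ⟨fun h => (reach_base hg hω).symm.trans h, fun h => (reach_base hg hω).trans h⟩

theorem reach_iffL {m n : ℕ} {b c : ℤ} (hg : L.Geo m n b c) {ω : Finset Edge}
    (hω : ω ∈ L.cfg m n b c) (v : V) :
    (gr ω).Reachable (b, 0) v ↔ (gr ω).Reachable (0, 0) v := by
  have h0 : 0 < L.TT ω b c := by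
    rcases Nat.eq_zero_or_pos (L.TT ω b c) with h | h
    · have h1 := (L.hits hg hω).1
      rw [h] at h1
      exact absurd h1 (L.rr_ne_ss hg)
    · exact h
  have h1 := L.DD_reach hg hω (p := rr b) (mem_run.2 ⟨0, h0, rfl⟩)
  rw [L.vtx_rr] at h1
  exact ⟨fun h => h1.trans h, fun h => h1.symm.trans h⟩

theorem card_filter_iff (s : Finset ℤ) (P Q : ℤ → Prop) [DecidablePred P] [DecidablePred Q]
    (h : ∀ x, P x ↔ Q x) : ((s.filter P).card : ℝ) = ((s.filter Q).card : ℝ) := by
  rw [Finset.filter_congr (fun x _ => h x)]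

theorem pass_iffL {m n : ℕ} {b c : ℤ} (hg : L.Geo m n b c) {ω : Finset Edge}
    (hω : ω ∈ L.cfg m n b c) (p : V) : Pass ω b c p ↔ p ∈ L.DD ω b c := by
  have hH := L.hits hg hω
  have hs : stopc c = L.ss c := by
    unfold stopc L.ss
    rw [if_neg (not_lt.2 hg.hc0)]
  unfold L.DD Pass
  rw [mem_run, hs]
  constructor
  · rintro ⟨t, h1, h2⟩
    refine ⟨t, ?_, h1⟩
    by_contra hc
    exact h2 (L.TT ω b c) (not_lt.1 hc) hH.1
  · rintro ⟨t, ht, h1⟩
    exact ⟨t, h1, fun i hi => hH.2 i (lt_of_le_of_lt hi ht)⟩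

theorem wcfg_neg (m n : ℕ) (b K : ℤ) (hK : K < 0) : wcfg m n b K = cfg m n (-K) b := by
  unfold wcfg cfg
  have h : warc b K = arc (-K) b := by
    unfold warc arc
    have h1 : Ico 0 K = (∅ : Finset ℤ) := by
      apply Finset.Ico_eq_empty
      omega
    have h2 : max 0 (-K) = -K := by omega
    rw [h1, h2]
    simp
  rw [h]

theorem wcfg_nonneg (m n : ℕ) (b K : ℤ) (hK : 0 ≤ K) : wcfg m n b K = L.cfg m n b K := by
  unfold wcfg L.cfg
  have h : warc b K = L.arc b K := by
    unfold warc L.arc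
    have h2 : max 0 (-K) = 0 := by omega
    rw [h2]
  rw [h]

theorem Ex_add (q : ℝ) (m n : ℕ) (b K : ℤ) (F G : Finset Edge → ℝ) :
    Ex q m n b K (fun ω => F ω + G ω) = Ex q m n b K F + Ex q m n b K G := by
  unfold Ex
  rw [← add_div, ← Finset.sum_add_distrib]
  congr 1
  exact Finset.sum_congr rfl (fun ω _ => by ring)

theorem Ex_smul (q : ℝ) (m n : ℕ) (b K : ℤ) (c : ℝ) (F : Finset Edge → ℝ) :
    Ex q m n b K (fun ω => c * F ω) = c * Ex q m n b K F := by
  unfold Ex
  rw [mul_div_assoc', Finset.mul_sum]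
  congr 1
  exact Finset.sum_congr rfl (fun ω _ => by ring)

/-- the general sum rule, arc in the lower side -/
theorem Ex_neg {q : ℝ} (hq : 0 < q) {m n : ℕ} {b K : ℤ} (hK : K < 0) (hb : -b ≤ K)
    (hbm : b ≤ m) (c0 c1 : ℝ) :
    c0 * Ex q m n b K (cR m n b) + c1 * Ex q m n b K (cT m n b)
      + (Real.sqrt q * c1 - c0) * Ex q m n b K (cL n b K)
      + ((q - 1) * c1 - Real.sqrt q * c0) * Ex q m n b K (cBL b K)
      + (Real.sqrt q * c0 - c1) * Ex q m n b K (cBR m b)
      - c1 * Ex q m n b K (aB b K) - c0 * Ex q m n b K (aL b K) = (1 + Real.sqrt q) * c1 := by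
  classical
  have hg : Geo m (-K) b := ⟨by omega, by omega, hbm⟩
  have h := EE_rule hq (n := n) hg c0 c1
  have e : ∀ F G : Finset Edge → ℝ, (∀ ω ∈ cfg m n (-K) b, F ω = G ω) →
      Ex q m n b K F = EE q m n (-K) b G := by
    intro F G hFG
    unfold Ex EE
    rw [wcfg_neg m n b K hK]
    congr 1
    apply Finset.sum_congr rfl
    intro ω hω
    rw [hFG ω hω]
  have e1 := e (cR m n b) (nR m n (-K)) (by
    intro ω hω
    unfold cR nR
    exact card_filter_iff _ _ _ (fun x => (reach_iff hg hω _).symm))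
  have e2 := e (cT m n b) (nT m n (-K)) (by
    intro ω hω
    unfold cT nT
    exact card_filter_iff _ _ _ (fun x => (reach_iff hg hω _).symm))
  have e3 := e (cL n b K) (nL n (-K)) (by
    intro ω hω
    unfold cL nL
    have h2 : max 0 (K + 1) = 0 := by omega
    rw [h2]
    exact card_filter_iff _ _ _ (fun x => (reach_iff hg hω _).symm))
  have e4 := e (cBL b K) (nBL (-K)) (by
    intro ω hω
    unfold cBL nBL
    exact card_filter_iff _ _ _ (fun x => (reach_iff hg hω _).symm))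
  have e5 := e (cBR m b) (nBR m (-K) b) (by
    intro ω hω
    unfold cBR nBR
    exact card_filter_iff _ _ _ (fun x => (reach_iff hg hω _).symm))
  have e6 := e (aB b K) (nA (-K) b) (by
    intro ω hω
    unfold aB nA
    have h2 : max 0 (-K) = -K := by omega
    have h3 : stopc K = (2 * (-K), 0) := by
      unfold stopc
      rw [if_pos hK]
      ext <;> simp
    rw [h2]
    unfold Pass Visits
    rw [h3])
  have e7 : Ex q m n b K (aL b K) = 0 := by
    unfold Ex
    have h0 : ∑ ω ∈ wcfg m n b K, wt q m n ω * aL b K ω = 0 := by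
      apply Finset.sum_eq_zero
      intro ω _
      unfold aL
      have h1 : Ico 0 K = (∅ : Finset ℤ) := by
        apply Finset.Ico_eq_empty
        omega
      rw [h1]
      simp
    rw [h0, zero_div]
  rw [e1, e2, e3, e4, e5, e6, e7]
  linarith

/-- the general sum rule, arc through the corner -/
theorem Ex_nonneg {q : ℝ} (hq : 0 < q) {m n : ℕ} {b K : ℤ} (hK : 0 ≤ K) (hKn : K ≤ n)
    (hb : 0 ≤ b) (hbm : b ≤ m) (c0 c1 : ℝ) :
    c0 * Ex q m n b K (cR m n b) + c1 * Ex q m n b K (cT m n b)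
      + (Real.sqrt q * c1 - c0) * Ex q m n b K (cL n b K)
      + ((q - 1) * c1 - Real.sqrt q * c0) * Ex q m n b K (cBL b K)
      + (Real.sqrt q * c0 - c1) * Ex q m n b K (cBR m b)
      - c1 * Ex q m n b K (aB b K) - c0 * Ex q m n b K (aL b K) = c0 + c1 := by
  classical
  have hg : L.Geo m n b K := ⟨hb, hbm, hK, hKn⟩
  obtain ⟨g, h0, h1, hgg⟩ := exists_g (Real.sqrt q) c0 c1
  have hs : Real.sqrt q * Real.sqrt q = q := Real.mul_self_sqrt hq.le
  have e2 : g 2 = Real.sqrt q * c1 - c0 := by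
    have := hgg 1
    norm_num at this
    rw [h0, h1] at this
    linarith
  have em : g (-1) = Real.sqrt q * c0 - c1 := by
    have := hgg 0
    norm_num at this
    rw [h1, h0] at this
    linarith
  have hrest := L.sum_rest hg hgg
  have hsum : ∑ ω ∈ wcfg m n b K, wt q m n ω *
      (g 0 * cR m n b ω + g 1 * cT m n b ω + g 2 * cL n b K ω + g (-1) * cBR m b ω
        + (- g 1) * aB b K ω + (- g 0) * aL b K ω) =
      (g 0 + g 1) * ∑ ω ∈ wcfg m n b K, wt q m n ω := by
    rw [wcfg_nonneg m n b K hK]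
    simp only [← wts_sqrt hq]
    rw [← hrest]
    apply Finset.sum_congr rfl
    intro ω hω
    have m1 : max 0 (K + 1) = K + 1 := by omega
    have m2 : max 0 (-K) = 0 := by omega
    have m3 : Icc (K + 1) (n : ℤ) = Ioc K (n : ℤ) := by
      ext x
      rw [mem_Icc, mem_Ioc]
      omega
    rw [L.SS_out hg g hω (fun y => (gr ω).Reachable (b, 0) ((m : ℤ), y))
      (fun x => (gr ω).Reachable (b, 0) (x, (n : ℤ))) (fun y => (gr ω).Reachable (b, 0) (0, y))
      (fun x => (gr ω).Reachable (b, 0) (x, 0)) (fun y => reach_iffL hg hω _)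
      (fun y => reach_iffL hg hω _) (fun y => reach_iffL hg hω _) (fun y => reach_iffL hg hω _),
      L.SS_arc hg g hω (fun j => Pass ω b K (2 * j + 2, 1)) (fun j => Pass ω b K (1, 2 * j + 1))
      (fun j => pass_iffL hg hω _) (fun j => pass_iffL hg hω _)]
    unfold cR cT cL cBR aB aL
    rw [m1, m2, m3]
    ring
  have hZ : 0 < ∑ ω ∈ wcfg m n b K, wt q m n ω := by
    apply Finset.sum_pos (fun ω _ => wt_pos hq m n ω)
    refine ⟨edges m n, ?_⟩
    rw [wcfg_nonneg m n b K hK, L.mem_cfg]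
    refine ⟨subset_rfl, ?_⟩
    intro e he
    obtain ⟨x, y, t⟩ := e
    unfold L.arc at he
    simp only [mem_union, mem_product, mem_Ico, mem_singleton] at he
    rcases he with ⟨⟨h1, h2⟩, h3, h4⟩ | ⟨h1, ⟨h2, h3⟩, h4⟩
    · subst h4
      rw [mem_edges]
      left
      refine ⟨rfl, ?_, ?_, ?_, ?_⟩ <;> omega
    · subst h4
      rw [mem_edges]
      right
      refine ⟨rfl, ?_, ?_, ?_, ?_⟩ <;> omega
  have hE : Ex q m n b K (fun ω => g 0 * cR m n b ω + g 1 * cT m n b ω + g 2 * cL n b K ω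
      + g (-1) * cBR m b ω + (- g 1) * aB b K ω + (- g 0) * aL b K ω) = g 0 + g 1 := by
    unfold Ex
    rw [hsum]
    field_simp
  have hlin : Ex q m n b K (fun ω => g 0 * cR m n b ω + g 1 * cT m n b ω + g 2 * cL n b K ω
      + g (-1) * cBR m b ω + (- g 1) * aB b K ω + (- g 0) * aL b K ω) =
      g 0 * Ex q m n b K (cR m n b) + g 1 * Ex q m n b K (cT m n b)
      + g 2 * Ex q m n b K (cL n b K) + g (-1) * Ex q m n b K (cBR m b)
      + (- g 1) * Ex q m n b K (aB b K) + (- g 0) * Ex q m n b K (aL b K) := by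
    rw [← Ex_smul, ← Ex_smul, ← Ex_smul, ← Ex_smul, ← Ex_smul, ← Ex_smul, ← Ex_add, ← Ex_add,
      ← Ex_add, ← Ex_add, ← Ex_add]
  have e7 : Ex q m n b K (cBL b K) = 0 := by
    unfold Ex
    have h0 : ∑ ω ∈ wcfg m n b K, wt q m n ω * cBL b K ω = 0 := by
      apply Finset.sum_eq_zero
      intro ω _
      unfold cBL
      have h1 : Ico 0 (-K) = (∅ : Finset ℤ) := by
        apply Finset.Ico_eq_empty
        omega
      rw [h1]
      simp
    rw [h0, zero_div]
  rw [hlin, h0, h1, e2, em] at hE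
  rw [e7]
  linarith

/-- the two sum rules -/
theorem sum_rules {q : ℝ} (hq : 0 < q) {m n : ℕ} {b K : ℤ} (hb : 0 ≤ b) (hbm : b ≤ m)
    (hK : -b ≤ K) (hKn : K ≤ n) :
    Ex q m n b K (cR m n b) + Real.sqrt q * Ex q m n b K (cBR m b)
      = Ex q m n b K (cL n b K) + Real.sqrt q * Ex q m n b K (cBL b K) + Ex q m n b K (aL b K)
        + (if K < 0 then 0 else 1) ∧
    Ex q m n b K (cT m n b) + Real.sqrt q * Ex q m n b K (cL n b K)
        + (q - 1) * Ex q m n b K (cBL b K)
      = Ex q m n b K (cBR m b) + Ex q m n b K (aB b K) + 1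
        + (if K < 0 then Real.sqrt q else 0) := by
  by_cases h : K < 0
  · have h1 := Ex_neg hq (n := n) h hK hbm 1 0
    have h2 := Ex_neg hq (n := n) h hK hbm 0 1
    rw [if_pos h, if_pos h]
    constructor
    · linarith
    · linarith
  · have h1 := Ex_nonneg hq (not_lt.1 h) hKn hb hbm 1 0
    have h2 := Ex_nonneg hq (not_lt.1 h) hKn hb hbm 0 1
    rw [if_neg h, if_neg h]
    constructor
    · linarith
    · linarith

end FKI
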