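import Mathlib

/-!
# JOB Hopf: the total turning of a simple lattice path (discrete Hopf Umlaufsatz)

`cl v` is the class (direction, in units of 45 degrees) of a nonzero vector `v ∈ ℤ²`: `0` = east, `1` = open first quadrant, `2` = north, …,
`7` = open fourth quadrant. For two nonzero vectors which differ by a unit vector the classes are equal or adjacent modulo `8`, and
`inc v w ∈ {-1, 0, 1}` is the difference (`inc_mem`, `inc_cl`; case analysis with `omega`: unfold `cl`, `split_ifs`).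

* `inc_square`: both sides are congruent to `cl d - cl a` modulo `8` and at most `2` in absolute value, so they are equal (`omega` from `inc_mem`, `inc_cl`).
* `hopf`: for `i < j` the vector `p j - p i` is nonzero. Put `R i t = ∑ j ∈ Ico (i+1) t, inc (p j - p i) (p (j+1) - p i)` and
  `C i t = inc (p t - p i) (p t - p (i+1))`, `turn i = inc (p (i+1) - p i) (p (i+2) - p i) + inc (p (i+2) - p i) (p (i+2) - p (i+1))`.
  Claim: `R i t + C i t = turn i + R (i+1) t` for `i + 2 ≤ t ≤ T`, by induction on `t`: `t = i+2` is clear, the step is `inc_square` for the four vectors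
  `p t - p i, p (t+1) - p i, p t - p (i+1), p (t+1) - p (i+1)`.
  Sum of the claim over `i < T - 1` with `t = T`: telescoping (`R (T-1) T = 0`).
-/

set_option autoImplicit false

namespace FKI

open Finset

/-- `v` and `w` differ by a unit vector -/
def Unit' (v w : ℤ × ℤ) : Prop := |w.1 - v.1| + |w.2 - v.2| = 1

/-- the class of a nonzero vector -/
def cl (v : ℤ × ℤ) : ℤ :=
  if v.2 = 0 then (if 0 < v.1 then 0 else 4)
  else if 0 < v.2 then (if 0 < v.1 then 1 else if v.1 = 0 then 2 else 3)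
  else (if v.1 < 0 then 5 else if v.1 = 0 then 6 else 7)

/-- the increment of the class -/
def inc (v w : ℤ × ℤ) : ℤ := (cl w - cl v + 1) % 8 - 1

theorem hopf_unit_cases {a b c d : ℤ} (h : |c - a| + |d - b| = 1) :
    (c = a + 1 ∧ d = b) ∨ (c = a - 1 ∧ d = b) ∨ (c = a ∧ d = b + 1) ∨ (c = a ∧ d = b - 1) := by
  rcases abs_cases (c - a) with ⟨h1, h2⟩ | ⟨h1, h2⟩ <;>
    rcases abs_cases (d - b) with ⟨h3, h4⟩ | ⟨h3, h4⟩ <;> omega

theorem inc_mem {v w : ℤ × ℤ} (hv : v ≠ 0) (hw : w ≠ 0) (h : Unit' v w) :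
    inc v w = -1 ∨ inc v w = 0 ∨ inc v w = 1 := by
  obtain ⟨a, b⟩ := v
  obtain ⟨c, d⟩ := w
  have hv' : ¬ (a = 0 ∧ b = 0) := fun h0 => hv (by rw [h0.1, h0.2]; rfl)
  have hw' : ¬ (c = 0 ∧ d = 0) := fun h0 => hw (by rw [h0.1, h0.2]; rfl)
  have h1 : |c - a| + |d - b| = 1 := h
  unfold inc cl
  simp only
  rcases hopf_unit_cases h1 with ⟨h2, h3⟩ | ⟨h2, h3⟩ | ⟨h2, h3⟩ | ⟨h2, h3⟩ <;>
    split_ifs <;> omega

theorem inc_cl (v w : ℤ × ℤ) : (inc v w - (cl w - cl v)) % 8 = 0 := by
  unfold inc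
  omega

theorem inc_square {a b c d : ℤ × ℤ} (ha : a ≠ 0) (hb : b ≠ 0) (hc : c ≠ 0) (hd : d ≠ 0)
    (hab : Unit' a b) (hac : Unit' a c) (hbd : Unit' b d) (hcd : Unit' c d) :
    inc a b + inc b d = inc a c + inc c d := by
  have h1 := inc_mem ha hb hab
  have h2 := inc_mem ha hc hac
  have h3 := inc_mem hb hd hbd
  have h4 := inc_mem hc hd hcd
  have k1 := inc_cl a b
  have k2 := inc_cl a c
  have k3 := inc_cl b d
  have k4 := inc_cl c d
  generalize inc a b = x1 at *
  generalize inc a c = x2 at *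
  generalize inc b d = x3 at *
  generalize inc c d = x4 at *
  have k5 : (x1 + x3 - x2 - x4) % 8 = 0 := by omega
  omega

/-- the turning at the point `p (i+1)` (in units of 45 degrees) -/
def turn (p : ℕ → ℤ × ℤ) (i : ℕ) : ℤ :=
  inc (p (i + 1) - p i) (p (i + 2) - p i) + inc (p (i + 2) - p i) (p (i + 2) - p (i + 1))

theorem hopf_unit_left {u v w : ℤ × ℤ} (h : Unit' u v) : Unit' (u - w) (v - w) := by
  unfold Unit' at h ⊢
  have e1 : (v - w).1 - (u - w).1 = v.1 - u.1 := by rw [Prod.fst_sub, Prod.fst_sub]; ring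
  have e2 : (v - w).2 - (u - w).2 = v.2 - u.2 := by rw [Prod.snd_sub, Prod.snd_sub]; ring
  rw [e1, e2]
  exact h

theorem hopf_unit_right {u v w : ℤ × ℤ} (h : Unit' u v) : Unit' (w - u) (w - v) := by
  unfold Unit' at h ⊢
  have e1 : (w - v).1 - (w - u).1 = -(v.1 - u.1) := by rw [Prod.fst_sub, Prod.fst_sub]; ring
  have e2 : (w - v).2 - (w - u).2 = -(v.2 - u.2) := by rw [Prod.snd_sub, Prod.snd_sub]; ring
  rw [e1, e2, abs_neg, abs_neg]
  exact h

theorem hopf_claim (p : ℕ → ℤ × ℤ) (T : ℕ)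
    (hinj : ∀ i j, i ≤ T → j ≤ T → p i = p j → i = j)
    (hstep : ∀ i < T, Unit' (p i) (p (i + 1))) (i : ℕ) :
    ∀ t, i + 2 ≤ t → t ≤ T →
      ∑ j ∈ Ico (i + 1) t, inc (p j - p i) (p (j + 1) - p i) + inc (p t - p i) (p t - p (i + 1)) =
        turn p i + ∑ j ∈ Ico (i + 1 + 1) t, inc (p j - p (i + 1)) (p (j + 1) - p (i + 1)) := by
  intro t ht
  induction t, ht using Nat.le_induction with
  | base =>
    intro _
    have e : Ico (i + 1) (i + 2) = {i + 1} := Nat.Ico_succ_singleton (i + 1)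
    rw [e, Finset.sum_singleton, show i + 1 + 1 = i + 2 from rfl, Finset.Ico_self, Finset.sum_empty, add_zero]
    rfl
  | succ t ht ih =>
    intro hT
    have ih' := ih (by omega)
    rw [Finset.sum_Ico_succ_top (by omega : i + 1 ≤ t), Finset.sum_Ico_succ_top (by omega : i + 1 + 1 ≤ t)]
    have hne : ∀ x y, x ≤ T → y ≤ T → x ≠ y → p x - p y ≠ 0 := by
      intro x y hx hy hxy h0
      exact hxy (hinj x y hx hy (sub_eq_zero.1 h0))
    have hsq := inc_square (hne t i (by omega) (by omega) (by omega))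
      (hne (t + 1) i (by omega) (by omega) (by omega))
      (hne t (i + 1) (by omega) (by omega) (by omega))
      (hne (t + 1) (i + 1) (by omega) (by omega) (by omega))
      (hopf_unit_left (hstep t (by omega))) (hopf_unit_right (hstep i (by omega)))
      (hopf_unit_right (hstep i (by omega))) (hopf_unit_left (hstep t (by omega)))
    linarith

theorem hopf (p : ℕ → ℤ × ℤ) (T : ℕ) (hT : 1 ≤ T)
    (hinj : ∀ i j, i ≤ T → j ≤ T → p i = p j → i = j)
    (hstep : ∀ i < T, Unit' (p i) (p (i + 1))) :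
    ∑ i ∈ range (T - 1), turn p i =
      ∑ j ∈ Ico 1 T, inc (p j - p 0) (p (j + 1) - p 0) +
        ∑ i ∈ range (T - 1), inc (p T - p i) (p T - p (i + 1)) := by
  have key : ∀ n, n ≤ T - 1 →
      ∑ i ∈ range n, turn p i + ∑ j ∈ Ico (n + 1) T, inc (p j - p n) (p (j + 1) - p n) =
        ∑ j ∈ Ico 1 T, inc (p j - p 0) (p (j + 1) - p 0) +
          ∑ i ∈ range n, inc (p T - p i) (p T - p (i + 1)) := by
    intro n
    induction n with
    | zero => intro _; simp
    | succ n ih =>
      intro hn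
      have ih' := ih (by omega)
      have hc := hopf_claim p T hinj hstep n T (by omega) le_rfl
      rw [Finset.sum_range_succ, Finset.sum_range_succ]
      linarith
  have h := key (T - 1) le_rfl
  have e : T - 1 + 1 = T := by omega
  rw [e, Finset.Ico_self, Finset.sum_empty, add_zero] at h
  exact h

end FKI
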