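import Pool.Agent.Lib.MP_216314_pr.Hopf

/-!
# JOB Lift: the class has a continuous lift if one class is avoided

* `inc_lift`: case analysis (`unfold cl lift..`, `split_ifs`, `omega`), or: `lift w - lift v` is congruent to `inc v w` modulo `8` and at most `6` in
  absolute value. The four lifts avoid the classes `6` (south), `4` (west), `2` (north), `0` (east).
* `sum_row`, `sum_col`: telescoping (`Finset.sum_Ico_consecutive`-style, or induction on `T`; `Finset.sum_range_succ`).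
-/

set_option autoImplicit false

namespace FKI

open Finset

/-- lift avoiding south -/
def lS (v : ℤ × ℤ) : ℤ := if cl v = 7 then -1 else cl v

/-- lift avoiding west -/
def lW (v : ℤ × ℤ) : ℤ := if 5 ≤ cl v then cl v - 8 else cl v

/-- lift avoiding north -/
def lN (v : ℤ × ℤ) : ℤ := if cl v ≤ 1 then cl v + 8 else cl v

/-- lift avoiding east -/
def lE (v : ℤ × ℤ) : ℤ := cl v

/-- `l` is a lift of the class on the vectors satisfying `A` -/
def IsLift (A : ℤ × ℤ → Prop) (l : ℤ × ℤ → ℤ) : Prop :=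
  ∀ v w, v ≠ 0 → w ≠ 0 → Unit' v w → A v → A w → inc v w = l w - l v

theorem lift_ne {v : ℤ × ℤ} (h : v ≠ 0) : ¬ (v.1 = 0 ∧ v.2 = 0) := fun h' =>
  h (Prod.ext h'.1 h'.2)

theorem lift_unit {v w : ℤ × ℤ} (h : Unit' v w) :
    (w.1 = v.1 + 1 ∧ w.2 = v.2) ∨ (w.1 = v.1 - 1 ∧ w.2 = v.2) ∨
    (w.1 = v.1 ∧ w.2 = v.2 + 1) ∨ (w.1 = v.1 ∧ w.2 = v.2 - 1) := by
  unfold Unit' at h
  rcases abs_cases (w.1 - v.1) with ⟨h1, h2⟩ | ⟨h1, h2⟩ <;>
    rcases abs_cases (w.2 - v.2) with ⟨h3, h4⟩ | ⟨h3, h4⟩ <;> omega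

theorem lift_cases (v : ℤ × ℤ) :
    (cl v = 0 ∧ v.2 = 0 ∧ 0 < v.1) ∨ (cl v = 4 ∧ v.2 = 0 ∧ v.1 ≤ 0) ∨
    (cl v = 1 ∧ 0 < v.2 ∧ 0 < v.1) ∨ (cl v = 2 ∧ 0 < v.2 ∧ v.1 = 0) ∨
    (cl v = 3 ∧ 0 < v.2 ∧ v.1 < 0) ∨ (cl v = 5 ∧ v.2 < 0 ∧ v.1 < 0) ∨
    (cl v = 6 ∧ v.2 < 0 ∧ v.1 = 0) ∨ (cl v = 7 ∧ v.2 < 0 ∧ 0 < v.1) := by
  unfold cl
  split_ifs <;> omega

theorem lift_tel (g : ℕ → ℤ) (T : ℕ) (hT : 1 ≤ T) :
    ∑ j ∈ Ico 1 T, (g (j + 1) - g j) = g T - g 1 := by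
  induction T, hT using Nat.le_induction with
  | base => simp
  | succ n hn ih =>
    rw [Finset.sum_Ico_succ_top hn, ih]
    ring

theorem lift_S : IsLift (fun v => ¬ (v.1 = 0 ∧ v.2 < 0)) lS := by
  intro v w hv hw hu hA hB
  have hv' := lift_ne hv
  have hw' := lift_ne hw
  have h1 := lift_unit hu
  unfold inc lS
  rcases lift_cases v with h2 | h2 | h2 | h2 | h2 | h2 | h2 | h2 <;>
    rcases lift_cases w with h3 | h3 | h3 | h3 | h3 | h3 | h3 | h3 <;>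
    obtain ⟨h2a, h2b, h2c⟩ := h2 <;> obtain ⟨h3a, h3b, h3c⟩ := h3 <;> rw [h2a, h3a] <;>
    first
    | (exfalso; omega)
    | norm_num

theorem lift_W : IsLift (fun v => ¬ (v.2 = 0 ∧ v.1 < 0)) lW := by
  intro v w hv hw hu hA hB
  have hv' := lift_ne hv
  have hw' := lift_ne hw
  have h1 := lift_unit hu
  unfold inc lW
  rcases lift_cases v with h2 | h2 | h2 | h2 | h2 | h2 | h2 | h2 <;>
    rcases lift_cases w with h3 | h3 | h3 | h3 | h3 | h3 | h3 | h3 <;>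
    obtain ⟨h2a, h2b, h2c⟩ := h2 <;> obtain ⟨h3a, h3b, h3c⟩ := h3 <;> rw [h2a, h3a] <;>
    first
    | (exfalso; omega)
    | norm_num

theorem lift_N : IsLift (fun v => ¬ (v.1 = 0 ∧ 0 < v.2)) lN := by
  intro v w hv hw hu hA hB
  have hv' := lift_ne hv
  have hw' := lift_ne hw
  have h1 := lift_unit hu
  unfold inc lN
  rcases lift_cases v with h2 | h2 | h2 | h2 | h2 | h2 | h2 | h2 <;>
    rcases lift_cases w with h3 | h3 | h3 | h3 | h3 | h3 | h3 | h3 <;>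
    obtain ⟨h2a, h2b, h2c⟩ := h2 <;> obtain ⟨h3a, h3b, h3c⟩ := h3 <;> rw [h2a, h3a] <;>
    first
    | (exfalso; omega)
    | norm_num

theorem lift_E : IsLift (fun v => ¬ (v.2 = 0 ∧ 0 < v.1)) lE := by
  intro v w hv hw hu hA hB
  have hv' := lift_ne hv
  have hw' := lift_ne hw
  have h1 := lift_unit hu
  unfold inc lE
  rcases lift_cases v with h2 | h2 | h2 | h2 | h2 | h2 | h2 | h2 <;>
    rcases lift_cases w with h3 | h3 | h3 | h3 | h3 | h3 | h3 | h3 <;>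
    obtain ⟨h2a, h2b, h2c⟩ := h2 <;> obtain ⟨h3a, h3b, h3c⟩ := h3 <;> rw [h2a, h3a] <;>
    first
    | (exfalso; omega)
    | norm_num

theorem sum_row {A : ℤ × ℤ → Prop} {l : ℤ × ℤ → ℤ} (hl : IsLift A l) (p : ℕ → ℤ × ℤ) (T : ℕ)
    (hT : 1 ≤ T) (hinj : ∀ i j, i ≤ T → j ≤ T → p i = p j → i = j)
    (hstep : ∀ i < T, Unit' (p i) (p (i + 1))) (hA : ∀ j, 1 ≤ j → j ≤ T → A (p j - p 0)) :
    ∑ j ∈ Ico 1 T, inc (p j - p 0) (p (j + 1) - p 0) = l (p T - p 0) - l (p 1 - p 0) := by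
  rw [← lift_tel (fun j => l (p j - p 0)) T hT]
  apply Finset.sum_congr rfl
  intro j hj
  rw [Finset.mem_Ico] at hj
  apply hl
  · intro h
    have := hinj j 0 (by omega) (by omega) (sub_eq_zero.1 h)
    omega
  · intro h
    have := hinj (j + 1) 0 (by omega) (by omega) (sub_eq_zero.1 h)
    omega
  · have h := hstep j hj.2
    unfold Unit' at h ⊢
    rw [Prod.fst_sub, Prod.fst_sub, Prod.snd_sub, Prod.snd_sub, sub_sub_sub_cancel_right,
      sub_sub_sub_cancel_right]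
    exact h
  · exact hA j hj.1 (by omega)
  · exact hA (j + 1) (by omega) (by omega)

theorem sum_col {A : ℤ × ℤ → Prop} {l : ℤ × ℤ → ℤ} (hl : IsLift A l) (p : ℕ → ℤ × ℤ) (T : ℕ)
    (hT : 1 ≤ T) (hinj : ∀ i j, i ≤ T → j ≤ T → p i = p j → i = j)
    (hstep : ∀ i < T, Unit' (p i) (p (i + 1))) (hA : ∀ i < T, A (p T - p i)) :
    ∑ i ∈ range (T - 1), inc (p T - p i) (p T - p (i + 1)) =
      l (p T - p (T - 1)) - l (p T - p 0) := by
  rw [← Finset.sum_range_sub (fun i => l (p T - p i)) (T - 1)]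
  apply Finset.sum_congr rfl
  intro i hi
  rw [Finset.mem_range] at hi
  apply hl
  · intro h
    have := hinj T i le_rfl (by omega) (sub_eq_zero.1 h)
    omega
  · intro h
    have := hinj T (i + 1) le_rfl (by omega) (sub_eq_zero.1 h)
    omega
  · have h := hstep i (by omega)
    unfold Unit' at h ⊢
    rw [Prod.fst_sub, Prod.fst_sub, Prod.snd_sub, Prod.snd_sub, sub_sub_sub_cancel_left,
      sub_sub_sub_cancel_left, abs_sub_comm, abs_sub_comm (p i).2]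
    exact h
  · exact hA i (by omega)
  · exact hA (i + 1) (by omega)

end FKI
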