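import Pool.Agent.Lib.MP_216314_pr.Wind

/-!
# JOB WindB: the winding of the interface at the boundary is deterministic

Every case by `Wd_formula`: `p t` has a fixed type, so the last step is one of two vectors, determined by `dl_(t-1)` (`last_step`).
  (`pt ω b t = next ω (pt ω b (t-1))`: `Function.iterate_succ_apply'`.) All differences of corners are controlled by `orbit_mem_cor`
  (`0 ≤ x ≤ 2m+1`, `0 ≤ y ≤ 2n+1`) and injectivity (`hits`, `hits_inj`: the differences are not zero).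
* right: lift `lW` (all differences `p t - p i` have first coordinate `≥ 0`), value `1 - dl`, `lS v = lW v` for `v = p t - p 0` (`v.1 ≥ 0`, `v.2 ≥ 0`): `2 Wd = 0`;
* top: lift `lS`, value `3 - dl`: `2 Wd = 2`;
* left: lift `lE`, value `5 - dl`, `v.1 ≤ 0 ≤ v.2`: `lS v = lE v`: `2 Wd = 4`;
* bottom left (and the stop): lift `lN`, value `7 - dl`, `v = (negative, 0)`: `lS v = lN v = 4`: `2 Wd = 6`;
* bottom right: lift `lN`, value `7 - dl`, `v = (positive, 0)`: `lS v = 0`, `lN v = 8`: `2 Wd = -2`;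
* arc: `p t = (2j+2, 1)`, lift `lN` (a difference `(0, positive)` would be a corner `(2j+2, 0)` below the arc, `DD_under`), value `5 - dl`,
  `v = (negative, 1)`: `lS v = lN v = 3`: `2 Wd = 4`.
  `t = 0` (only possible for the right side, `b = m`) is trivial.
-/

set_option autoImplicit false

noncomputable section

namespace FKI

open Finset

theorem windb_core {m n : ℕ} {a b : ℤ} (hg : Geo m a b) {ω : Finset Edge}
    (hω : ω ∈ cfg m n a b) {t : ℕ} (ht : 1 ≤ t) (htT : t ≤ TT ω a b) {A : V → Prop} {l : V → ℤ}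
    (hl : IsLift A l) (hA : ∀ i < t, A (pt ω b t - pt ω b i)) (c e : ℤ)
    (hc : l (pt ω b t - pt ω b (t - 1)) = c - dl ω (pt ω b (t - 1)))
    (hv : lS (pt ω b t - pt ω b 0) - l (pt ω b t - pt ω b 0) = e) :
    2 * Wd ω b t = c - 1 + e := by
  have h := Wd_formula hg hω ht htT hl hA
  linarith

theorem windb_prev (ω : Finset Edge) (b : ℤ) {t : ℕ} (ht : 1 ≤ t) :
    next ω (pt ω b (t - 1)) = pt ω b t := by
  obtain ⟨s, rfl⟩ : ∃ s, t = s + 1 := ⟨t - 1, by omega⟩
  rw [show s + 1 - 1 = s by omega]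
  simp [pt, Function.iterate_succ_apply']

theorem windb_zero (ω : Finset Edge) (b : ℤ) : pt ω b 0 = (2 * b + 1, 0) := by
  simp [pt, rr]

theorem windb_bd {m n : ℕ} {a b : ℤ} (hg : Geo m a b) {ω : Finset Edge}
    (hω : ω ∈ cfg m n a b) (i : ℕ) : 0 ≤ (pt ω b i).1 ∧ (pt ω b i).1 ≤ 2 * (m : ℤ) + 1 ∧
      0 ≤ (pt ω b i).2 ∧ (pt ω b i).2 ≤ 2 * (n : ℤ) + 1 := by
  have h := orbit_mem_cor hg hω i
  rw [cor, mem_product, mem_Icc, mem_Icc] at h
  exact ⟨h.1.1, h.1.2, h.2.1, h.2.2⟩

/-- the corners below the arc and to the left of it, or the stop -/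
theorem windb_bot {m n : ℕ} {a b : ℤ} (hg : Geo m a b) {ω : Finset Edge}
    (hω : ω ∈ cfg m n a b) {t : ℕ} (ht : t ≤ TT ω a b) {x : ℤ} (hx : x ≤ a)
    (hp : pt ω b t = (2 * x, 0)) : Wd ω b t = 3 := by
  have hab := hg.hab
  have ht1 : 1 ≤ t := by
    rcases Nat.eq_zero_or_pos t with h | h
    · exfalso
      rw [h, windb_zero, Prod.mk.injEq] at hp
      omega
    · exact h
  have key := windb_core hg hω ht1 ht lift_N (c := 7) (e := 0) (by
    intro i _ h
    have h1 := windb_bd hg hω i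
    rw [hp, Prod.fst_sub, Prod.snd_sub] at h
    simp only at h
    omega) (by
    have h1 := (last_step ω (pt ω b (t - 1)) x 0).2.2.2
      (by rw [windb_prev ω b ht1, hp]; simp)
    rw [windb_prev ω b ht1] at h1
    rw [h1]
    rcases wind_dl ω (pt ω b (t - 1)) with h5 | h5 <;> rw [h5] <;> decide) (by
    rw [hp, windb_zero, Prod.mk_sub_mk]
    have h1 : cl (2 * x - (2 * b + 1), 0 - 0) = 4 := by
      unfold cl
      rw [if_pos (by simp), if_neg (by simp only; omega)]
    unfold lS lN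
    rw [h1]
    norm_num)
  omega

theorem Wd_right {m n : ℕ} {a b : ℤ} (hg : Geo m a b) {ω : Finset Edge}
    (hω : ω ∈ cfg m n a b) {t : ℕ} (ht : t < TT ω a b) {y : ℤ}
    (hp : pt ω b t = (2 * (m : ℤ) + 1, 2 * y)) : Wd ω b t = 0 := by
  have hab := hg.hab
  have hb := hg.hb
  rcases Nat.eq_zero_or_pos t with h0 | ht1
  · rw [h0]
    simp [Wd]
  have hne : pt ω b t - pt ω b 0 ≠ 0 := by
    intro h
    have h1 := hits_inj (next_inj ω) (hits hg hω) ht.le (Nat.zero_le _) (sub_eq_zero.1 h)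
    omega
  have key := windb_core hg hω ht1 ht.le lift_W (c := 1) (e := 0) (by
    intro i _ h
    have h1 := windb_bd hg hω i
    rw [hp, Prod.fst_sub, Prod.snd_sub] at h
    simp only at h
    omega) (by
    have h1 := (last_step ω (pt ω b (t - 1)) m y).1 (by rw [windb_prev ω b ht1, hp])
    rw [windb_prev ω b ht1] at h1
    rw [h1]
    rcases wind_dl ω (pt ω b (t - 1)) with h5 | h5 <;> rw [h5] <;> decide) (by
    have h2 := (windb_bd hg hω t).2.2.1
    rw [hp] at h2
    simp only at h2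
    rw [hp, windb_zero, Prod.mk_sub_mk] at hne ⊢
    have h1 : cl (2 * (m : ℤ) + 1 - (2 * b + 1), 2 * y - 0) = 0 ∨
        cl (2 * (m : ℤ) + 1 - (2 * b + 1), 2 * y - 0) = 1 ∨
        cl (2 * (m : ℤ) + 1 - (2 * b + 1), 2 * y - 0) = 2 := by
      have hne' : ¬ ((2 * (m : ℤ) + 1 - (2 * b + 1)) = 0 ∧ 2 * y - 0 = 0) := by
        rintro ⟨h3, h4⟩
        exact hne (by rw [h3, h4]; rfl)
      unfold cl
      simp only
      split_ifs <;> first | (exfalso; omega) | simp
    unfold lS lW
    rcases h1 with h1 | h1 | h1 <;> rw [h1] <;> norm_num)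
  omega

theorem Wd_top {m n : ℕ} {a b : ℤ} (hg : Geo m a b) {ω : Finset Edge}
    (hω : ω ∈ cfg m n a b) {t : ℕ} (ht : t < TT ω a b) {x : ℤ}
    (hp : pt ω b t = (2 * x + 1, 2 * (n : ℤ) + 1)) : Wd ω b t = 1 := by
  have ht1 : 1 ≤ t := by
    rcases Nat.eq_zero_or_pos t with h | h
    · exfalso
      rw [h, windb_zero, Prod.mk.injEq] at hp
      omega
    · exact h
  have key := windb_core hg hω ht1 ht.le lift_S (c := 3) (e := 0) (by
    intro i _ h
    have h1 := windb_bd hg hω i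
    rw [hp, Prod.fst_sub, Prod.snd_sub] at h
    simp only at h
    omega) (by
    have h1 := (last_step ω (pt ω b (t - 1)) x n).2.1 (by rw [windb_prev ω b ht1, hp])
    rw [windb_prev ω b ht1] at h1
    rw [h1]
    rcases wind_dl ω (pt ω b (t - 1)) with h5 | h5 <;> rw [h5] <;> decide) (by
    rw [sub_self])
  omega

theorem Wd_left {m n : ℕ} {a b : ℤ} (hg : Geo m a b) {ω : Finset Edge}
    (hω : ω ∈ cfg m n a b) {t : ℕ} (ht : t < TT ω a b) {y : ℤ}
    (hp : pt ω b t = (0, 2 * y + 1)) : Wd ω b t = 2 := by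
  have ha := hg.ha
  have hab := hg.hab
  have ht1 : 1 ≤ t := by
    rcases Nat.eq_zero_or_pos t with h | h
    · exfalso
      rw [h, windb_zero, Prod.mk.injEq] at hp
      omega
    · exact h
  have key := windb_core hg hω ht1 ht.le lift_E (c := 5) (e := 0) (by
    intro i _ h
    have h1 := windb_bd hg hω i
    rw [hp, Prod.fst_sub, Prod.snd_sub] at h
    simp only at h
    omega) (by
    have h1 := (last_step ω (pt ω b (t - 1)) 0 y).2.2.1 (by rw [windb_prev ω b ht1, hp]; simp)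
    rw [windb_prev ω b ht1] at h1
    rw [h1]
    rcases wind_dl ω (pt ω b (t - 1)) with h5 | h5 <;> rw [h5] <;> decide) (by
    have h2 := (windb_bd hg hω t).2.2.1
    rw [hp] at h2
    simp only at h2
    rw [hp, windb_zero, Prod.mk_sub_mk]
    have h1 : cl (0 - (2 * b + 1), 2 * y + 1 - 0) = 3 := by
      unfold cl
      simp only
      split_ifs <;> first | (exfalso; omega) | rfl
    unfold lS lE
    rw [h1]
    norm_num)
  omega

theorem Wd_bl {m n : ℕ} {a b : ℤ} (hg : Geo m a b) {ω : Finset Edge}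
    (hω : ω ∈ cfg m n a b) {t : ℕ} (ht : t < TT ω a b) {x : ℤ} (hx : x < a)
    (hp : pt ω b t = (2 * x, 0)) : Wd ω b t = 3 := by
  exact windb_bot hg hω ht.le hx.le hp

theorem Wd_stop {m n : ℕ} {a b : ℤ} (hg : Geo m a b) {ω : Finset Edge}
    (hω : ω ∈ cfg m n a b) : Wd ω b (TT ω a b) = 3 := by
  exact windb_bot hg hω le_rfl le_rfl (hits hg hω).1

theorem Wd_br {m n : ℕ} {a b : ℤ} (hg : Geo m a b) {ω : Finset Edge}
    (hω : ω ∈ cfg m n a b) {t : ℕ} (ht : t < TT ω a b) {x : ℤ} (hx : b < x)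
    (hp : pt ω b t = (2 * x, 0)) : Wd ω b t = -1 := by
  have ht1 : 1 ≤ t := by
    rcases Nat.eq_zero_or_pos t with h | h
    · exfalso
      rw [h, windb_zero, Prod.mk.injEq] at hp
      omega
    · exact h
  have key := windb_core hg hω ht1 ht.le lift_N (c := 7) (e := -8) (by
    intro i _ h
    have h1 := windb_bd hg hω i
    rw [hp, Prod.fst_sub, Prod.snd_sub] at h
    simp only at h
    omega) (by
    have h1 := (last_step ω (pt ω b (t - 1)) x 0).2.2.2
      (by rw [windb_prev ω b ht1, hp]; simp)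
    rw [windb_prev ω b ht1] at h1
    rw [h1]
    rcases wind_dl ω (pt ω b (t - 1)) with h5 | h5 <;> rw [h5] <;> decide) (by
    rw [hp, windb_zero, Prod.mk_sub_mk]
    have h1 : cl (2 * x - (2 * b + 1), 0 - 0) = 0 := by
      unfold cl
      rw [if_pos (by simp), if_pos (by simp only; omega)]
    unfold lS lN
    rw [h1]
    norm_num)
  omega

theorem Wd_arc {m n : ℕ} {a b : ℤ} (hg : Geo m a b) {ω : Finset Edge}
    (hω : ω ∈ cfg m n a b) {t : ℕ} (ht : t < TT ω a b) {j : ℤ} (hj : a ≤ j) (hj' : j < b)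
    (hp : pt ω b t = (2 * j + 2, 1)) : Wd ω b t = 2 := by
  have ht1 : 1 ≤ t := by
    rcases Nat.eq_zero_or_pos t with h | h
    · exfalso
      rw [h, windb_zero, Prod.mk.injEq] at hp
      omega
    · exact h
  have key := windb_core hg hω ht1 ht.le lift_N (c := 5) (e := 0) (by
    intro i hi h
    have h1 := windb_bd hg hω i
    have h2 : pt ω b i ∈ DD ω a b := mem_run.2 ⟨i, hi.trans ht, rfl⟩
    have h3 := DD_under hg hω h2
    rw [hp, Prod.fst_sub, Prod.snd_sub] at h
    simp only at h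
    apply h3
    omega) (by
    have h1 := (last_step ω (pt ω b (t - 1)) (j + 1) 0).2.2.1
      (by rw [windb_prev ω b ht1, hp, Prod.mk.injEq]; constructor <;> ring)
    rw [windb_prev ω b ht1] at h1
    rw [h1]
    rcases wind_dl ω (pt ω b (t - 1)) with h5 | h5 <;> rw [h5] <;> decide) (by
    rw [hp, windb_zero, Prod.mk_sub_mk]
    have h1 : cl (2 * j + 2 - (2 * b + 1), 1 - 0) = 3 := by
      unfold cl
      simp only
      split_ifs <;> first | (exfalso; omega) | rfl
    unfold lS lN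
    rw [h1]
    norm_num)
  omega

end FKI
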