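import Pool.Agent.Lib.MP_216314_pr.Spl
import Pool.Agent.Lib.MP_216314_pr.WindB
import Pool.Agent.Lib.MP_216314_pr.Sep
import Pool.Agent.Lib.MP_216314_pr.CC

/-!
# JOB Loc: the local relation

`ct g ω p w`: contribution of the passage at the corner `p` with winding `w`: `g w` (left turn, closed edge), `-g (w-1)` (right turn, open edge).
`SS g ω P w D`: sum of the contributions of the corners of `D` satisfying `P`, the winding being `w` at the first corner.

* `SS_append`: induction on `D`.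
* `SS_zero`: no corner of `D` satisfies `P`.
* `dl_insert`, `SS_insert`: for corners `z ≠ c1 e, c2 e` nothing changes when `e` is added (`edgeOf_eq_iff`).
* `loc_closed`: `D = A ++ x :: (M ++ y :: B)` (in `ω`, `e` closed: `dl x = dl y = 1`), `D' = A ++ x :: B` (in `insert e ω`, `dl x = -1`), same total winding.
  With `w` = winding at `x`, `σ` = sum of `dl` over `M`: the equality of the totals gives `1 + σ + 1 = -1`, `σ = -3`. So
  `SS D = g w + g (w + 1 - 3) = g w + g (w - 2)` and `SS D' = - g (w - 1)`, and `g w + g (w-2) = s g (w-1)` by `hg` (at `w - 1`).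
* `loc_open`: `D' = A ++ x :: (M ++ y :: B)` in `insert e ω` (`dl x = dl y = -1`), `D = A ++ x :: B` in `ω` (`dl x = 1`): `σ = 3`,
  `SS D' = - g (w-1) - g (w - 1 + 3 - 1) = - g (w-1) - g (w+1)`, `SS D = g w`, `g (w+1) + g (w-1) = s g w`.
* `loc_edge`: `splice` for `f = next ω`, `f' = next (insert e ω)` (`next_inj`, `next_insert_c1`, …), `Hits` from `hits` for both configurations, totals from
  `Wd_stop` (`Wd_eq_sum`). In the first alternative no corner of the lists meets `e` and both sums are zero.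
  Second: `c1 e, c2 e ∈ DD ω`: `reach_of_both`, `wts_reach`: the sum is `wts ω * (SS D + s * SS D') = 0`. Third: `not_reach`, `wts_not_reach`:
  `wts ω = s * wts (insert e ω)`: the sum is `wts (insert e ω) * (s * SS D + SS D') = 0`.
-/

set_option autoImplicit false

noncomputable section

namespace FKI

open Finset

/-- contribution of a passage -/
def ct (g : ℤ → ℝ) (ω : Finset Edge) (p : V) (w : ℤ) : ℝ :=
  if edgeOf p ∈ ω then - g (w - 1) else g w

open Classical in
/-- sum of the contributions of the corners satisfying `P`, with initial winding `w` -/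
def SS (g : ℤ → ℝ) (ω : Finset Edge) (P : V → Prop) : ℤ → List V → ℝ
  | _, [] => 0
  | w, p :: D => (if P p then ct g ω p w else 0) + SS g ω P (w + dl ω p) D

theorem SS_append (g : ℤ → ℝ) (ω : Finset Edge) (P : V → Prop) (w : ℤ) (D D' : List V) :
    SS g ω P w (D ++ D') = SS g ω P w D + SS g ω P (w + (D.map (dl ω)).sum) D' := by
  induction D generalizing w with
  | nil => simp [SS]
  | cons p D ih =>
    rw [List.cons_append, SS, SS, ih, List.map_cons, List.sum_cons, add_assoc, add_assoc]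

theorem SS_zero (g : ℤ → ℝ) (ω : Finset Edge) (P : V → Prop) (w : ℤ) (D : List V)
    (h : ∀ p ∈ D, ¬ P p) : SS g ω P w D = 0 := by
  induction D generalizing w with
  | nil => rfl
  | cons p D ih =>
    rw [SS, if_neg (h p List.mem_cons_self), ih _ (fun q hq => h q (List.mem_cons_of_mem _ hq)), zero_add]

theorem dl_insert {ω : Finset Edge} {e : Edge} {z : V} (h : z ≠ c1 e ∧ z ≠ c2 e) :
    dl (insert e ω) z = dl ω z := by
  have h1 : edgeOf z ≠ e := by
    intro h2
    rcases (edgeOf_eq_iff z e).1 h2 with h3 | h3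
    · exact h.1 h3
    · exact h.2 h3
  unfold dl
  by_cases h2 : edgeOf z ∈ ω
  · rw [if_pos h2, if_pos (Finset.mem_insert_of_mem h2)]
  · rw [if_neg h2, if_neg]
    intro h3
    rcases Finset.mem_insert.1 h3 with h4 | h4
    · exact h1 h4
    · exact h2 h4

/-- corners different from `c1 e`, `c2 e` do not meet `e` -/
theorem loc_not {e : Edge} {L : List V} (h : ∀ z ∈ L, z ≠ c1 e ∧ z ≠ c2 e) :
    ∀ p ∈ L, ¬ (fun p => edgeOf p = e) p := by
  intro p hp hpe
  rcases (edgeOf_eq_iff p e).1 hpe with h1 | h1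
  · exact (h p hp).1 h1
  · exact (h p hp).2 h1

theorem loc_sum {ω : Finset Edge} {e : Edge} {L : List V} (h : ∀ z ∈ L, z ≠ c1 e ∧ z ≠ c2 e) :
    (L.map (dl (insert e ω))).sum = (L.map (dl ω)).sum := by
  rw [List.map_congr_left fun z hz => dl_insert (h z hz)]

theorem loc_mem {α : Type*} {c c' : α} {D D' : List α} (h : Longer c c' D D') : c ∈ D ∧ c' ∈ D := by
  obtain ⟨A, M, B, x, y, hxy, rfl, -, -, -, -⟩ := h
  rcases hxy with ⟨rfl, rfl⟩ | ⟨rfl, rfl⟩
  · exact ⟨by simp, by simp⟩
  · exact ⟨by simp, by simp⟩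

theorem loc_closed {g : ℤ → ℝ} {s : ℝ} (hg : ∀ w, g (w + 1) + g (w - 1) = s * g w)
    {ω : Finset Edge} {e : Edge} (heω : e ∉ ω) {D D' : List V}
    (hL : Longer (c1 e) (c2 e) D D')
    (ht : (D.map (dl ω)).sum = (D'.map (dl (insert e ω))).sum) :
    SS g ω (fun p => edgeOf p = e) 0 D + s * SS g (insert e ω) (fun p => edgeOf p = e) 0 D' = 0 := by
  obtain ⟨A, M, B, x, y, hxy, rfl, rfl, hA, hM, hB⟩ := hL
  have hex : edgeOf x = e := by
    rcases hxy with ⟨rfl, -⟩ | ⟨rfl, -⟩
    · exact edgeOf_c1 e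
    · exact edgeOf_c2 e
  have hey : edgeOf y = e := by
    rcases hxy with ⟨-, rfl⟩ | ⟨-, rfl⟩
    · exact edgeOf_c2 e
    · exact edgeOf_c1 e
  have zA : ∀ (ω' : Finset Edge) (w : ℤ), SS g ω' (fun p => edgeOf p = e) w A = 0 :=
    fun ω' w => SS_zero _ _ _ _ _ (loc_not hA)
  have zM : ∀ (ω' : Finset Edge) (w : ℤ), SS g ω' (fun p => edgeOf p = e) w M = 0 :=
    fun ω' w => SS_zero _ _ _ _ _ (loc_not hM)
  have zB : ∀ (ω' : Finset Edge) (w : ℤ), SS g ω' (fun p => edgeOf p = e) w B = 0 :=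
    fun ω' w => SS_zero _ _ _ _ _ (loc_not hB)
  have dx : dl ω x = 1 := by unfold dl; rw [hex, if_neg heω]
  have dy : dl ω y = 1 := by unfold dl; rw [hey, if_neg heω]
  have dx' : dl (insert e ω) x = -1 := by unfold dl; rw [hex, if_pos (Finset.mem_insert_self _ _)]
  have cx : ∀ w, ct g ω x w = g w := fun w => by unfold ct; rw [hex, if_neg heω]
  have cy : ∀ w, ct g ω y w = g w := fun w => by unfold ct; rw [hey, if_neg heω]
  have cx' : ∀ w, ct g (insert e ω) x w = - g (w - 1) := fun w => by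
    unfold ct; rw [hex, if_pos (Finset.mem_insert_self _ _)]
  rw [List.map_append, List.sum_append, List.map_cons, List.sum_cons, List.map_append, List.sum_append,
    List.map_cons, List.sum_cons, List.map_append, List.sum_append, List.map_cons, List.sum_cons,
    loc_sum hA, loc_sum hB, dx, dy, dx'] at ht
  rw [SS_append, SS_append, SS, SS, SS_append, SS, zA, zA, zM, zB, zB, if_pos hex, if_pos hey, if_pos hex, cx, cy,
    cx', dx, loc_sum hA]
  have h1 : (M.map (dl ω)).sum = -3 := by linarith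
  have h2 := hg (0 + (A.map (dl ω)).sum - 1)
  rw [h1]
  have e1 : 0 + (A.map (dl ω)).sum + 1 + -3 = 0 + (A.map (dl ω)).sum - 1 - 1 := by ring
  have e2 : 0 + (A.map (dl ω)).sum - 1 + 1 = 0 + (A.map (dl ω)).sum := by ring
  rw [e2] at h2
  rw [e1]
  linarith

theorem loc_open {g : ℤ → ℝ} {s : ℝ} (hg : ∀ w, g (w + 1) + g (w - 1) = s * g w)
    {ω : Finset Edge} {e : Edge} (heω : e ∉ ω) {D D' : List V}
    (hL : Longer (c1 e) (c2 e) D' D)
    (ht : (D.map (dl ω)).sum = (D'.map (dl (insert e ω))).sum) :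
    s * SS g ω (fun p => edgeOf p = e) 0 D + SS g (insert e ω) (fun p => edgeOf p = e) 0 D' = 0 := by
  obtain ⟨A, M, B, x, y, hxy, rfl, rfl, hA, hM, hB⟩ := hL
  have hex : edgeOf x = e := by
    rcases hxy with ⟨rfl, -⟩ | ⟨rfl, -⟩
    · exact edgeOf_c1 e
    · exact edgeOf_c2 e
  have hey : edgeOf y = e := by
    rcases hxy with ⟨-, rfl⟩ | ⟨-, rfl⟩
    · exact edgeOf_c2 e
    · exact edgeOf_c1 e
  have zA : ∀ (ω' : Finset Edge) (w : ℤ), SS g ω' (fun p => edgeOf p = e) w A = 0 :=
    fun ω' w => SS_zero _ _ _ _ _ (loc_not hA)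
  have zM : ∀ (ω' : Finset Edge) (w : ℤ), SS g ω' (fun p => edgeOf p = e) w M = 0 :=
    fun ω' w => SS_zero _ _ _ _ _ (loc_not hM)
  have zB : ∀ (ω' : Finset Edge) (w : ℤ), SS g ω' (fun p => edgeOf p = e) w B = 0 :=
    fun ω' w => SS_zero _ _ _ _ _ (loc_not hB)
  have dx : dl ω x = 1 := by unfold dl; rw [hex, if_neg heω]
  have dx' : dl (insert e ω) x = -1 := by unfold dl; rw [hex, if_pos (Finset.mem_insert_self _ _)]
  have dy' : dl (insert e ω) y = -1 := by unfold dl; rw [hey, if_pos (Finset.mem_insert_self _ _)]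
  have cx : ∀ w, ct g ω x w = g w := fun w => by unfold ct; rw [hex, if_neg heω]
  have cx' : ∀ w, ct g (insert e ω) x w = - g (w - 1) := fun w => by
    unfold ct; rw [hex, if_pos (Finset.mem_insert_self _ _)]
  have cy' : ∀ w, ct g (insert e ω) y w = - g (w - 1) := fun w => by
    unfold ct; rw [hey, if_pos (Finset.mem_insert_self _ _)]
  rw [List.map_append, List.sum_append, List.map_cons, List.sum_cons, List.map_append, List.sum_append,
    List.map_cons, List.sum_cons, List.map_append, List.sum_append, List.map_cons, List.sum_cons,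
    loc_sum hA, loc_sum hM, loc_sum hB, dx, dx', dy'] at ht
  rw [SS_append, SS_append, SS, SS, SS_append, SS, zA, zA, zM, zB, zB, if_pos hex, if_pos hex, if_pos hey, cx, cx',
    cy', dx', loc_sum hA, loc_sum hM]
  have h1 : (M.map (dl ω)).sum = 3 := by linarith
  have h2 := hg (0 + (A.map (dl ω)).sum)
  rw [h1]
  have e1 : 0 + (A.map (dl ω)).sum + -1 + 3 - 1 = 0 + (A.map (dl ω)).sum + 1 := by ring
  rw [e1]
  linarith

theorem Wd_eq_sum (ω : Finset Edge) (b : ℤ) (t : ℕ) :
    Wd ω b t = ((run (next ω) (rr b) t).map (dl ω)).sum := by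
  induction t with
  | zero => simp [Wd, run]
  | succ t ih =>
    have h1 : Wd ω b (t + 1) = Wd ω b t + dl ω (pt ω b t) := by
      unfold Wd
      rw [Finset.sum_range_succ]
    have h2 : run (next ω) (rr b) (t + 1) = run (next ω) (rr b) t ++ [pt ω b t] := by
      unfold run pt
      rw [List.range_succ, List.map_append]
      rfl
    rw [h1, h2, ih, List.map_append, List.sum_append]
    simp

theorem insert_cfg {m n : ℕ} {a b : ℤ} {ω : Finset Edge} {e : Edge} (he : e ∈ edges m n)
    (hω : ω ∈ cfg m n a b) : insert e ω ∈ cfg m n a b := by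
  rw [mem_cfg] at hω ⊢
  exact ⟨Finset.insert_subset he hω.1, hω.2.trans (Finset.subset_insert _ _)⟩

/-- the local relation at the edge `e` for the pair `ω`, `insert e ω` -/
theorem loc_edge {m n : ℕ} {a b : ℤ} (hgeo : Geo m a b) {g : ℤ → ℝ} {s : ℝ}
    (hg : ∀ w, g (w + 1) + g (w - 1) = s * g w) {ω : Finset Edge} {e : Edge}
    (he : e ∈ edges m n) (heω : e ∉ ω) (hω : ω ∈ cfg m n a b) :
    wts s m n ω * SS g ω (fun p => edgeOf p = e) 0 (DD ω a b) +
      wts s m n (insert e ω) *
        SS g (insert e ω) (fun p => edgeOf p = e) 0 (DD (insert e ω) a b) = 0 := by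
  have hω' := insert_cfg he hω
  have hT := hits hgeo hω
  have hT' := hits hgeo hω'
  have h3 : ∀ p, p ≠ c1 e → p ≠ c2 e → next (insert e ω) p = next ω p := by
    intro p hp1 hp2
    refine next_insert_of_ne fun h => ?_
    rcases (edgeOf_eq_iff p e).1 h with h4 | h4
    · exact hp1 h4
    · exact hp2 h4
  have ht : ((DD ω a b).map (dl ω)).sum = ((DD (insert e ω) a b).map (dl (insert e ω))).sum := by
    have g1 : ((DD ω a b).map (dl ω)).sum = 3 := (Wd_eq_sum ω b _).symm.trans (Wd_stop hgeo hω)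
    have g2 : ((DD (insert e ω) a b).map (dl (insert e ω))).sum = 3 :=
      (Wd_eq_sum (insert e ω) b _).symm.trans (Wd_stop hgeo hω')
    rw [g1, g2]
  rcases splice (next_inj ω) (next_inj (insert e ω)) (c1_ne_c2 e) (next_insert_c1 heω) (next_insert_c2 heω) h3
    hT hT' (rr_ne_ss a b) with ⟨g1, g2, g3⟩ | hL | hL
  · have g3' : DD (insert e ω) a b = DD ω a b := g3
    have g4 : ∀ p ∈ DD ω a b, ¬ edgeOf p = e := by
      intro p hp h
      rcases (edgeOf_eq_iff p e).1 h with rfl | rfl
      · exact g1 hp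
      · exact g2 hp
    rw [g3', SS_zero _ _ _ _ _ g4, SS_zero _ _ _ _ _ g4]
    ring
  · have hL' : Longer (c1 e) (c2 e) (DD ω a b) (DD (insert e ω) a b) := hL
    obtain ⟨m1, m2⟩ := loc_mem hL'
    have g1 := loc_closed hg heω hL' ht
    rw [wts_reach he heω s (reach_of_both hgeo hω m1 m2)]
    have g2 : ∀ W X Y : ℝ, W * X + s * W * Y = W * (X + s * Y) := fun W X Y => by ring
    rw [g2, g1, mul_zero]
  · have hL' : Longer (c1 e) (c2 e) (DD (insert e ω) a b) (DD ω a b) := hL
    obtain ⟨m1, m2⟩ := loc_mem hL'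
    have g1 := loc_open hg heω hL' ht
    rw [wts_not_reach he heω s (not_reach hgeo he hω heω m1 m2)]
    have g2 : ∀ W X Y : ℝ, s * W * X + W * Y = W * (s * X + Y) := fun W X Y => by ring
    rw [g2, g1, mul_zero]

end FKI
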