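import Pool.Agent.Lib.MP_216314_pr.Defs

/-!
# Basic facts on the loops
-/

set_option autoImplicit false

noncomputable section

namespace FKI

open Finset

/-- first corner at which a loop meets the edge `e` (at the endpoint `ea e`) -/
def c1 (e : Edge) : V := if e.2.2 then (2 * e.1 + 1, 2 * e.2.1 + 1) else (2 * e.1 + 1, 2 * e.2.1)

/-- second corner at which a loop meets the edge `e` (at the endpoint `eb e`) -/
def c2 (e : Edge) : V := if e.2.2 then (2 * e.1, 2 * e.2.1 + 2) else (2 * e.1 + 2, 2 * e.2.1 + 1)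

/-- the vertex of a corner -/
def vtx (p : V) : V := (p.1 / 2, p.2 / 2)

/-- corners of the vertices of the box -/
def cor (m n : ℕ) : Finset V := Icc 0 (2 * (m : ℤ) + 1) ×ˢ Icc 0 (2 * (n : ℤ) + 1)

/-- a corner is of one of four types -/
theorem corner_cases (p : V) :
    (∃ x y : ℤ, p = (2 * x + 1, 2 * y)) ∨ (∃ x y : ℤ, p = (2 * x + 1, 2 * y + 1)) ∨
    (∃ x y : ℤ, p = (2 * x, 2 * y + 1)) ∨ (∃ x y : ℤ, p = (2 * x, 2 * y)) := by
  obtain ⟨X, Y⟩ := p
  rcases Int.even_or_odd' X with ⟨x, hx | hx⟩ <;> rcases Int.even_or_odd' Y with ⟨y, hy | hy⟩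
  · exact Or.inr (Or.inr (Or.inr ⟨x, y, by rw [hx, hy]⟩))
  · exact Or.inr (Or.inr (Or.inl ⟨x, y, by rw [hx, hy]⟩))
  · exact Or.inl ⟨x, y, by rw [hx, hy]⟩
  · exact Or.inr (Or.inl ⟨x, y, by rw [hx, hy]⟩)

theorem edgeOf_SE (x y : ℤ) : edgeOf (2 * x + 1, 2 * y) = (x, y, false) := by
  have h1 : (2 * x + 1) % 2 = 1 := by omega
  have h2 : (2 * y) % 2 = 0 := by omega
  have h3 : (2 * x + 1) / 2 = x := by omega
  have h4 : (2 * y) / 2 = y := by omega
  simp only [edgeOf, h1, h2, h3, h4, if_true]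

theorem edgeOf_NE (x y : ℤ) : edgeOf (2 * x + 1, 2 * y + 1) = (x, y, true) := by
  have h1 : (2 * x + 1) % 2 = 1 := by omega
  have h2 : (2 * y + 1) % 2 = 1 := by omega
  have h3 : (2 * x + 1) / 2 = x := by omega
  have h4 : (2 * y + 1) / 2 = y := by omega
  simp [edgeOf, h1, h2, h3, h4]

theorem edgeOf_NW (x y : ℤ) : edgeOf (2 * x, 2 * y + 1) = (x - 1, y, false) := by
  have h1 : (2 * x) % 2 = 0 := by omega
  have h2 : (2 * y + 1) % 2 = 1 := by omega
  have h3 : (2 * x) / 2 = x := by omega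
  have h4 : (2 * y + 1) / 2 = y := by omega
  simp [edgeOf, h1, h2, h3, h4]

theorem edgeOf_SW (x y : ℤ) : edgeOf (2 * x, 2 * y) = (x, y - 1, true) := by
  have h1 : (2 * x) % 2 = 0 := by omega
  have h2 : (2 * y) % 2 = 0 := by omega
  have h3 : (2 * x) / 2 = x := by omega
  have h4 : (2 * y) / 2 = y := by omega
  simp [edgeOf, h1, h2, h3, h4]

theorem ostep_SE (x y : ℤ) : ostep (2 * x + 1, 2 * y) = (1, 0) := by
  have h1 : (2 * x + 1) % 2 = 1 := by omega
  have h2 : (2 * y) % 2 = 0 := by omega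
  simp [ostep, h1, h2]

theorem ostep_NE (x y : ℤ) : ostep (2 * x + 1, 2 * y + 1) = (0, 1) := by
  have h1 : (2 * x + 1) % 2 = 1 := by omega
  have h2 : (2 * y + 1) % 2 = 1 := by omega
  simp [ostep, h1, h2]

theorem ostep_NW (x y : ℤ) : ostep (2 * x, 2 * y + 1) = (-1, 0) := by
  have h1 : (2 * x) % 2 = 0 := by omega
  have h2 : (2 * y + 1) % 2 = 1 := by omega
  simp [ostep, h1, h2]

theorem ostep_SW (x y : ℤ) : ostep (2 * x, 2 * y) = (0, -1) := by
  have h1 : (2 * x) % 2 = 0 := by omega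
  have h2 : (2 * y) % 2 = 0 := by omega
  simp [ostep, h1, h2]

theorem cstep_SE (x y : ℤ) : cstep (2 * x + 1, 2 * y) = (0, 1) := by
  have h1 : (2 * x + 1) % 2 = 1 := by omega
  have h2 : (2 * y) % 2 = 0 := by omega
  simp [cstep, h1, h2]

theorem cstep_NE (x y : ℤ) : cstep (2 * x + 1, 2 * y + 1) = (-1, 0) := by
  have h1 : (2 * x + 1) % 2 = 1 := by omega
  have h2 : (2 * y + 1) % 2 = 1 := by omega
  simp [cstep, h1, h2]

theorem cstep_NW (x y : ℤ) : cstep (2 * x, 2 * y + 1) = (0, -1) := by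
  have h1 : (2 * x) % 2 = 0 := by omega
  have h2 : (2 * y + 1) % 2 = 1 := by omega
  simp [cstep, h1, h2]

theorem cstep_SW (x y : ℤ) : cstep (2 * x, 2 * y) = (1, 0) := by
  have h1 : (2 * x) % 2 = 0 := by omega
  have h2 : (2 * y) % 2 = 0 := by omega
  simp [cstep, h1, h2]

theorem next_SE_open {ω : Finset Edge} {x y : ℤ} (h : (x, y, false) ∈ ω) :
    next ω (2 * x + 1, 2 * y) = (2 * x + 2, 2 * y) := by
  rw [next, edgeOf_SE, if_pos h, ostep_SE, Prod.mk_add_mk]
  ext <;> simp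
  ring

theorem next_SE_closed {ω : Finset Edge} {x y : ℤ} (h : (x, y, false) ∉ ω) :
    next ω (2 * x + 1, 2 * y) = (2 * x + 1, 2 * y + 1) := by
  rw [next, edgeOf_SE, if_neg h, cstep_SE, Prod.mk_add_mk]
  ext <;> simp

theorem next_NE_open {ω : Finset Edge} {x y : ℤ} (h : (x, y, true) ∈ ω) :
    next ω (2 * x + 1, 2 * y + 1) = (2 * x + 1, 2 * y + 2) := by
  rw [next, edgeOf_NE, if_pos h, ostep_NE, Prod.mk_add_mk]
  ext <;> simp
  ring

theorem next_NE_closed {ω : Finset Edge} {x y : ℤ} (h : (x, y, true) ∉ ω) :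
    next ω (2 * x + 1, 2 * y + 1) = (2 * x, 2 * y + 1) := by
  rw [next, edgeOf_NE, if_neg h, cstep_NE, Prod.mk_add_mk]
  ext <;> simp

theorem next_NW_open {ω : Finset Edge} {x y : ℤ} (h : (x - 1, y, false) ∈ ω) :
    next ω (2 * x, 2 * y + 1) = (2 * x - 1, 2 * y + 1) := by
  rw [next, edgeOf_NW, if_pos h, ostep_NW, Prod.mk_add_mk]
  ext <;> simp
  ring

theorem next_NW_closed {ω : Finset Edge} {x y : ℤ} (h : (x - 1, y, false) ∉ ω) :
    next ω (2 * x, 2 * y + 1) = (2 * x, 2 * y) := by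
  rw [next, edgeOf_NW, if_neg h, cstep_NW, Prod.mk_add_mk]
  ext <;> simp

theorem next_SW_open {ω : Finset Edge} {x y : ℤ} (h : (x, y - 1, true) ∈ ω) :
    next ω (2 * x, 2 * y) = (2 * x, 2 * y - 1) := by
  rw [next, edgeOf_SW, if_pos h, ostep_SW, Prod.mk_add_mk]
  ext <;> simp
  ring

theorem next_SW_closed {ω : Finset Edge} {x y : ℤ} (h : (x, y - 1, true) ∉ ω) :
    next ω (2 * x, 2 * y) = (2 * x + 1, 2 * y) := by
  rw [next, edgeOf_SW, if_neg h, cstep_SW, Prod.mk_add_mk]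
  ext <;> simp

theorem edgeOf_eq_iff (p : V) (e : Edge) : edgeOf p = e ↔ p = c1 e ∨ p = c2 e := by
  obtain ⟨u, v, t⟩ := e
  rcases corner_cases p with ⟨x, y, rfl⟩ | ⟨x, y, rfl⟩ | ⟨x, y, rfl⟩ | ⟨x, y, rfl⟩ <;> cases t <;>
    simp [edgeOf_SE, edgeOf_NE, edgeOf_NW, edgeOf_SW, c1, c2, Prod.ext_iff] <;> omega

theorem edgeOf_c1 (e : Edge) : edgeOf (c1 e) = e := (edgeOf_eq_iff _ _).2 (Or.inl rfl)

theorem edgeOf_c2 (e : Edge) : edgeOf (c2 e) = e := (edgeOf_eq_iff _ _).2 (Or.inr rfl)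

theorem c1_ne_c2 (e : Edge) : c1 e ≠ c2 e := by
  obtain ⟨u, v, t⟩ := e
  cases t <;> simp [c1, c2, Prod.ext_iff]

theorem vtx_c1 (e : Edge) : vtx (c1 e) = ea e := by
  obtain ⟨u, v, t⟩ := e
  cases t <;> simp [c1, vtx, ea, Prod.ext_iff] <;> omega

theorem vtx_c2 (e : Edge) : vtx (c2 e) = eb e := by
  obtain ⟨u, v, t⟩ := e
  cases t <;> simp [c2, vtx, eb, Prod.ext_iff] <;> omega

theorem next_insert_c1 {ω : Finset Edge} {e : Edge} (h : e ∉ ω) :
    next (insert e ω) (c1 e) = next ω (c2 e) := by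
  obtain ⟨u, v, t⟩ := e
  cases t
  · have e1 : c1 (u, v, false) = (2 * u + 1, 2 * v) := by simp [c1]
    have e2 : c2 (u, v, false) = (2 * (u + 1), 2 * v + 1) := by simp [c2, Prod.ext_iff]; ring
    rw [e1, e2, next_SE_open (mem_insert_self _ _), next_NW_closed (by simpa using h)]
    ext <;> simp
    ring
  · have e1 : c1 (u, v, true) = (2 * u + 1, 2 * v + 1) := by simp [c1]
    have e2 : c2 (u, v, true) = (2 * u, 2 * (v + 1)) := by simp [c2, Prod.ext_iff]; ring
    rw [e1, e2, next_NE_open (mem_insert_self _ _), next_SW_closed (by simpa using h)]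
    ext <;> simp
    ring

theorem next_insert_c2 {ω : Finset Edge} {e : Edge} (h : e ∉ ω) :
    next (insert e ω) (c2 e) = next ω (c1 e) := by
  obtain ⟨u, v, t⟩ := e
  cases t
  · have e1 : c1 (u, v, false) = (2 * u + 1, 2 * v) := by simp [c1]
    have e2 : c2 (u, v, false) = (2 * (u + 1), 2 * v + 1) := by simp [c2, Prod.ext_iff]; ring
    rw [e1, e2, next_SE_closed h, next_NW_open (by simp)]
    ext <;> simp
    ring
  · have e1 : c1 (u, v, true) = (2 * u + 1, 2 * v + 1) := by simp [c1]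
    have e2 : c2 (u, v, true) = (2 * u, 2 * (v + 1)) := by simp [c2, Prod.ext_iff]; ring
    rw [e1, e2, next_NE_closed h, next_SW_open (by simp)]
    ext <;> simp
    ring

theorem next_insert_of_ne {ω : Finset Edge} {e : Edge} {p : V} (h : edgeOf p ≠ e) :
    next (insert e ω) p = next ω p := by
  simp [next, h]

/-- the edge that the loop has met just before the corner `p` -/
def edgeIn (p : V) : Edge :=
  if p.1 % 2 = 1 then
    (if p.2 % 2 = 0 then (p.1 / 2, p.2 / 2 - 1, true) else (p.1 / 2, p.2 / 2, false))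
  else
    (if p.2 % 2 = 1 then (p.1 / 2, p.2 / 2, true) else (p.1 / 2 - 1, p.2 / 2, false))

theorem edgeIn_SE (x y : ℤ) : edgeIn (2 * x + 1, 2 * y) = (x, y - 1, true) := by
  have h1 : (2 * x + 1) % 2 = 1 := by omega
  have h2 : (2 * y) % 2 = 0 := by omega
  have h3 : (2 * x + 1) / 2 = x := by omega
  have h4 : (2 * y) / 2 = y := by omega
  simp only [edgeIn, h1, h2, h3, h4, if_true]

theorem edgeIn_NE (x y : ℤ) : edgeIn (2 * x + 1, 2 * y + 1) = (x, y, false) := by
  have h1 : (2 * x + 1) % 2 = 1 := by omega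
  have h2 : (2 * y + 1) % 2 = 1 := by omega
  have h3 : (2 * x + 1) / 2 = x := by omega
  have h4 : (2 * y + 1) / 2 = y := by omega
  simp [edgeIn, h1, h2, h3, h4]

theorem edgeIn_NW (x y : ℤ) : edgeIn (2 * x, 2 * y + 1) = (x, y, true) := by
  have h1 : (2 * x) % 2 = 0 := by omega
  have h2 : (2 * y + 1) % 2 = 1 := by omega
  have h3 : (2 * x) / 2 = x := by omega
  have h4 : (2 * y + 1) / 2 = y := by omega
  simp [edgeIn, h1, h2, h3, h4]

theorem edgeIn_SW (x y : ℤ) : edgeIn (2 * x, 2 * y) = (x - 1, y, false) := by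
  have h1 : (2 * x) % 2 = 0 := by omega
  have h2 : (2 * y) % 2 = 0 := by omega
  have h3 : (2 * x) / 2 = x := by omega
  have h4 : (2 * y) / 2 = y := by omega
  simp [edgeIn, h1, h2, h3, h4]

theorem edgeIn_next (ω : Finset Edge) (p : V) : edgeIn (next ω p) = edgeOf p := by
  rcases corner_cases p with ⟨x, y, rfl⟩ | ⟨x, y, rfl⟩ | ⟨x, y, rfl⟩ | ⟨x, y, rfl⟩
  · by_cases h : (x, y, false) ∈ ω
    · rw [next_SE_open h, edgeOf_SE, show (2 * x + 2 : ℤ) = 2 * (x + 1) by ring, edgeIn_SW]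
      simp
    · rw [next_SE_closed h, edgeOf_SE, edgeIn_NE]
  · by_cases h : (x, y, true) ∈ ω
    · rw [next_NE_open h, edgeOf_NE, show (2 * y + 2 : ℤ) = 2 * (y + 1) by ring, edgeIn_SE]
      simp
    · rw [next_NE_closed h, edgeOf_NE, edgeIn_NW]
  · by_cases h : (x - 1, y, false) ∈ ω
    · rw [next_NW_open h, edgeOf_NW, show (2 * x - 1 : ℤ) = 2 * (x - 1) + 1 by ring, edgeIn_NE]
    · rw [next_NW_closed h, edgeOf_NW, edgeIn_SW]
  · by_cases h : (x, y - 1, true) ∈ ω
    · rw [next_SW_open h, edgeOf_SW, show (2 * y - 1 : ℤ) = 2 * (y - 1) + 1 by ring, edgeIn_NW]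
    · rw [next_SW_closed h, edgeOf_SW, edgeIn_SE]

theorem next_c1_ne (ω : Finset Edge) (e : Edge) : next ω (c1 e) ≠ next ω (c2 e) := by
  obtain ⟨u, v, t⟩ := e
  cases t
  · have e1 : c1 (u, v, false) = (2 * u + 1, 2 * v) := by simp [c1]
    have e2 : c2 (u, v, false) = (2 * (u + 1), 2 * v + 1) := by simp [c2, Prod.ext_iff]; ring
    by_cases h : (u, v, false) ∈ ω
    · rw [e1, e2, next_SE_open h, next_NW_open (by simpa using h)]
      simp [Prod.ext_iff]
    · rw [e1, e2, next_SE_closed h, next_NW_closed (by simpa using h)]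
      simp [Prod.ext_iff]
  · have e1 : c1 (u, v, true) = (2 * u + 1, 2 * v + 1) := by simp [c1]
    have e2 : c2 (u, v, true) = (2 * u, 2 * (v + 1)) := by simp [c2, Prod.ext_iff]; ring
    by_cases h : (u, v, true) ∈ ω
    · rw [e1, e2, next_NE_open h, next_SW_open (by simpa using h)]
      simp [Prod.ext_iff]
    · rw [e1, e2, next_NE_closed h, next_SW_closed (by simpa using h)]
      simp [Prod.ext_iff]

theorem next_inj (ω : Finset Edge) : Function.Injective (next ω) := by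
  intro p p' h
  have h1 : edgeOf p = edgeOf p' := by rw [← edgeIn_next ω p, ← edgeIn_next ω p', h]
  rcases (edgeOf_eq_iff p (edgeOf p')).1 h1 with h2 | h2 <;>
    rcases (edgeOf_eq_iff p' (edgeOf p')).1 rfl with h3 | h3
  · rw [h2, ← h3]
  · exfalso
    rw [h2, h3, edgeOf_c2] at h
    exact next_c1_ne ω _ h
  · exfalso
    rw [h2, h3, edgeOf_c1] at h
    exact next_c1_ne ω _ h.symm
  · rw [h2, ← h3]

/-- the loops make unit steps -/
theorem next_unit (ω : Finset Edge) (p : V) :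
    |(next ω p).1 - p.1| + |(next ω p).2 - p.2| = 1 := by
  rcases corner_cases p with ⟨x, y, rfl⟩ | ⟨x, y, rfl⟩ | ⟨x, y, rfl⟩ | ⟨x, y, rfl⟩
  · by_cases h : (x, y, false) ∈ ω
    · rw [next_SE_open h]
      have h1 : (2 * x + 2 : ℤ) - (2 * x + 1) = 1 := by ring
      simp [h1]
    · rw [next_SE_closed h]
      simp
  · by_cases h : (x, y, true) ∈ ω
    · rw [next_NE_open h]
      have h1 : (2 * y + 2 : ℤ) - (2 * y + 1) = 1 := by ring
      simp [h1]
    · rw [next_NE_closed h]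
      simp
  · by_cases h : (x - 1, y, false) ∈ ω
    · rw [next_NW_open h]
      simp
    · rw [next_NW_closed h]
      simp
  · by_cases h : (x, y - 1, true) ∈ ω
    · rw [next_SW_open h]
      simp
    · rw [next_SW_closed h]
      simp

theorem mem_edges {m n : ℕ} {x y : ℤ} {t : Bool} : (x, y, t) ∈ edges m n ↔
    (t = false ∧ 0 ≤ x ∧ x < m ∧ 0 ≤ y ∧ y ≤ n) ∨ (t = true ∧ 0 ≤ x ∧ x ≤ m ∧ 0 ≤ y ∧ y < n) := by
  simp [edges]
  tauto

/-- the loops of a configuration of the box stay in the box -/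
theorem next_mem_cor {m n : ℕ} {ω : Finset Edge} (hω : ω ⊆ edges m n) {p : V}
    (hp : p ∈ cor m n) : next ω p ∈ cor m n := by
  rcases corner_cases p with ⟨x, y, rfl⟩ | ⟨x, y, rfl⟩ | ⟨x, y, rfl⟩ | ⟨x, y, rfl⟩ <;>
    simp only [cor, mem_product, mem_Icc] at hp ⊢
  · by_cases h : (x, y, false) ∈ ω
    · have := mem_edges.1 (hω h)
      simp at this
      rw [next_SE_open h]
      simp only
      omega
    · rw [next_SE_closed h]
      simp only
      omega
  · by_cases h : (x, y, true) ∈ ω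
    · have := mem_edges.1 (hω h)
      simp at this
      rw [next_NE_open h]
      simp only
      omega
    · rw [next_NE_closed h]
      simp only
      omega
  · by_cases h : (x - 1, y, false) ∈ ω
    · have := mem_edges.1 (hω h)
      simp at this
      rw [next_NW_open h]
      simp only
      omega
    · rw [next_NW_closed h]
      simp only
      omega
  · by_cases h : (x, y - 1, true) ∈ ω
    · have := mem_edges.1 (hω h)
      simp at this
      rw [next_SW_open h]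
      simp only
      omega
    · rw [next_SW_closed h]
      simp only
      omega

/-- a loop stays in one cluster -/
theorem reach_next (ω : Finset Edge) (p : V) :
    (gr ω).Reachable (vtx p) (vtx (next ω p)) := by
  have key : ∀ e ∈ ω, (gr ω).Reachable (ea e) (eb e) := by
    intro e he
    apply SimpleGraph.Adj.reachable
    rw [gr, SimpleGraph.fromRel_adj]
    refine ⟨?_, Or.inl ⟨e, he, rfl, rfl⟩⟩
    obtain ⟨u, v, t⟩ := e
    cases t <;> simp [ea, eb, Prod.ext_iff]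
  have d1 : ∀ x : ℤ, (2 * x + 1) / 2 = x := fun x => by omega
  have d2 : ∀ x : ℤ, (2 * x) / 2 = x := fun x => by omega
  have d3 : ∀ x : ℤ, (2 * x + 2) / 2 = x + 1 := fun x => by omega
  have d4 : ∀ x : ℤ, (2 * x - 1) / 2 = x - 1 := fun x => by omega
  rcases corner_cases p with ⟨x, y, rfl⟩ | ⟨x, y, rfl⟩ | ⟨x, y, rfl⟩ | ⟨x, y, rfl⟩
  · by_cases h : (x, y, false) ∈ ω
    · rw [next_SE_open h]
      simpa [vtx, ea, eb, d1, d2, d3] using key _ h
    · rw [next_SE_closed h]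
      simp [vtx, d1, d2]
  · by_cases h : (x, y, true) ∈ ω
    · rw [next_NE_open h]
      simpa [vtx, ea, eb, d1, d2, d3] using key _ h
    · rw [next_NE_closed h]
      simp [vtx, d1, d2]
  · by_cases h : (x - 1, y, false) ∈ ω
    · rw [next_NW_open h]
      simpa [vtx, ea, eb, d1, d2, d4] using (key _ h).symm
    · rw [next_NW_closed h]
      simp [vtx, d1, d2]
  · by_cases h : (x, y - 1, true) ∈ ω
    · rw [next_SW_open h]
      simpa [vtx, ea, eb, d1, d2, d4] using (key _ h).symm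
    · rw [next_SW_closed h]
      simp [vtx, d1, d2]

end FKI
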