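import Pool.Agent.Lib.MP_216314_pr.Res

/-!
# MP_216314_pr, second hand-in: boundary susceptibilities (definitions)

Critical random-cluster model (`s = √q`, weight `s^(open edges) (s^2)^(clusters)`) with free boundary
conditions on a finite graph: edges `E`, vertices `W`.
-/

set_option autoImplicit false

noncomputable section

namespace FKI

open Finset

/-- number of clusters of `ω` among the vertices of `W` -/
def kc (W : Finset V) (ω : Finset Edge) : ℕ :=
  Set.ncard ((gr ω).connectedComponentMk '' (W : Set V))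

/-- the critical weight of a configuration -/
def wk (s : ℝ) (W : Finset V) (ω : Finset Edge) : ℝ := s ^ ω.card * (s ^ 2) ^ kc W ω

/-- the partition function -/
def ZZ (s : ℝ) (W : Finset V) (E : Finset Edge) : ℝ := ∑ ω ∈ E.powerset, wk s W ω

/-- the expectation -/
def ex (s : ℝ) (W : Finset V) (E : Finset Edge) (F : Finset Edge → ℝ) : ℝ :=
  (∑ ω ∈ E.powerset, wk s W ω * F ω) / ZZ s W E

/-- all end points of the edges of `E` are in `W` -/
def Ends (W : Finset V) (E : Finset Edge) : Prop := ∀ e ∈ E, ea e ∈ W ∧ eb e ∈ W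

open Classical in
/-- indicator of a connection -/
def con (u v : V) (ω : Finset Edge) : ℝ := if (gr ω).Reachable u v then 1 else 0

/-- the two point function -/
def tau (s : ℝ) (W : Finset V) (E : Finset Edge) (u v : V) : ℝ := ex s W E (con u v)

/-- the two point function of the box `[0,m] × [0,n]` -/
def tauB (s : ℝ) (m n : ℕ) (u v : V) : ℝ := tau s (verts m n) (edges m n) u v

/-- expected number of vertices of the top side connected to `(a,0)` -/
def sT (s : ℝ) (m n : ℕ) (a : ℤ) : ℝ := ∑ x ∈ Icc 0 (m : ℤ), tauB s m n (a, 0) (x, (n : ℤ))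

/-- expected number of vertices of the right side connected to `(a,0)` -/
def sR (s : ℝ) (m n : ℕ) (a : ℤ) : ℝ := ∑ y ∈ Icc 0 (n : ℤ), tauB s m n (a, 0) ((m : ℤ), y)

/-- expected number of vertices of the left side connected to `(a,0)` -/
def sL (s : ℝ) (m n : ℕ) (a : ℤ) : ℝ := ∑ y ∈ Icc 0 (n : ℤ), tauB s m n (a, 0) (0, y)

/-- expected number of vertices of the bottom side to the right of `(a,0)` connected to `(a,0)` -/
def sBR (s : ℝ) (m n : ℕ) (a : ℤ) : ℝ := ∑ x ∈ Ioc a (m : ℤ), tauB s m n (a, 0) (x, 0)

/-- expected number of vertices of the bottom side to the left of `(a,0)` connected to `(a,0)` -/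
def sBL (s : ℝ) (m n : ℕ) (a : ℤ) : ℝ := ∑ x ∈ Ico 0 a, tauB s m n (a, 0) (x, 0)

end FKI
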