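import Pool.Agent.Lib.MP_216314_pr.QFkg

/-!
# JOB QDom: domain monotonicity

* `kc_larger`: the vertices of `W' \ W` are isolated in `ω`, each one is a component of its own (not the component of another vertex of `W'`):
  induction on `W' \ W` or directly `Set.ncard` of a disjoint union (`Set.ncard_union_eq`, `Set.ncard_image_of_injOn`); `(gr ω).Reachable x y` with `x ∉ W`
  forces `x = y` (the first edge of a walk would have an end point `x`; `Ends W ω`).
* `ex_mono`: with `g ω = if ω ⊆ E then 1 else 0` (decreasing), `ex' (f * g) ≤ ex' f * ex' g` (`ex_fkg_dec` on `W', E'`); `ex' (f * g) = c * ∑_{ω ⊆ E} wk W ω f ω / ZZ'` and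
  `ex' g = c * ZZ / ZZ'` with `c = (s^2)^(#(W' \ W))` (`wk_larger`; `Finset.sum_filter`, `E.powerset ⊆ E'.powerset`).
-/

set_option autoImplicit false

noncomputable section

namespace FKI

open Finset

theorem qdom_iso {W : Finset V} {ω : Finset Edge} (hω : Ends W ω) {x y : V} (hx : x ∉ W)
    (h : (gr ω).Reachable x y) : x = y := by
  obtain ⟨p⟩ := h
  cases p with
  | nil => rfl
  | cons h p =>
    exfalso
    apply hx
    rw [gr, SimpleGraph.fromRel_adj] at h
    obtain ⟨-, ⟨e, he, h1, -⟩ | ⟨e, he, -, h2⟩⟩ := h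
    · rw [← h1]
      exact (hω e he).1
    · rw [← h2]
      exact (hω e he).2

theorem kc_larger {W W' : Finset V} {ω : Finset Edge} (h : W ⊆ W') (hω : Ends W ω) :
    kc W' ω = kc W ω + (W' \ W).card := by
  have e1 : (W' : Set V) = (W : Set V) ∪ ((W' \ W : Finset V) : Set V) := by
    rw [← Finset.coe_union, Finset.union_sdiff_of_subset h]
  unfold kc
  rw [e1, Set.image_union]
  have hfin1 : ((gr ω).connectedComponentMk '' (W : Set V)).Finite := W.finite_toSet.image _
  have hfin2 : ((gr ω).connectedComponentMk '' ((W' \ W : Finset V) : Set V)).Finite :=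
    (W' \ W).finite_toSet.image _
  have hdisj : Disjoint ((gr ω).connectedComponentMk '' (W : Set V))
      ((gr ω).connectedComponentMk '' ((W' \ W : Finset V) : Set V)) := by
    rw [Set.disjoint_left]
    rintro c ⟨x, hx, rfl⟩ ⟨y, hy, hxy⟩
    have h1 : (gr ω).Reachable y x := SimpleGraph.ConnectedComponent.eq.1 hxy
    have hy' := Finset.mem_sdiff.1 (Finset.mem_coe.1 hy)
    have h2 := qdom_iso hω hy'.2 h1
    rw [h2] at hy'
    exact hy'.2 (Finset.mem_coe.1 hx)
  rw [Set.ncard_union_eq hdisj hfin1 hfin2]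
  congr 1
  rw [Set.InjOn.ncard_image, Set.ncard_coe_finset]
  intro x hx y hy hxy
  have h1 : (gr ω).Reachable x y := SimpleGraph.ConnectedComponent.eq.1 hxy
  exact qdom_iso hω (Finset.mem_sdiff.1 (Finset.mem_coe.1 hx)).2 h1

theorem wk_larger {s : ℝ} {W W' : Finset V} {ω : Finset Edge} (h : W ⊆ W') (hω : Ends W ω) :
    wk s W' ω = (s ^ 2) ^ (W' \ W).card * wk s W ω := by
  unfold wk
  rw [kc_larger h hω, pow_add]
  ring

theorem qdom_sum {s : ℝ} {W W' : Finset V} {E E' : Finset Edge} (hW : W ⊆ W')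
    (hEE : E ⊆ E') (hE : Ends W E) (f : Finset Edge → ℝ) :
    ∑ ω ∈ E'.powerset, wk s W' ω * (f ω * (if ω ⊆ E then 1 else 0))
      = (s ^ 2) ^ (W' \ W).card * ∑ ω ∈ E.powerset, wk s W ω * f ω := by
  have h1 : ∑ ω ∈ E.powerset, wk s W' ω * (f ω * (if ω ⊆ E then 1 else 0))
      = ∑ ω ∈ E'.powerset, wk s W' ω * (f ω * (if ω ⊆ E then 1 else 0)) := by
    refine Finset.sum_subset (Finset.powerset_mono.2 hEE) fun ω _ hω => ?_
    rw [Finset.mem_powerset] at hω
    rw [if_neg hω, mul_zero, mul_zero]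
  rw [← h1, Finset.mul_sum]
  refine Finset.sum_congr rfl fun ω hω => ?_
  rw [Finset.mem_powerset] at hω
  rw [if_pos hω, mul_one, wk_larger hW (fun e he => hE e (hω he))]
  ring

theorem ex_mono {s : ℝ} (hs : 1 ≤ s) {W W' : Finset V} {E E' : Finset Edge} (hW : W ⊆ W')
    (hEE : E ⊆ E') (hE : Ends W E) (hE' : Ends W' E') {f : Finset Edge → ℝ}
    (hf0 : ∀ A, 0 ≤ f A) (hf : ∀ A B, A ⊆ B → f A ≤ f B) : ex s W E f ≤ ex s W' E' f := by
  have hs0 : 0 < s := zero_lt_one.trans_le hs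
  have hZ := ZZ_pos hs0 W E
  have hZ' := ZZ_pos hs0 W' E'
  have hc : 0 < (s ^ 2) ^ (W' \ W).card := by positivity
  have h1 := ex_fkg_dec hs hE' (f := f) (g := fun ω => if ω ⊆ E then 1 else 0) hf0
    (fun A => by positivity) hf (fun A B hAB => by
      by_cases hB : B ⊆ E
      · rw [if_pos hB, if_pos (hAB.trans hB)]
      · rw [if_neg hB]
        positivity)
  have h2 := qdom_sum (s := s) hW hEE hE f
  have h3 := qdom_sum (s := s) hW hEE hE (fun _ => 1)
  simp only [one_mul, mul_one] at h3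
  have h4 : ex s W' E' (fun ω => f ω * if ω ⊆ E then 1 else 0)
      = (s ^ 2) ^ (W' \ W).card * (∑ ω ∈ E.powerset, wk s W ω * f ω) / ZZ s W' E' := by
    unfold ex
    rw [h2]
  have h5 : ex s W' E' (fun ω => if ω ⊆ E then 1 else 0)
      = (s ^ 2) ^ (W' \ W).card * ZZ s W E / ZZ s W' E' := by
    unfold ex
    rw [h3]
    rfl
  rw [h4, h5] at h1
  have h6 : (∑ ω ∈ E.powerset, wk s W ω * f ω) ≤ ex s W' E' f * ZZ s W E := by
    have h7 : ((s ^ 2) ^ (W' \ W).card / ZZ s W' E') * (∑ ω ∈ E.powerset, wk s W ω * f ω)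
        ≤ ((s ^ 2) ^ (W' \ W).card / ZZ s W' E') * (ex s W' E' f * ZZ s W E) := by
      calc _ = (s ^ 2) ^ (W' \ W).card * (∑ ω ∈ E.powerset, wk s W ω * f ω) / ZZ s W' E' := by
            ring
        _ ≤ ex s W' E' f * ((s ^ 2) ^ (W' \ W).card * ZZ s W E / ZZ s W' E') := h1
        _ = _ := by ring
    exact le_of_mul_le_mul_left h7 (div_pos hc hZ')
  unfold ex at h6 ⊢
  rw [div_le_iff₀ hZ]
  exact h6

end FKI
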