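import Pool.Agent.Lib.MP_216314_pr.QTau

/-!
# JOB QEdge: lower bounds for connections

* `tau_edge`: domain monotonicity (`tau_mono`) from the graph with the single edge `e`, `W = {ea e, eb e}`, `E = {e}` (`Finset.powerset` has the two elements
  `∅`, `{e}`): `kc {e} + 1 = kc ∅` (`kc_insert_not` with `ω = ∅`, `gr ∅ = ⊥`, `ea e ≠ eb e`), `con (ea e) (eb e) ∅ = 0`, `con (ea e) (eb e) {e} = 1`; with `K = kc {e}`:
  `tau = s (s^2)^K / (s (s^2)^K + (s^2)^(K+1)) = 1 / (1 + s)`.
* `tau_row`, `tau_col`: induction on `k` with `tau_tri` and `tau_edge` (`ea (x, 0, false) = (x,0)`, `eb (x, 0, false) = (x+1,0)`; `mem_edges`; `tau_comm`).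
-/

set_option autoImplicit false

noncomputable section

namespace FKI

open Finset

theorem tau_edge {s : ℝ} (hs : 1 ≤ s) {W : Finset V} {E : Finset Edge} (hE : Ends W E)
    {e : Edge} (he : e ∈ E) : 1 / (1 + s) ≤ tau s W E (ea e) (eb e) := by
  have hne : ea e ≠ eb e := by
    obtain ⟨a, b, t⟩ := e
    cases t <;> simp [ea, eb]
  have hends : Ends ({ea e, eb e} : Finset V) {e} := by
    intro e' he'
    rw [mem_singleton] at he'
    subst he'
    simp
  have hW : ({ea e, eb e} : Finset V) ⊆ W := by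
    intro v hv
    rw [mem_insert, mem_singleton] at hv
    rcases hv with rfl | rfl
    · exact (hE e he).1
    · exact (hE e he).2
  refine le_trans (le_of_eq ?_) (tau_mono hs hW (singleton_subset_iff.2 he) hends hE (ea e) (eb e))
  have hbot : gr ∅ = ⊥ := by
    ext x y
    simp [gr]
  have hnr : ¬ (gr ∅).Reachable (ea e) (eb e) := by
    rw [hbot, SimpleGraph.reachable_bot]
    exact hne
  have hr : (gr {e}).Reachable (ea e) (eb e) := by
    apply SimpleGraph.Adj.reachable
    unfold gr
    rw [SimpleGraph.fromRel_adj]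
    exact ⟨hne, Or.inl ⟨e, mem_singleton_self e, rfl, rfl⟩⟩
  have hk : kc ({ea e, eb e} : Finset V) {e} + 1 = kc ({ea e, eb e} : Finset V) ∅ := by
    have := kc_insert_not (W := {ea e, eb e}) (ω := ∅) (e := e) (by simp) (by simp) hnr
    simpa using this
  have hc0 : con (ea e) (eb e) ∅ = 0 := by
    unfold con
    rw [if_neg hnr]
  have hc1 : con (ea e) (eb e) {e} = 1 := by
    unfold con
    rw [if_pos hr]
  have hsum : ∀ F : Finset Edge → ℝ, ∑ ω ∈ ({e} : Finset Edge).powerset, F ω = F ∅ + F {e} := by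
    intro F
    have h1 := sum_powerset_insert (notMem_empty e) F
    simpa using h1
  unfold tau ex ZZ
  rw [hsum, hsum, hc0, hc1]
  unfold wk
  rw [← hk, card_empty, card_singleton]
  set K := kc ({ea e, eb e} : Finset V) {e}
  have hs0 : 0 < s := by linarith
  have hK : 0 < (s ^ 2) ^ K := by positivity
  rw [pow_succ]
  field_simp
  ring

/-- connections along the bottom side -/
theorem tau_row {s : ℝ} (hs : 1 ≤ s) {m n : ℕ} (k : ℕ) (hk : k ≤ m) :
    (1 / (1 + s)) ^ k ≤ tauB s m n (0, 0) ((k : ℤ), 0) := by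
  have hs1 : 0 < 1 / (1 + s) := by
    have : 0 < 1 + s := by linarith
    positivity
  induction k with
  | zero =>
    rw [pow_zero]
    have h := tau_self (by linarith : 0 < s) (verts m n) (edges m n) (0, 0)
    unfold tauB
    push_cast
    rw [h]
  | succ k ih =>
    have h1 := ih (by omega)
    have he : ((k : ℤ), (0 : ℤ), false) ∈ edges m n := by
      rw [mem_edges]
      left
      refine ⟨rfl, by omega, by omega, le_refl _, by omega⟩
    have h2 : 1 / (1 + s) ≤ tauB s m n ((k : ℤ), 0) ((k : ℤ) + 1, 0) :=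
      tau_edge hs (ends_box m n) he
    have h3 : tauB s m n (0, 0) ((k : ℤ), 0) * tauB s m n ((k : ℤ), 0) ((k : ℤ) + 1, 0) ≤
        tauB s m n (0, 0) ((k : ℤ) + 1, 0) := tau_tri hs (ends_box m n) _ _ _
    push_cast
    refine le_trans ?_ h3
    rw [pow_succ]
    exact mul_le_mul h1 h2 hs1.le (le_trans (by positivity) h1)

/-- connections along the right side -/
theorem tau_col {s : ℝ} (hs : 1 ≤ s) {m n : ℕ} (k : ℕ) (hk : k ≤ n) :
    (1 / (1 + s)) ^ k ≤ tauB s m n ((m : ℤ), (k : ℤ)) ((m : ℤ), 0) := by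
  have hs1 : 0 < 1 / (1 + s) := by
    have : 0 < 1 + s := by linarith
    positivity
  induction k with
  | zero =>
    rw [pow_zero]
    have h := tau_self (by linarith : 0 < s) (verts m n) (edges m n) ((m : ℤ), 0)
    unfold tauB
    push_cast
    rw [h]
  | succ k ih =>
    have h1 := ih (by omega)
    have he : ((m : ℤ), (k : ℤ), true) ∈ edges m n := by
      rw [mem_edges]
      right
      refine ⟨rfl, by omega, le_refl _, by omega, by omega⟩
    have h2 : 1 / (1 + s) ≤ tauB s m n ((m : ℤ), (k : ℤ) + 1) ((m : ℤ), (k : ℤ)) := by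
      unfold tauB
      rw [tau_comm]
      exact tau_edge hs (ends_box m n) he
    have h3 : tauB s m n ((m : ℤ), (k : ℤ) + 1) ((m : ℤ), (k : ℤ)) *
        tauB s m n ((m : ℤ), (k : ℤ)) ((m : ℤ), 0) ≤
        tauB s m n ((m : ℤ), (k : ℤ) + 1) ((m : ℤ), 0) := tau_tri hs (ends_box m n) _ _ _
    push_cast
    refine le_trans ?_ h3
    rw [pow_succ, mul_comm]
    exact mul_le_mul h2 h1 (by positivity) (le_trans hs1.le h2)

end FKI
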