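import Pool.Agent.Lib.MP_216314_pr.QSup

/-!
# JOB QFkg: the FKG inequality

* `four`: `Finset.four_functions_theorem E` (Mathlib, Combinatorics/SetFamily/FourFunctions) with `𝒜 = ℬ = E.powerset`; the sums over
  `E.powerset ⊼ E.powerset` and `E.powerset ⊻ E.powerset` are at most the sums over `E.powerset` (they are subsets: `Finset.mem_infs`, `Finset.mem_sups`;
  `Finset.sum_le_sum_of_subset_of_nonneg`). The functions only have to be nonnegative on subsets of `E`: replace `f` by `fun A => if A ⊆ E then f A else 0`, or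
  assume nonnegativity everywhere as stated.
* `ex_fkg`: `four` with `f₁ = wk * f`, `f₂ = wk * g`, `f₃ = wk`, `f₄ = wk * (f * g)` and `wk_lattice`; divide by `ZZ ^ 2`.
* `ex_fkg_dec`: `f₁ = wk * (f * g)`, `f₂ = wk`, `f₃ = wk * g` (on `s ∩ t`), `f₄ = wk * f` (on `s ∪ t`).
  (To have the monotonicity everywhere the hypotheses are for all `A ⊆ B`.)
-/

set_option autoImplicit false

noncomputable section

namespace FKI

open Finset

theorem wk_pos {s : ℝ} (hs : 0 < s) (W : Finset V) (ω : Finset Edge) : 0 < wk s W ω := by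
  unfold wk
  positivity

theorem ZZ_pos {s : ℝ} (hs : 0 < s) (W : Finset V) (E : Finset Edge) : 0 < ZZ s W E :=
  Finset.sum_pos (fun ω _ => wk_pos hs W ω) ⟨∅, Finset.empty_mem_powerset E⟩

theorem four {E : Finset Edge} {f₁ f₂ f₃ f₄ : Finset Edge → ℝ} (h₁ : ∀ A, 0 ≤ f₁ A)
    (h₂ : ∀ A, 0 ≤ f₂ A) (h₃ : ∀ A, 0 ≤ f₃ A) (h₄ : ∀ A, 0 ≤ f₄ A)
    (h : ∀ A ⊆ E, ∀ B ⊆ E, f₁ A * f₂ B ≤ f₃ (A ∩ B) * f₄ (A ∪ B)) :
    (∑ A ∈ E.powerset, f₁ A) * ∑ A ∈ E.powerset, f₂ A ≤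
      (∑ A ∈ E.powerset, f₃ A) * ∑ A ∈ E.powerset, f₄ A := by
  have h1 := Finset.four_functions_theorem (f₁ := f₁) (f₂ := f₂) (f₃ := f₃) (f₄ := f₄) E
    h₁ h₂ h₃ h₄ (fun A hA B hB => h A hA B hB) (Finset.Subset.refl E.powerset)
    (Finset.Subset.refl E.powerset)
  refine h1.trans (mul_le_mul ?_ ?_ (Finset.sum_nonneg fun A _ => h₄ A)
    (Finset.sum_nonneg fun A _ => h₃ A))
  · refine Finset.sum_le_sum_of_subset_of_nonneg (fun A hA => ?_) (fun A _ _ => h₃ A)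
    obtain ⟨B, hB, C, hC, rfl⟩ := Finset.mem_infs.1 hA
    rw [Finset.mem_powerset] at hB ⊢
    exact Finset.inter_subset_left.trans hB
  · refine Finset.sum_le_sum_of_subset_of_nonneg (fun A hA => ?_) (fun A _ _ => h₄ A)
    obtain ⟨B, hB, C, hC, rfl⟩ := Finset.mem_sups.1 hA
    rw [Finset.mem_powerset] at hB hC ⊢
    exact Finset.union_subset hB hC

theorem ex_fkg {s : ℝ} (hs : 1 ≤ s) {W : Finset V} {E : Finset Edge} (hE : Ends W E)
    {f g : Finset Edge → ℝ} (hf0 : ∀ A, 0 ≤ f A) (hg0 : ∀ A, 0 ≤ g A)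
    (hf : ∀ A B, A ⊆ B → f A ≤ f B) (hg : ∀ A B, A ⊆ B → g A ≤ g B) :
    ex s W E f * ex s W E g ≤ ex s W E (fun ω => f ω * g ω) := by
  have hs0 : 0 < s := zero_lt_one.trans_le hs
  have hw := fun ω => wk_pos hs0 W ω
  have hZ := ZZ_pos hs0 W E
  have h1 := four (E := E) (f₁ := fun A => wk s W A * f A) (f₂ := fun A => wk s W A * g A)
    (f₃ := wk s W) (f₄ := fun A => wk s W A * (f A * g A))
    (fun A => mul_nonneg (hw A).le (hf0 A)) (fun A => mul_nonneg (hw A).le (hg0 A))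
    (fun A => (hw A).le) (fun A => mul_nonneg (hw A).le (mul_nonneg (hf0 A) (hg0 A)))
    (fun A hA B hB => by
      have e1 := wk_lattice hs hE hA hB
      have e2 : f A * g B ≤ f (A ∪ B) * g (A ∪ B) :=
        mul_le_mul (hf _ _ Finset.subset_union_left) (hg _ _ Finset.subset_union_right)
          (hg0 B) (hf0 _)
      calc wk s W A * f A * (wk s W B * g B) = (wk s W A * wk s W B) * (f A * g B) := by ring
        _ ≤ (wk s W (A ∩ B) * wk s W (A ∪ B)) * (f (A ∪ B) * g (A ∪ B)) :=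
            mul_le_mul e1 e2 (mul_nonneg (hf0 A) (hg0 B))
              (mul_nonneg (hw _).le (hw _).le)
        _ = _ := by ring)
  unfold ex
  rw [div_mul_div_comm, div_le_div_iff₀ (mul_pos hZ hZ) hZ]
  have h2 : (∑ A ∈ E.powerset, wk s W A) = ZZ s W E := rfl
  rw [h2] at h1
  calc _ ≤ (ZZ s W E * ∑ A ∈ E.powerset, wk s W A * (f A * g A)) * ZZ s W E :=
        mul_le_mul_of_nonneg_right h1 hZ.le
    _ = _ := by ring

theorem ex_fkg_dec {s : ℝ} (hs : 1 ≤ s) {W : Finset V} {E : Finset Edge} (hE : Ends W E)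
    {f g : Finset Edge → ℝ} (hf0 : ∀ A, 0 ≤ f A) (hg0 : ∀ A, 0 ≤ g A)
    (hf : ∀ A B, A ⊆ B → f A ≤ f B) (hg : ∀ A B, A ⊆ B → g B ≤ g A) :
    ex s W E (fun ω => f ω * g ω) ≤ ex s W E f * ex s W E g := by
  have hs0 : 0 < s := zero_lt_one.trans_le hs
  have hw := fun ω => wk_pos hs0 W ω
  have hZ := ZZ_pos hs0 W E
  have h1 := four (E := E) (f₁ := fun A => wk s W A * (f A * g A)) (f₂ := wk s W)
    (f₃ := fun A => wk s W A * g A) (f₄ := fun A => wk s W A * f A)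
    (fun A => mul_nonneg (hw A).le (mul_nonneg (hf0 A) (hg0 A))) (fun A => (hw A).le)
    (fun A => mul_nonneg (hw A).le (hg0 A)) (fun A => mul_nonneg (hw A).le (hf0 A))
    (fun A hA B hB => by
      have e1 := wk_lattice hs hE hA hB
      have e2 : f A * g A ≤ f (A ∪ B) * g (A ∩ B) :=
        mul_le_mul (hf _ _ Finset.subset_union_left) (hg _ _ Finset.inter_subset_left)
          (hg0 A) (hf0 _)
      calc wk s W A * (f A * g A) * wk s W B = (wk s W A * wk s W B) * (f A * g A) := by ring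
        _ ≤ (wk s W (A ∩ B) * wk s W (A ∪ B)) * (f (A ∪ B) * g (A ∩ B)) :=
            mul_le_mul e1 e2 (mul_nonneg (hf0 A) (hg0 A))
              (mul_nonneg (hw _).le (hw _).le)
        _ = _ := by ring)
  unfold ex
  rw [div_mul_div_comm, div_le_div_iff₀ hZ (mul_pos hZ hZ)]
  have h2 : (∑ A ∈ E.powerset, wk s W A) = ZZ s W E := rfl
  rw [h2] at h1
  calc _ = ((∑ A ∈ E.powerset, wk s W A * (f A * g A)) * ZZ s W E) * ZZ s W E := by ring
    _ ≤ ((∑ A ∈ E.powerset, wk s W A * g A) * ∑ A ∈ E.powerset, wk s W A * f A) * ZZ s W E :=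
        mul_le_mul_of_nonneg_right h1 hZ.le
    _ = _ := by ring

end FKI
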