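import Pool.Agent.Lib.MP_216314_pr.QStart

/-!
# JOB QHalfA: the half plane, comparison with quadrants

`half s k`: the half plane is exhausted by the boxes `[0,2p] × [0,n]` seen from the middle `(p,0)` of the bottom side.
* `half_mono`: `tauB_shift` and `tauB_mono` (`p → p+1`: the box `[0,2p]` shifted by 1 is contained in `[0,2p+2]`).
* `quad_le_half`: for `a + k ≤ ...`: `tauB s m n (a,0) (a+k,0) ≤ tauB s (2q) n (q,0) (q+k,0)` for `q = a + m`: shift by `q - a = m` (`m` times `tauB_shift`), the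
  box becomes `[0, 2m] ⊆ [0, 2q]`. Hence `quad s a (a+k) ≤ half s k`.
* `quad_left_le_half`: for `k ≤ a`: `quad s a (a-k) ≤ half s k`: reflect first (`tauB_reflect`: `(a,0),(a-k,0)` become `(m-a,0),(m-a+k,0)` in the same box),
  then as before (boxes with `m < a`: the vertex `(a,0)` is outside and `tauB_out` applies if `k ≠ 0`; for `k = 0` both sides are 1, `tau_self`).
* `half_le_right`: `tauB s (2p) n (p,0) (p+k,0) ≤ quad s p (p+k)` (definition of the supremum); `half_le_left`: for `k ≤ p`,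
  `tauB s (2p) n (p,0) (p+k,0) = tauB s (2p) n (p,0) (p-k,0) ≤ quad s p (p-k)` (`tauB_reflect`).
-/

set_option autoImplicit false

noncomputable section

namespace FKI

open Finset Filter Topology

/-- two point function of the critical random-cluster model in the half plane (free boundary
conditions): the probability that two boundary vertices at distance `k` are connected -/
def half (s : ℝ) (k : ℕ) : ℝ :=
  ⨆ p : ℕ × ℕ, tauB s (2 * p.1) p.2 ((p.1 : ℤ), 0) (((p.1 + k : ℕ) : ℤ), 0)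

theorem half_mono {s : ℝ} (hs : 1 ≤ s) (k : ℕ) : Monotone fun p : ℕ × ℕ =>
    tauB s (2 * p.1) p.2 ((p.1 : ℤ), 0) (((p.1 + k : ℕ) : ℤ), 0) := by
  intro p p' hp
  show tauB s (2 * p.1) p.2 ((p.1 : ℤ), 0) (((p.1 + k : ℕ) : ℤ), 0) ≤
    tauB s (2 * p'.1) p'.2 ((p'.1 : ℤ), 0) (((p'.1 + k : ℕ) : ℤ), 0)
  have h1 : Monotone fun j : ℕ =>
      tauB s (2 * j) p.2 ((j : ℤ), 0) (((j + k : ℕ) : ℤ), 0) := by
    refine monotone_nat_of_le_succ (fun j => ?_)
    have h2 := tauB_shift hs (2 * j) p.2 (j : ℤ) 0 ((j + k : ℕ) : ℤ) 0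
    have h3 : (j : ℤ) + 1 = ((j + 1 : ℕ) : ℤ) := by push_cast; ring
    have h4 : ((j + k : ℕ) : ℤ) + 1 = ((j + 1 + k : ℕ) : ℤ) := by push_cast; ring
    rw [h3, h4] at h2
    exact h2.trans (tauB_mono hs (by omega) le_rfl _ _)
  exact (h1 hp.1).trans (tauB_mono hs le_rfl hp.2 _ _)

private theorem qhalfa_bdd {s : ℝ} (hs : 1 ≤ s) (k : ℕ) :
    BddAbove (Set.range fun p : ℕ × ℕ =>
      tauB s (2 * p.1) p.2 ((p.1 : ℤ), 0) (((p.1 + k : ℕ) : ℤ), 0)) := by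
  refine ⟨1, ?_⟩
  rintro _ ⟨p, rfl⟩
  exact tau_le_one (by linarith) _ _ _ _

private theorem qhalfa_shift {s : ℝ} (hs : 1 ≤ s) (m n : ℕ) (x y x' y' : ℤ) (j : ℕ) :
    tauB s m n (x, y) (x', y') ≤ tauB s (m + j) n (x + j, y) (x' + j, y') := by
  induction j with
  | zero => simp
  | succ j ih =>
    refine ih.trans ?_
    have h := tauB_shift hs (m + j) n (x + j) y (x' + j) y'
    have h1 : x + (j : ℤ) + 1 = x + ((j + 1 : ℕ) : ℤ) := by push_cast; ring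
    have h2 : x' + (j : ℤ) + 1 = x' + ((j + 1 : ℕ) : ℤ) := by push_cast; ring
    rw [h1, h2] at h
    exact h

private theorem qhalfa_box {s : ℝ} (hs : 1 ≤ s) (m n a k : ℕ) :
    tauB s m n ((a : ℤ), 0) (((a + k : ℕ) : ℤ), 0) ≤ half s k := by
  have h1 := qhalfa_shift hs m n (a : ℤ) 0 ((a + k : ℕ) : ℤ) 0 m
  have h2 : (a : ℤ) + (m : ℤ) = ((a + m : ℕ) : ℤ) := by push_cast; ring
  have h3 : ((a + k : ℕ) : ℤ) + (m : ℤ) = ((a + m + k : ℕ) : ℤ) := by push_cast; ring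
  rw [h2, h3] at h1
  refine h1.trans ((tauB_mono hs (show m + m ≤ 2 * (a + m) by omega) le_rfl _ _).trans ?_)
  exact le_ciSup (qhalfa_bdd hs k) ((a + m, n) : ℕ × ℕ)

private theorem qhalfa_nonneg {s : ℝ} (hs : 1 ≤ s) (k : ℕ) : 0 ≤ half s k :=
  (tau_nonneg (by linarith) _ _ _ _).trans (qhalfa_box hs 0 0 0 k)

theorem quad_le_half {s : ℝ} (hs : 1 ≤ s) (a k : ℕ) : quad s a (a + k) ≤ half s k := by
  unfold quad
  exact ciSup_le (fun p => qhalfa_box hs p.1 p.2 a k)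

theorem quad_left_le_half {s : ℝ} (hs : 1 ≤ s) {a k : ℕ} (hk : k ≤ a) :
    quad s a (a - k) ≤ half s k := by
  unfold quad
  refine ciSup_le (fun p => ?_)
  obtain ⟨m, n⟩ := p
  show tauB s m n ((a : ℤ), 0) (((a - k : ℕ) : ℤ), 0) ≤ half s k
  by_cases hk0 : k = 0
  · subst hk0
    have h := qhalfa_box hs m n a 0
    simpa using h
  by_cases ham : a ≤ m
  · rw [tauB_reflect]
    have h1 : (m : ℤ) - (a : ℤ) = ((m - a : ℕ) : ℤ) := by
      rw [Nat.cast_sub ham]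
    have h2 : (m : ℤ) - ((a - k : ℕ) : ℤ) = ((m - a + k : ℕ) : ℤ) := by
      rw [Nat.cast_sub hk, Nat.cast_add, Nat.cast_sub ham]
      ring
    rw [h1, h2]
    exact qhalfa_box hs m n (m - a) k
  · have h1 : ((a : ℤ), (0 : ℤ)) ∉ verts m n := by
      simp only [verts, mem_product, mem_Icc]
      omega
    have h2 : (((a - k : ℕ) : ℤ), (0 : ℤ)) ≠ ((a : ℤ), 0) := by
      intro h
      have h3 : ((a - k : ℕ) : ℤ) = (a : ℤ) := congrArg Prod.fst h
      omega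
    rw [tauB_out s m n h1 h2]
    exact qhalfa_nonneg hs k

private theorem qhalfa_quad {s : ℝ} (hs : 1 ≤ s) (a x m n : ℕ) :
    tauB s m n ((a : ℤ), 0) ((x : ℤ), 0) ≤ quad s a x := by
  refine le_ciSup (f := fun p : ℕ × ℕ => tauB s p.1 p.2 ((a : ℤ), 0) ((x : ℤ), 0)) ?_
    ((m, n) : ℕ × ℕ)
  refine ⟨1, ?_⟩
  rintro _ ⟨p, rfl⟩
  exact tau_le_one (by linarith) _ _ _ _

theorem half_le_right {s : ℝ} (hs : 1 ≤ s) (p n k : ℕ) :
    tauB s (2 * p) n ((p : ℤ), 0) (((p + k : ℕ) : ℤ), 0) ≤ quad s p (p + k) :=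
  qhalfa_quad hs p (p + k) (2 * p) n

theorem half_le_left {s : ℝ} (hs : 1 ≤ s) (p n : ℕ) {k : ℕ} (hk : k ≤ p) :
    tauB s (2 * p) n ((p : ℤ), 0) (((p + k : ℕ) : ℤ), 0) ≤ quad s p (p - k) := by
  rw [tauB_reflect]
  have h1 : ((2 * p : ℕ) : ℤ) - (p : ℤ) = (p : ℤ) := by push_cast; ring
  have h2 : ((2 * p : ℕ) : ℤ) - ((p + k : ℕ) : ℤ) = ((p - k : ℕ) : ℤ) := by
    rw [Nat.cast_sub hk]
    push_cast
    ring
  rw [h1, h2]
  exact qhalfa_quad hs p (p - k) (2 * p) n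

end FKI
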