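import Pool.Agent.Lib.MP_216314_pr.QHalfA

/-!
# JOB QHalfB: the half plane, the identity

* `half_key`: suppose `half s (k+1)` is summable with sum `X`. Put `R a = ∑' k, quad s a (a+1+k)`, `Lf a = ∑_{x<a} quad s a x`. Then `R a ≤ X`, `Lf a ≤ X`
  (`quad_le_half`, reindex `x = a - k - 1`). Conversely for every `K` and `p, n` with `p ≥ K`: `R p ≥ ∑_{k<K} tauB s (2p) n (p,0) (p+k+1,0)` and the same for `Lf p`;
  given `ε` choose `K` with `∑_{k<K} half s (k+1) > X - ε` and then `p, n` large: `R p, Lf p ≥ X - 2ε`. With `quad_start`: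
  `(s^2-1) R p - Lf p = 1 + s` for all `p`, so `(s^2-2) X = 1 + s`.
-/

set_option autoImplicit false

noncomputable section

namespace FKI

open Finset Filter Topology

theorem qhalfb_quad_nonneg {s : ℝ} (hs : 0 < s) (a x : ℕ) : 0 ≤ quad s a x :=
  Real.iSup_nonneg fun _ => tau_nonneg hs _ _ _ _

theorem qhalfb_half_nonneg {s : ℝ} (hs : 0 < s) (k : ℕ) : 0 ≤ half s k :=
  Real.iSup_nonneg fun _ => tau_nonneg hs _ _ _ _

/-- the partial sums of the half plane function are approximated in a box -/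
theorem qhalfb_approx {s : ℝ} (hs : 1 ≤ s) (K : ℕ) {δ : ℝ}
    (hδ : δ < ∑ k ∈ range K, half s (k + 1)) : ∃ p n : ℕ, K ≤ p ∧
      δ < ∑ k ∈ range K, tauB s (2 * p) n ((p : ℤ), 0) (((p + (k + 1) : ℕ) : ℤ), 0) := by
  have h0 : 0 < s := by linarith
  have h1 : Tendsto (fun p : ℕ × ℕ => ∑ k ∈ range K,
      tauB s (2 * p.1) p.2 ((p.1 : ℤ), 0) (((p.1 + (k + 1) : ℕ) : ℤ), 0)) atTop
      (𝓝 (∑ k ∈ range K, half s (k + 1))) := by
    refine tendsto_finsetSum _ fun k _ => ?_
    refine tendsto_atTop_ciSup (half_mono hs (k + 1)) ⟨1, ?_⟩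
    rintro _ ⟨p, rfl⟩
    exact tau_le_one h0 _ _ _ _
  have h2 := h1.eventually (lt_mem_nhds hδ)
  have h3 : ∀ᶠ p : ℕ × ℕ in atTop, K ≤ p.1 := by
    filter_upwards [eventually_ge_atTop (K, 0)] with p hp
    exact hp.1
  obtain ⟨p, hp, hpK⟩ := (h2.and h3).exists
  exact ⟨p.1, p.2, hpK, hp⟩

theorem half_key {s : ℝ} (hs : 1 < s) (h : Summable fun k : ℕ => half s (k + 1)) :
    (s ^ 2 - 2) * ∑' k : ℕ, half s (k + 1) = 1 + s := by
  have h0 : 0 < s := by linarith
  have hs2 : 0 < s ^ 2 - 1 := by nlinarith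
  set X := ∑' k : ℕ, half s (k + 1) with hX
  have key : ∀ ε : ℝ, 0 < ε → |(s ^ 2 - 2) * X - (1 + s)| ≤ s ^ 2 * ε := by
    intro ε hε
    have h1 : ∀ᶠ K : ℕ in atTop, X - ε < ∑ k ∈ range K, half s (k + 1) :=
      h.hasSum.tendsto_sum_nat.eventually (lt_mem_nhds (by linarith))
    obtain ⟨K, hK⟩ := h1.exists
    obtain ⟨p, n, hKp, h2⟩ := qhalfb_approx hs.le K hK
    have hst := quad_start hs p
    set Lf := ∑ x ∈ range p, quad s p x with hLf
    set R := ∑' k : ℕ, quad s p (p + 1 + k) with hR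
    have h3 : (s ^ 2 - 1) * R = 1 + s + Lf := by
      rw [hR, hst.tsum_eq]
      field_simp
    -- upper bounds
    have e1 : ∀ k : ℕ, p + 1 + k = p + (k + 1) := fun k => by ring
    have h4 : R ≤ X := by
      refine hst.summable.tsum_le_tsum (fun k => ?_) h
      rw [e1]
      exact quad_le_half hs.le p (k + 1)
    have e2 : Lf = ∑ k ∈ range p, quad s p (p - (k + 1)) := by
      rw [hLf, ← Finset.sum_range_reflect]
      refine Finset.sum_congr rfl fun k _ => ?_
      congr 1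
      omega
    have h5 : Lf ≤ X := by
      rw [e2]
      calc ∑ k ∈ range p, quad s p (p - (k + 1)) ≤ ∑ k ∈ range p, half s (k + 1) :=
            Finset.sum_le_sum fun k hk =>
              quad_left_le_half hs.le (Nat.succ_le_of_lt (Finset.mem_range.1 hk))
        _ ≤ X := h.sum_le_tsum _ fun k _ => qhalfb_half_nonneg h0 _
    -- lower bounds
    have h6 : X - ε < R := by
      refine h2.trans_le ?_
      calc ∑ k ∈ range K, tauB s (2 * p) n ((p : ℤ), 0) (((p + (k + 1) : ℕ) : ℤ), 0)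
          ≤ ∑ k ∈ range K, quad s p (p + 1 + k) := Finset.sum_le_sum fun k _ => by
            rw [e1]
            exact half_le_right hs.le p n (k + 1)
        _ ≤ R := hst.summable.sum_le_tsum _ fun k _ => qhalfb_quad_nonneg h0 _ _
    have h7 : X - ε < Lf := by
      refine h2.trans_le ?_
      rw [e2]
      calc ∑ k ∈ range K, tauB s (2 * p) n ((p : ℤ), 0) (((p + (k + 1) : ℕ) : ℤ), 0)
          ≤ ∑ k ∈ range K, quad s p (p - (k + 1)) := Finset.sum_le_sum fun k hk =>
            half_le_left hs.le p n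
              ((Nat.succ_le_of_lt (Finset.mem_range.1 hk)).trans hKp)
        _ ≤ ∑ k ∈ range p, quad s p (p - (k + 1)) :=
            Finset.sum_le_sum_of_subset_of_nonneg (Finset.range_subset_range.2 hKp)
              fun k _ _ => qhalfb_quad_nonneg h0 _ _
    have e3 : (s ^ 2 - 2) * X - (1 + s) = (s ^ 2 - 1) * (X - R) - (X - Lf) := by
      linear_combination h3
    rw [e3, abs_le]
    have h8 : 0 ≤ (s ^ 2 - 1) * (X - R) := mul_nonneg hs2.le (by linarith)
    have h9 : (s ^ 2 - 1) * (X - R) ≤ (s ^ 2 - 1) * ε :=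
      mul_le_mul_of_nonneg_left (by linarith) hs2.le
    constructor <;> nlinarith
  have h10 : |(s ^ 2 - 2) * X - (1 + s)| ≤ 0 := by
    refine le_of_forall_pos_le_add fun ε hε => ?_
    have h11 := key (ε / s ^ 2) (by positivity)
    have e4 : s ^ 2 * (ε / s ^ 2) = ε := by field_simp
    rw [e4] at h11
    linarith
  have h12 := abs_nonpos_iff.1 h10
  linarith

end FKI
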