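import Pool.Agent.Lib.MP_216314_pr.QHalfB

/-!
# JOB QHalfC: the half plane, conclusion

* `half_sum` (`s^2 > 2`): boundedness: `ruleB` in the box `(2p, n)` with `a = p`; `sBL s (2p) n p = sBR s (2p) n p` (`tauB_reflect`), so
  `(s^2-2) sBR ≤ 1 + s`: the partial sums of `half s (k+1)` are bounded, hence it is summable, and `half_key` gives the value.
* `half_div` (`1 ≤ s`, `s^2 ≤ 2`): for `s > 1` `half_key` would give `0 ≥ (s^2-2) X = 1 + s > 0`. For `s = 1`: `quad 1 0 (k+1) ≤ half 1 (k+1)` and `quad_one`.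
-/

set_option autoImplicit false

noncomputable section

namespace FKI

open Finset Filter Topology

theorem qhalfc_tauB_nonneg {s : ℝ} (hs : 0 < s) (m n : ℕ) (u v : V) : 0 ≤ tauB s m n u v :=
  tau_nonneg hs _ _ _ _

theorem qhalfc_tauB_le_one {s : ℝ} (hs : 0 < s) (m n : ℕ) (u v : V) : tauB s m n u v ≤ 1 :=
  tau_le_one hs _ _ _ _

theorem qhalfc_half_nonneg {s : ℝ} (hs : 0 < s) (k : ℕ) : 0 ≤ half s k :=
  Real.iSup_nonneg fun _ => qhalfc_tauB_nonneg hs _ _ _ _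

theorem qhalfc_quad_nonneg {s : ℝ} (hs : 0 < s) (a x : ℕ) : 0 ≤ quad s a x :=
  Real.iSup_nonneg fun _ => qhalfc_tauB_nonneg hs _ _ _ _

theorem qhalfc_sBL_eq (s : ℝ) (p n : ℕ) : sBL s (2 * p) n p = sBR s (2 * p) n p := by
  unfold sBL sBR
  refine Finset.sum_bij' (fun x _ => 2 * (p : ℤ) - x) (fun x _ => 2 * (p : ℤ) - x) ?_ ?_ ?_ ?_ ?_
  · intro x hx
    rw [mem_Ico] at hx
    rw [mem_Ioc]
    push_cast
    omega
  · intro x hx
    rw [mem_Ioc] at hx
    push_cast at hx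
    rw [mem_Ico]
    omega
  · intro x _
    ring
  · intro x _
    ring
  · intro x _
    rw [tauB_reflect]
    have e : ((2 * p : ℕ) : ℤ) - (p : ℤ) = (p : ℤ) := by push_cast; ring
    have e' : ((2 * p : ℕ) : ℤ) - x = 2 * (p : ℤ) - x := by push_cast; ring
    rw [e, e']

theorem qhalfc_sBR_range (s : ℝ) (p n : ℕ) :
    sBR s (2 * p) n p = ∑ k ∈ range p,
      tauB s (2 * p) n ((p : ℤ), 0) (((p + (k + 1) : ℕ) : ℤ), 0) := by
  unfold sBR
  symm
  refine Finset.sum_bij' (fun k _ => ((p + (k + 1) : ℕ) : ℤ)) (fun x _ => (x - p - 1).toNat)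
    ?_ ?_ ?_ ?_ ?_
  · intro k hk
    rw [mem_range] at hk
    rw [mem_Ioc]
    push_cast
    omega
  · intro x hx
    rw [mem_Ioc] at hx
    push_cast at hx
    rw [mem_range]
    omega
  · intro k _
    push_cast
    omega
  · intro x hx
    rw [mem_Ioc] at hx
    push_cast at hx
    push_cast
    omega
  · intro k _
    rfl

theorem qhalfc_bound {s : ℝ} (hs : 1 < s) (hs2 : 2 < s ^ 2) (p n : ℕ) :
    sBR s (2 * p) n p ≤ (1 + s) / (s ^ 2 - 2) := by
  have h0 : 0 < s := by linarith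
  have h := ruleB h0 (m := 2 * p) (n := n) (a := (p : ℤ)) (by omega) (by push_cast; omega)
  rw [qhalfc_sBL_eq] at h
  have hT : 0 ≤ sT s (2 * p) n p := sum_nonneg fun _ _ => qhalfc_tauB_nonneg h0 _ _ _ _
  have hR : 0 ≤ sR s (2 * p) n p := sum_nonneg fun _ _ => qhalfc_tauB_nonneg h0 _ _ _ _
  have hR' := mul_nonneg h0.le hR
  rw [le_div_iff₀ (by linarith)]
  nlinarith

theorem qhalfc_partial {s : ℝ} (hs : 1 < s) (hs2 : 2 < s ^ 2) (K : ℕ) :
    ∑ k ∈ range K, half s (k + 1) ≤ (1 + s) / (s ^ 2 - 2) := by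
  have h0 : 0 < s := by linarith
  have ht : Tendsto (fun p : ℕ × ℕ => ∑ k ∈ range K,
      tauB s (2 * p.1) p.2 ((p.1 : ℤ), 0) (((p.1 + (k + 1) : ℕ) : ℤ), 0)) atTop
      (𝓝 (∑ k ∈ range K, half s (k + 1))) := by
    refine tendsto_finsetSum _ fun k _ => ?_
    exact tendsto_atTop_ciSup (half_mono hs.le (k + 1))
      ⟨1, by rintro _ ⟨p, rfl⟩; exact qhalfc_tauB_le_one h0 _ _ _ _⟩
  refine le_of_tendsto ht ?_
  filter_upwards [eventually_ge_atTop ((K, 0) : ℕ × ℕ)] with p hp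
  have hp1 : K ≤ p.1 := hp.1
  refine le_trans ?_ (qhalfc_bound hs hs2 p.1 p.2)
  rw [qhalfc_sBR_range]
  exact sum_le_sum_of_subset_of_nonneg (range_mono hp1)
    fun _ _ _ => qhalfc_tauB_nonneg h0 _ _ _ _

theorem half_sum {s : ℝ} (hs : 1 < s) (hs2 : 2 < s ^ 2) :
    HasSum (fun k : ℕ => half s (k + 1)) ((1 + s) / (s ^ 2 - 2)) := by
  have h0 : 0 < s := by linarith
  have hS : Summable fun k : ℕ => half s (k + 1) :=
    summable_of_sum_range_le (fun k => qhalfc_half_nonneg h0 _) (qhalfc_partial hs hs2)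
  have hk := half_key hs hS
  have he : (1 + s) / (s ^ 2 - 2) = ∑' k : ℕ, half s (k + 1) := by
    rw [div_eq_iff (by linarith)]
    linarith
  rw [he]
  exact hS.hasSum

theorem half_div {s : ℝ} (hs : 1 ≤ s) (hs2 : s ^ 2 ≤ 2) :
    ¬ Summable fun k : ℕ => half s (k + 1) := by
  intro hS
  have h0 : 0 < s := by linarith
  rcases hs.lt_or_eq with h1 | h1
  · have hk := half_key h1 hS
    have hX : 0 ≤ ∑' k : ℕ, half s (k + 1) := tsum_nonneg fun k => qhalfc_half_nonneg h0 _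
    nlinarith
  · subst h1
    refine quad_one (Summable.of_nonneg_of_le (fun k => qhalfc_quad_nonneg h0 _ _) (fun k => ?_) hS)
    have := quad_le_half (s := 1) le_rfl 0 (k + 1)
    rwa [Nat.zero_add] at this

end FKI
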