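import Mathlib

/-!
# JOB QLim: monotone families (pure analysis)

`f i k`, `i ∈ ℕ × ℕ`, is nondecreasing in `i` (product order) with values in `[0,1]`, `N i` is nondecreasing and tends to infinity,
`S i = ∑_{k < N i} f i k` (nondecreasing).
* `tendsto_atTop_ciSup` gives `f i k → c k := ⨆ i, f i k`.
* `hasSum_of_tendsto`: every partial sum `∑_{k < K} c k` is the limit of `∑_{k < K} f i k ≤ S i` (for `N i ≥ K`), so `≤ L` (`S` is nondecreasing so `S i ≤ L`);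
  conversely `S i ≤ ∑_{k < N i} c k ≤ ∑' c`, so `L ≤ ∑' c`. `summable_of_sum_range_le`, `Real.tsum_le_of_sum_range_le`.
* `le_tsum_sup`: `S i ≤ ∑_{k < N i} c k ≤ ∑' c`.
* `exists_limit`: monotone and bounded.
-/

set_option autoImplicit false

noncomputable section

namespace FKI

open Finset Filter Topology

theorem sum_range_mono {f : ℕ × ℕ → ℕ → ℝ} (h0 : ∀ i k, 0 ≤ f i k)
    (hm : ∀ k, Monotone fun i => f i k) {N : ℕ × ℕ → ℕ} (hN : Monotone N) :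
    Monotone fun i => ∑ k ∈ range (N i), f i k := by
  intro i j hij
  calc ∑ k ∈ range (N i), f i k ≤ ∑ k ∈ range (N i), f j k := sum_le_sum fun k _ => hm k hij
    _ ≤ ∑ k ∈ range (N j), f j k :=
        sum_le_sum_of_subset_of_nonneg (range_subset_range.2 (hN hij)) fun k _ _ => h0 j k

lemma qlim_bdd {f : ℕ × ℕ → ℕ → ℝ} (h1 : ∀ i k, f i k ≤ 1) (k : ℕ) :
    BddAbove (Set.range fun i => f i k) := by
  refine ⟨1, ?_⟩
  rintro _ ⟨i, rfl⟩
  exact h1 i k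

theorem le_tsum_sup {f : ℕ × ℕ → ℕ → ℝ} (h0 : ∀ i k, 0 ≤ f i k) (h1 : ∀ i k, f i k ≤ 1)
    (N : ℕ × ℕ → ℕ) (hs : Summable fun k => ⨆ i, f i k) (i : ℕ × ℕ) :
    ∑ k ∈ range (N i), f i k ≤ ∑' k, ⨆ i, f i k := by
  have hle : ∀ k, f i k ≤ ⨆ j, f j k := fun k => le_ciSup (qlim_bdd h1 k) i
  calc ∑ k ∈ range (N i), f i k ≤ ∑ k ∈ range (N i), ⨆ j, f j k := sum_le_sum fun k _ => hle k
    _ ≤ ∑' k, ⨆ j, f j k := hs.sum_le_tsum _ fun k _ => (h0 i k).trans (hle k)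

theorem hasSum_of_tendsto {f : ℕ × ℕ → ℕ → ℝ} (h0 : ∀ i k, 0 ≤ f i k) (h1 : ∀ i k, f i k ≤ 1)
    (hm : ∀ k, Monotone fun i => f i k) {N : ℕ × ℕ → ℕ} (hN : Monotone N)
    (hN' : Tendsto N atTop atTop) {L : ℝ}
    (hL : Tendsto (fun i => ∑ k ∈ range (N i), f i k) atTop (𝓝 L)) :
    HasSum (fun k => ⨆ i, f i k) L := by
  have hc0 : ∀ k, 0 ≤ ⨆ i, f i k := fun k => (h0 (0, 0) k).trans (le_ciSup (qlim_bdd h1 k) (0, 0))
  have hpart : ∀ K, ∑ k ∈ range K, ⨆ i, f i k ≤ L := by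
    intro K
    have ht : Tendsto (fun i => ∑ k ∈ range K, f i k) atTop (𝓝 (∑ k ∈ range K, ⨆ i, f i k)) :=
      tendsto_finsetSum _ fun k _ => tendsto_atTop_ciSup (hm k) (qlim_bdd h1 k)
    refine le_of_tendsto_of_tendsto ht hL ?_
    filter_upwards [hN'.eventually_ge_atTop K] with i hi
    exact sum_le_sum_of_subset_of_nonneg (range_subset_range.2 hi) fun k _ _ => h0 i k
  have hs : Summable fun k => ⨆ i, f i k := summable_of_sum_range_le hc0 hpart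
  have h2 : ∑' k, ⨆ i, f i k ≤ L := Real.tsum_le_of_sum_range_le hc0 hpart
  have h3 : L ≤ ∑' k, ⨆ i, f i k := le_of_tendsto' hL fun i => le_tsum_sup h0 h1 N hs i
  have h4 := hs.hasSum
  rwa [le_antisymm h2 h3] at h4

theorem exists_limit {S : ℕ × ℕ → ℝ} (hS : Monotone S) {C : ℝ} (hC : ∀ i, S i ≤ C) :
    ∃ L, Tendsto S atTop (𝓝 L) ∧ (∀ i, S i ≤ L) := by
  have hb : BddAbove (Set.range S) := by
    refine ⟨C, ?_⟩
    rintro _ ⟨i, rfl⟩
    exact hC i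
  exact ⟨⨆ i, S i, tendsto_atTop_ciSup hS hb, fun i => le_ciSup hb i⟩

/-- a bounded monotone double sequence: iterated limits -/
theorem iter_limit {S : ℕ × ℕ → ℝ} (hS : Monotone S) {L : ℝ} (hL : Tendsto S atTop (𝓝 L))
    {A B : ℕ → ℝ} (hA : ∀ n, Tendsto (fun m => S (m, n)) atTop (𝓝 (A n)))
    (hB : ∀ n, Tendsto (fun m => S (n, m)) atTop (𝓝 (B n))) :
    Tendsto A atTop (𝓝 L) ∧ Tendsto B atTop (𝓝 L) := by
  have hle : ∀ i, S i ≤ L := fun i => hS.ge_of_tendsto hL i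
  have hd : Tendsto (fun n => S (n, n)) atTop (𝓝 L) := hL.comp tendsto_atTop_diagonal
  have hA1 : ∀ n, A n ≤ L := fun n => le_of_tendsto' (hA n) fun m => hle (m, n)
  have hB1 : ∀ n, B n ≤ L := fun n => le_of_tendsto' (hB n) fun m => hle (n, m)
  have hA2 : ∀ n, S (n, n) ≤ A n := by
    intro n
    refine ge_of_tendsto (hA n) ?_
    filter_upwards [eventually_ge_atTop n] with m hm
    exact hS (Prod.mk_le_mk.2 ⟨hm, le_rfl⟩)
  have hB2 : ∀ n, S (n, n) ≤ B n := by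
    intro n
    refine ge_of_tendsto (hB n) ?_
    filter_upwards [eventually_ge_atTop n] with m hm
    exact hS (Prod.mk_le_mk.2 ⟨le_rfl, hm⟩)
  exact ⟨tendsto_of_tendsto_of_tendsto_of_le_of_le hd tendsto_const_nhds hA2 hA1,
    tendsto_of_tendsto_of_tendsto_of_le_of_le hd tendsto_const_nhds hB2 hB1⟩

end FKI
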