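import Pool.Agent.Lib.MP_216314_pr.QHalfC

/-!
# Assembly of the second hand-in
-/

set_option autoImplicit false

noncomputable section

namespace FKI

open Finset Filter Topology

open Classical in
/-- probability that `u` and `v` are connected in the critical random-cluster model (cluster weight `q`)
with free boundary conditions in the box `[0,m] × [0,n]` -/
def prob (q : ℝ) (m n : ℕ) (u v : V) : ℝ :=
  (∑ ω ∈ (edges m n).powerset, wt q m n ω * (if (gr ω).Reachable u v then 1 else 0)) /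
    ∑ ω ∈ (edges m n).powerset, wt q m n ω

theorem prob_eq {q : ℝ} (hq : 0 ≤ q) (m n : ℕ) (u v : V) :
    prob q m n u v = tauB (Real.sqrt q) m n u v := by
  have h : ∀ ω, wk (Real.sqrt q) (verts m n) ω = wt q m n ω := by
    intro ω
    unfold wk wt
    rw [Real.sq_sqrt hq]
    rfl
  unfold prob tauB tau ex ZZ con
  simp only [h]

theorem tendsto_sup {f : ℕ × ℕ → ℝ} (hf : Monotone f) (h1 : ∀ i, f i ≤ 1) :
    Tendsto f atTop (𝓝 (⨆ i, f i)) :=
  tendsto_atTop_ciSup hf ⟨1, by rintro _ ⟨i, rfl⟩; exact h1 i⟩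

theorem quad_tendsto {s : ℝ} (hs : 1 ≤ s) (a x : ℕ) :
    Tendsto (fun p : ℕ × ℕ => tauB s p.1 p.2 ((a : ℤ), 0) ((x : ℤ), 0)) atTop
      (𝓝 (quad s a x)) :=
  tendsto_sup (fun _ _ h => tauB_mono hs h.1 h.2 _ _)
    (fun _ => tau_le_one (by linarith) _ _ _ _)

theorem half_tendsto {s : ℝ} (hs : 1 ≤ s) (k : ℕ) :
    Tendsto (fun p : ℕ × ℕ => tauB s (2 * p.1) p.2 ((p.1 : ℤ), 0) (((p.1 + k : ℕ) : ℤ), 0))
      atTop (𝓝 (half s k)) :=
  tendsto_sup (half_mono hs k) (fun _ => tau_le_one (by linarith) _ _ _ _)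

theorem main_quad {q : ℝ} (hq : 1 < q) :
    ∃ c : ℕ → ℕ → ℝ,
      (∀ a x : ℕ, Tendsto (fun p : ℕ × ℕ => prob q p.1 p.2 ((a : ℤ), 0) ((x : ℤ), 0)) atTop
        (𝓝 (c a x))) ∧
      HasSum (fun k => c 0 (k + 1)) (1 / (Real.sqrt q - 1)) ∧
      (∀ a, HasSum (fun k => c a (a + 1 + k))
        ((1 + Real.sqrt q + ∑ x ∈ range a, c a x) / (q - 1))) ∧
      Tendsto (fun p : ℕ × ℕ => ∑ x ∈ Icc 0 (p.1 : ℤ), prob q p.1 p.2 (0, 0) (x, (p.2 : ℤ)))
        atTop (𝓝 0) := by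
  have h0 : (0 : ℝ) ≤ q := by linarith
  have hs : 1 < Real.sqrt q := by
    rw [show (1 : ℝ) = Real.sqrt 1 by simp]
    exact Real.sqrt_lt_sqrt (by norm_num) hq
  have hsq : Real.sqrt q ^ 2 = q := Real.sq_sqrt h0
  refine ⟨quad (Real.sqrt q), ?_, quad_sum hs, ?_, ?_⟩
  · intro a x
    simp only [prob_eq h0]
    exact quad_tendsto hs.le a x
  · intro a
    have := quad_start hs a
    rwa [hsq] at this
  · simp only [prob_eq h0]
    exact (far_zero hs).1

theorem main_one :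
    ∃ c : ℕ → ℝ, (∀ x : ℕ, Tendsto (fun p : ℕ × ℕ => prob 1 p.1 p.2 (0, 0) ((x : ℤ), 0)) atTop
        (𝓝 (c x))) ∧ ¬ Summable c := by
  refine ⟨quad 1 0, ?_, ?_⟩
  · intro x
    simp only [prob_eq zero_le_one, Real.sqrt_one]
    exact quad_tendsto le_rfl 0 x
  · intro h
    exact quad_one ((summable_nat_add_iff 1).2 h)

theorem main_half {q : ℝ} (hq : 1 ≤ q) :
    ∃ h : ℕ → ℝ, (∀ k : ℕ, Tendsto (fun p : ℕ × ℕ =>
        prob q (2 * p.1) p.2 ((p.1 : ℤ), 0) (((p.1 + k : ℕ) : ℤ), 0)) atTop (𝓝 (h k))) ∧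
      (2 < q → HasSum (fun k => h (k + 1)) ((1 + Real.sqrt q) / (q - 2))) ∧
      (q ≤ 2 → ¬ Summable h) := by
  have h0 : (0 : ℝ) ≤ q := by linarith
  have hs : 1 ≤ Real.sqrt q := by
    rw [show (1 : ℝ) = Real.sqrt 1 by simp]
    exact Real.sqrt_le_sqrt hq
  have hsq : Real.sqrt q ^ 2 = q := Real.sq_sqrt h0
  refine ⟨half (Real.sqrt q), ?_, ?_, ?_⟩
  · intro k
    simp only [prob_eq h0]
    exact half_tendsto hs k
  · intro h2
    have hs1 : 1 < Real.sqrt q := by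
      rw [show (1 : ℝ) = Real.sqrt 1 by simp]
      exact Real.sqrt_lt_sqrt (by norm_num) (by linarith)
    have := half_sum hs1 (by rw [hsq]; exact h2)
    rwa [hsq] at this
  · intro h2 h
    exact half_div hs (by rw [hsq]; exact h2) ((summable_nat_add_iff 1).2 h)

end FKI
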