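import Pool.Agent.Lib.MP_216314_pr.QTau

/-!
# The sum rules for the two point function

* `rule`: `sum_rule` (file Fin) with `b = a` and the solution `g` of `exists_g s g0 g1` (file Res): `g 2 = s g 1 - g 0`, `g 3 = (s^2-1) g 1 - s g 0`,
  `g (-1) = s g 0 - g 1` (see the proof of `EE_rule` in file Res);
  `arc a a = ∅` so `cfg m n a a = (edges m n).powerset`; `nA a a ω = 0`; `wts s m n ω = wk s (verts m n) ω` by definition;
  `nT m n a ω = ∑ x ∈ Icc 0 m, con (a,0) (x,n) ω` (`Finset.sum_boole`) etc., so dividing by `ZZ` gives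
  `g 0 * sR + g 1 * sT + g 2 * sL + g 3 * sBL + g (-1) * sBR = g 0 + g 1 + g 2`.
* `ruleA`, `ruleB`: the coefficients of `g 0` and of `g 1` (`g0 = 1, g1 = 0` resp. `g0 = 0, g1 = 1`), then eliminate `sL`.
-/

set_option autoImplicit false

noncomputable section

namespace FKI

open Finset

theorem qrule_card {ι : Type*} (S : Finset ι) (u : V) (f : ι → V) (ω : Finset Edge)
    (p : DecidablePred (fun x => (gr ω).Reachable u (f x))) :
    (((@Finset.filter ι (fun x => (gr ω).Reachable u (f x)) p S).card : ℕ) : ℝ)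
      = ∑ x ∈ S, con u (f x) ω := by
  classical
  unfold con
  rw [Finset.card_filter, Nat.cast_sum]
  apply Finset.sum_congr rfl
  intro x _
  by_cases h : (gr ω).Reachable u (f x) <;> simp [h]

theorem qrule_sum {ι : Type*} (s : ℝ) (W : Finset V) (E : Finset Edge) (S : Finset ι) (u : V)
    (f : ι → V) :
    ∑ x ∈ S, tau s W E u (f x) =
      (∑ ω ∈ E.powerset, wk s W ω * ∑ x ∈ S, con u (f x) ω) / ZZ s W E := by
  unfold tau ex
  rw [← Finset.sum_div]
  congr 1
  rw [Finset.sum_comm]
  exact Finset.sum_congr rfl (fun ω _ => by rw [Finset.mul_sum])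

theorem qrule_cfg (m n : ℕ) (a : ℤ) : cfg m n a a = (edges m n).powerset := by
  unfold cfg arc
  simp

theorem qrule_nA (a : ℤ) (ω : Finset Edge) : nA a a ω = 0 := by
  unfold nA
  simp

theorem qrule_wk_pos {s : ℝ} (hs : 0 < s) (W : Finset V) (ω : Finset Edge) : 0 < wk s W ω := by
  unfold wk
  positivity

theorem qrule_ZZ_pos {s : ℝ} (hs : 0 < s) (W : Finset V) (E : Finset Edge) : 0 < ZZ s W E := by
  unfold ZZ
  exact Finset.sum_pos (fun ω _ => qrule_wk_pos hs W ω) ⟨∅, by simp⟩

theorem rule {s : ℝ} (hs : 0 < s) {m n : ℕ} {a : ℤ} (h0 : 0 ≤ a) (h1 : a ≤ m) (g0 g1 : ℝ) :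
    g0 * sR s m n a + g1 * sT s m n a + (s * g1 - g0) * sL s m n a +
      ((s ^ 2 - 1) * g1 - s * g0) * sBL s m n a + (s * g0 - g1) * sBR s m n a = (1 + s) * g1 := by
  obtain ⟨g, hg0, hg1, hg⟩ := exists_g s g0 g1
  have e2 : g 2 = s * g1 - g0 := by
    have := hg 1
    norm_num at this
    rw [hg0, hg1] at this
    linarith
  have e3 : g 3 = (s ^ 2 - 1) * g1 - s * g0 := by
    have := hg 2
    norm_num at this
    rw [hg1, e2] at this
    have h : g 3 = s * (s * g1 - g0) - g1 := by linarith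
    rw [h]
    ring
  have em : g (-1) = s * g0 - g1 := by
    have := hg 0
    norm_num at this
    rw [hg1, hg0] at this
    linarith
  have hgeo : Geo m a a := ⟨h0, le_rfl, h1⟩
  have hsum := sum_rule (m := m) (n := n) hgeo hg
  rw [qrule_cfg] at hsum
  have hw : ∀ ω, wts s m n ω = wk s (verts m n) ω := fun ω => rfl
  simp only [qrule_nA, mul_zero, sub_zero, hw] at hsum
  have hZ := qrule_ZZ_pos hs (verts m n) (edges m n)
  have hZ' : ∑ ω ∈ (edges m n).powerset, wk s (verts m n) ω = ZZ s (verts m n) (edges m n) := rfl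
  rw [hZ'] at hsum
  have fR : sR s m n a = (∑ ω ∈ (edges m n).powerset, wk s (verts m n) ω * nR m n a ω)
      / ZZ s (verts m n) (edges m n) := by
    unfold sR tauB
    rw [qrule_sum s (verts m n) (edges m n) (Icc 0 (n : ℤ)) (a, 0) (fun y => ((m : ℤ), y))]
    congr 1
    apply Finset.sum_congr rfl
    intro ω _
    unfold nR
    rw [← qrule_card]
  have fT : sT s m n a = (∑ ω ∈ (edges m n).powerset, wk s (verts m n) ω * nT m n a ω)
      / ZZ s (verts m n) (edges m n) := by
    unfold sT tauB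
    rw [qrule_sum s (verts m n) (edges m n) (Icc 0 (m : ℤ)) (a, 0) (fun x => (x, (n : ℤ)))]
    congr 1
    apply Finset.sum_congr rfl
    intro ω _
    unfold nT
    rw [← qrule_card]
  have fL : sL s m n a = (∑ ω ∈ (edges m n).powerset, wk s (verts m n) ω * nL n a ω)
      / ZZ s (verts m n) (edges m n) := by
    unfold sL tauB
    rw [qrule_sum s (verts m n) (edges m n) (Icc 0 (n : ℤ)) (a, 0) (fun y => (0, y))]
    congr 1
    apply Finset.sum_congr rfl
    intro ω _
    unfold nL
    rw [← qrule_card]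
  have fBR : sBR s m n a = (∑ ω ∈ (edges m n).powerset, wk s (verts m n) ω * nBR m a a ω)
      / ZZ s (verts m n) (edges m n) := by
    unfold sBR tauB
    rw [qrule_sum s (verts m n) (edges m n) (Ioc a (m : ℤ)) (a, 0) (fun x => (x, 0))]
    congr 1
    apply Finset.sum_congr rfl
    intro ω _
    unfold nBR
    rw [← qrule_card]
  have fBL : sBL s m n a = (∑ ω ∈ (edges m n).powerset, wk s (verts m n) ω * nBL a ω)
      / ZZ s (verts m n) (edges m n) := by
    unfold sBL tauB
    rw [qrule_sum s (verts m n) (edges m n) (Ico 0 a) (a, 0) (fun x => (x, 0))]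
    congr 1
    apply Finset.sum_congr rfl
    intro ω _
    unfold nBL
    rw [← qrule_card]
  have hdist : ∑ ω ∈ (edges m n).powerset, wk s (verts m n) ω *
      (g 0 * nR m n a ω + g 1 * nT m n a ω + g 2 * nL n a ω + g 3 * nBL a ω
        + g (-1) * nBR m a a ω) =
      g 0 * (∑ ω ∈ (edges m n).powerset, wk s (verts m n) ω * nR m n a ω)
      + g 1 * (∑ ω ∈ (edges m n).powerset, wk s (verts m n) ω * nT m n a ω)
      + g 2 * (∑ ω ∈ (edges m n).powerset, wk s (verts m n) ω * nL n a ω)
      + g 3 * (∑ ω ∈ (edges m n).powerset, wk s (verts m n) ω * nBL a ω)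
      + g (-1) * (∑ ω ∈ (edges m n).powerset, wk s (verts m n) ω * nBR m a a ω) := by
    simp only [Finset.mul_sum]
    rw [← Finset.sum_add_distrib, ← Finset.sum_add_distrib, ← Finset.sum_add_distrib,
      ← Finset.sum_add_distrib]
    exact Finset.sum_congr rfl (fun ω _ => by ring)
  rw [hdist] at hsum
  rw [fR, fT, fL, fBL, fBR, ← e2, ← e3, ← em, ← hg0, ← hg1]
  have hfin : g 0 + g 1 + g 2 = (1 + s) * g 1 := by rw [e2, hg0, hg1]; ring
  rw [← hfin]
  have hne := hZ.ne'
  field_simp
  linarith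

/-- second sum rule -/
theorem ruleA {s : ℝ} (hs : 0 < s) {m n : ℕ} {a : ℤ} (h0 : 0 ≤ a) (h1 : a ≤ m) :
    sL s m n a - sR s m n a = s * (sBR s m n a - sBL s m n a) := by
  have h := rule hs (n := n) h0 h1 1 0
  linarith

/-- combination of the two sum rules without the left side -/
theorem ruleB {s : ℝ} (hs : 0 < s) {m n : ℕ} {a : ℤ} (h0 : 0 ≤ a) (h1 : a ≤ m) :
    sT s m n a + s * sR s m n a + (s ^ 2 - 1) * sBR s m n a - sBL s m n a = 1 + s := by
  have hA := ruleA hs (n := n) h0 h1
  have h := rule hs (n := n) h0 h1 0 1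
  have hL : sL s m n a = sR s m n a + s * (sBR s m n a - sBL s m n a) := by linarith
  rw [hL] at h
  linear_combination h

end FKI
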