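import Pool.Agent.Lib.MP_216314_pr.QSym
import Pool.Agent.Lib.MP_216314_pr.QEdge
import Pool.Agent.Lib.MP_216314_pr.QRule
import Pool.Agent.Lib.MP_216314_pr.QLim

/-!
# JOB QQuadA: the quadrant, preparations

`F m n = sBR s m n 0` (expected number of vertices of the bottom side, without the corner, connected to the corner).
* `sBR_zero`: `Finset.sum_bij`/`Finset.sum_image`-type reindexing `x = k + 1`.
* `transp`: `ruleA` with `a = 0`: `sBL s m n 0 = 0` (`Ico 0 0 = ∅`) and `sL s m n 0 = 1 + sBR s n m 0` (`tauB_transpose`, the term `y = 0` is `tau_self`).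
* `F_mono`: `tauB_mono` and more (nonnegative) terms.
* `sR_zero`: if `F` is bounded by `C`: for fixed `n`, `c k = ⨆ m, tauB s m n (0,0) (k,0)` has all partial sums `≤ C`, so it is summable and tends to `0`;
  `tauB s m n (0,0) (m,0) ≤ c m → 0`. By `tau_tri` and `tau_col`, for `0 ≤ y ≤ n`:
  `tauB (0,0) (m,y) * (1/(1+s))^y ≤ tauB (0,0) (m,0)`, so `sR s m n 0 ≤ (n+1) (1+s)^n tauB s m n (0,0) (m,0) → 0`.
-/

set_option autoImplicit false

noncomputable section

namespace FKI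

open Finset Filter Topology

/-- two point function of the critical random-cluster model in the quadrant (free boundary conditions):
the probability that the boundary vertices `(a,0)` and `(x,0)` are connected -/
def quad (s : ℝ) (a x : ℕ) : ℝ := ⨆ p : ℕ × ℕ, tauB s p.1 p.2 ((a : ℤ), 0) ((x : ℤ), 0)

private theorem qquada_reindex (a m : ℕ) (f : ℤ → ℝ) :
    ∑ x ∈ Ioc (a : ℤ) ((a + m : ℕ) : ℤ), f x = ∑ k ∈ range m, f (((a + k + 1 : ℕ) : ℤ)) := by
  symm
  refine Finset.sum_bij (fun k _ => ((a + k + 1 : ℕ) : ℤ)) ?_ ?_ ?_ ?_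
  · intro k hk
    rw [Finset.mem_range] at hk
    rw [Finset.mem_Ioc]
    constructor <;> push_cast <;> omega
  · intro x _ y _ h
    have h' : ((a + x + 1 : ℕ) : ℤ) = ((a + y + 1 : ℕ) : ℤ) := h
    push_cast at h'
    omega
  · intro x hx
    rw [Finset.mem_Ioc] at hx
    refine ⟨(x - 1 - a).toNat, ?_, ?_⟩
    · rw [Finset.mem_range]
      push_cast at hx
      omega
    · push_cast
      push_cast at hx
      omega
  · intro k _
    rfl

theorem sBR_zero (s : ℝ) (m n : ℕ) :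
    sBR s m n 0 = ∑ k ∈ range m, tauB s m n (0, 0) (((k + 1 : ℕ) : ℤ), 0) := by
  have h := qquada_reindex 0 m (fun x => tauB s m n (0, 0) (x, 0))
  simp only [Nat.zero_add, Nat.cast_zero] at h
  exact h

theorem transp {s : ℝ} (hs : 0 < s) (m n : ℕ) :
    1 + sBR s n m 0 - sR s m n 0 = s * sBR s m n 0 := by
  have h := ruleA hs (m := m) (n := n) (a := 0) le_rfl (by positivity)
  have h1 : sBL s m n 0 = 0 := by
    unfold sBL
    simp
  have h2 : sL s m n 0 = 1 + sBR s n m 0 := by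
    unfold sL sBR
    rw [← Finset.Ioc_insert_left (show (0 : ℤ) ≤ (n : ℤ) by positivity),
      Finset.sum_insert (by simp)]
    have h3 : tauB s m n (0, 0) (0, 0) = 1 := tau_self hs _ _ _
    rw [h3]
    congr 1
    refine Finset.sum_congr rfl ?_
    intro y _
    exact tauB_transpose s m n 0 0 0 y
  rw [h1, h2, sub_zero] at h
  exact h

theorem F_mono {s : ℝ} (hs : 1 ≤ s) : Monotone fun p : ℕ × ℕ => sBR s p.1 p.2 0 := by
  intro p p' hp
  show sBR s p.1 p.2 0 ≤ sBR s p'.1 p'.2 0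
  rw [sBR_zero, sBR_zero]
  have hs0 : 0 < s := by linarith
  calc ∑ k ∈ range p.1, tauB s p.1 p.2 (0, 0) (((k + 1 : ℕ) : ℤ), 0)
      ≤ ∑ k ∈ range p.1, tauB s p'.1 p'.2 (0, 0) (((k + 1 : ℕ) : ℤ), 0) :=
        Finset.sum_le_sum (fun k _ => tauB_mono hs hp.1 hp.2 _ _)
    _ ≤ ∑ k ∈ range p'.1, tauB s p'.1 p'.2 (0, 0) (((k + 1 : ℕ) : ℤ), 0) :=
        Finset.sum_le_sum_of_subset_of_nonneg
          (Finset.range_subset_range.2 hp.1) (fun k _ _ => tau_nonneg hs0 _ _ _ _)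

theorem sR_zero {s : ℝ} (hs : 1 ≤ s) {C : ℝ} (hC : ∀ m n, sBR s m n 0 ≤ C) (n : ℕ) :
    Tendsto (fun m => sR s m n 0) atTop (𝓝 0) := by
  have hs0 : 0 < s := by linarith
  set c : ℕ → ℝ := fun k => ⨆ m : ℕ, tauB s m n (0, 0) ((k : ℤ), 0) with hc
  have hbdd : ∀ k : ℕ, BddAbove (Set.range fun m : ℕ => tauB s m n (0, 0) ((k : ℤ), 0)) := by
    intro k
    refine ⟨1, ?_⟩
    rintro _ ⟨m, rfl⟩
    exact tau_le_one hs0 _ _ _ _
  have hmon : ∀ k : ℕ, Monotone fun m : ℕ => tauB s m n (0, 0) ((k : ℤ), 0) :=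
    fun k a b hab => tauB_mono hs hab le_rfl _ _
  have hle : ∀ m k : ℕ, tauB s m n (0, 0) ((k : ℤ), 0) ≤ c k :=
    fun m k => le_ciSup (hbdd k) m
  have hc0 : ∀ k, 0 ≤ c k := fun k => (tau_nonneg hs0 _ _ _ _).trans (hle 0 k)
  have htend : ∀ k : ℕ, Tendsto (fun m : ℕ => tauB s m n (0, 0) ((k : ℤ), 0)) atTop (𝓝 (c k)) :=
    fun k => tendsto_atTop_ciSup (hmon k) (hbdd k)
  have hsum : ∀ K : ℕ, ∑ k ∈ range K, c (k + 1) ≤ C := by
    intro K
    have h1 : Tendsto (fun m : ℕ => ∑ k ∈ range K, tauB s m n (0, 0) (((k + 1 : ℕ) : ℤ), 0))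
        atTop (𝓝 (∑ k ∈ range K, c (k + 1))) :=
      tendsto_finset_sum _ (fun k _ => htend (k + 1))
    refine le_of_tendsto h1 ?_
    filter_upwards [eventually_ge_atTop K] with m hm
    refine le_trans ?_ (hC m n)
    rw [sBR_zero]
    exact Finset.sum_le_sum_of_subset_of_nonneg
      (Finset.range_subset_range.2 hm) (fun k _ _ => tau_nonneg hs0 _ _ _ _)
  have hsm : Summable fun k => c (k + 1) :=
    summable_of_sum_range_le (fun k => hc0 (k + 1)) hsum
  have hcz : Tendsto c atTop (𝓝 0) :=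
    (tendsto_add_atTop_iff_nat 1).1 hsm.tendsto_atTop_zero
  have hbound : ∀ m : ℕ, sR s m n 0 ≤ ((n : ℝ) + 1) * (1 + s) ^ n * c m := by
    intro m
    unfold sR
    have h1 : ∀ y ∈ Icc (0 : ℤ) (n : ℤ), tauB s m n (0, 0) ((m : ℤ), y) ≤ (1 + s) ^ n * c m := by
      intro y hy
      rw [Finset.mem_Icc] at hy
      obtain ⟨k, rfl⟩ := Int.eq_ofNat_of_zero_le hy.1
      have hk : k ≤ n := by exact_mod_cast hy.2
      have h2 := tau_tri hs (ends_box m n) (0, 0) ((m : ℤ), (k : ℤ)) ((m : ℤ), 0)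
      have h3 := tau_col hs (m := m) (n := n) k hk
      have h4 := hle m m
      have h5 : 0 ≤ tauB s m n (0, 0) ((m : ℤ), (k : ℤ)) := tau_nonneg hs0 _ _ _ _
      have h6 : tauB s m n (0, 0) ((m : ℤ), (k : ℤ)) * (1 / (1 + s)) ^ k ≤ c m :=
        le_trans (mul_le_mul_of_nonneg_left h3 h5) (le_trans h2 h4)
      have h7 : (1 / (1 + s)) ^ k = ((1 + s) ^ k)⁻¹ := by
        rw [one_div, inv_pow]
      have h8 : 0 < (1 + s) ^ k := by positivity
      rw [h7, ← div_eq_mul_inv, div_le_iff₀ h8] at h6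
      refine h6.trans ?_
      rw [mul_comm]
      exact mul_le_mul_of_nonneg_right (pow_le_pow_right₀ (by linarith) hk) (hc0 m)
    refine (Finset.sum_le_card_nsmul _ _ _ h1).trans ?_
    rw [nsmul_eq_mul, Int.card_Icc]
    have h9 : (((n : ℤ) + 1 - 0).toNat : ℝ) = (n : ℝ) + 1 := by
      have : ((n : ℤ) + 1 - 0).toNat = n + 1 := by omega
      rw [this]
      push_cast
      ring
    rw [h9]
    exact le_of_eq (by ring)
  refine squeeze_zero (fun m => ?_) hbound ?_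
  · unfold sR
    exact Finset.sum_nonneg (fun y _ => tau_nonneg hs0 _ _ _ _)
  · have := hcz.const_mul (((n : ℝ) + 1) * (1 + s) ^ n)
    rw [mul_zero] at this
    exact this

end FKI
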