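import Pool.Agent.Lib.MP_216314_pr.QQuadA

/-!
# JOB QQuadB: the quadrant

`F m n = sBR s m n 0` (expected number of vertices of the bottom side, without the corner, connected to the corner).
* `F_limit`: let `L` be the limit of `F` (`exists_limit`); for fixed `n` the limits `A n = lim_m F m n`, `B n = lim_m F n m` exist; `transp` and
  `sR_zero` give `1 + B n = s * A n`; `iter_limit`: `1 + L = s * L`.
* `quad_sum`: `F ≤ (1+s)/(s^2-1) = 1/(s-1)` by `ruleB` (all other terms are `≥ 0`, `sBL = 0`), so `L = 1/(s-1)`, `hasSum_of_tendsto` with `N i = i.1`.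
* `far_zero`: `ruleB`: `sT + s sR = 1 + s - (s^2-1) F → 0`, both terms are `≥ 0`, squeeze.
* `quad_one`: if summable, `le_tsum_sup` gives a bound for `F`, `F_limit` gives `1 + L = L`.
-/

set_option autoImplicit false

noncomputable section

namespace FKI

open Finset Filter Topology

theorem F_limit {s : ℝ} (hs : 1 ≤ s) {C : ℝ} (hC : ∀ m n, sBR s m n 0 ≤ C) :
    ∃ L, Tendsto (fun p : ℕ × ℕ => sBR s p.1 p.2 0) atTop (𝓝 L) ∧ 1 + L = s * L := by
  have hs0 : 0 < s := by linarith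
  have hmon := F_mono hs
  obtain ⟨L, hL, _⟩ := exists_limit hmon (C := C) (fun i => hC i.1 i.2)
  have hA : ∀ n : ℕ, ∃ A, Tendsto (fun m : ℕ => sBR s m n 0) atTop (𝓝 A) := by
    intro n
    have hm1 : Monotone (fun m : ℕ => sBR s m n 0) := by
      intro a b hab
      have h1 : ((a, n) : ℕ × ℕ) ≤ (b, n) := ⟨hab, le_rfl⟩
      have h2 : sBR s (a, n).1 (a, n).2 0 ≤ sBR s (b, n).1 (b, n).2 0 := hmon h1
      exact h2
    have hb1 : BddAbove (Set.range (fun m : ℕ => sBR s m n 0)) := by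
      refine ⟨C, ?_⟩
      rintro _ ⟨m, rfl⟩
      exact hC m n
    exact ⟨_, tendsto_atTop_ciSup hm1 hb1⟩
  have hB : ∀ n : ℕ, ∃ B, Tendsto (fun m : ℕ => sBR s n m 0) atTop (𝓝 B) := by
    intro n
    have hm1 : Monotone (fun m : ℕ => sBR s n m 0) := by
      intro a b hab
      have h1 : ((n, a) : ℕ × ℕ) ≤ (n, b) := ⟨le_rfl, hab⟩
      have h2 : sBR s (n, a).1 (n, a).2 0 ≤ sBR s (n, b).1 (n, b).2 0 := hmon h1
      exact h2
    have hb1 : BddAbove (Set.range (fun m : ℕ => sBR s n m 0)) := by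
      refine ⟨C, ?_⟩
      rintro _ ⟨m, rfl⟩
      exact hC n m
    exact ⟨_, tendsto_atTop_ciSup hm1 hb1⟩
  choose A hA using hA
  choose B hB using hB
  obtain ⟨h1, h2⟩ := iter_limit hmon hL (A := A) (B := B) hA hB
  have hrel : ∀ n, 1 + B n = s * A n := by
    intro n
    have h3 : Tendsto (fun m : ℕ => 1 + sBR s n m 0 - sR s m n 0) atTop (𝓝 (1 + B n - 0)) :=
      ((hB n).const_add 1).sub (sR_zero hs hC n)
    have h4 : Tendsto (fun m : ℕ => s * sBR s m n 0) atTop (𝓝 (s * A n)) := (hA n).const_mul s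
    have h5 : (fun m : ℕ => 1 + sBR s n m 0 - sR s m n 0) = fun m : ℕ => s * sBR s m n 0 :=
      funext fun m => transp hs0 m n
    rw [h5, sub_zero] at h3
    exact tendsto_nhds_unique h3 h4
  refine ⟨L, hL, ?_⟩
  have h6 : Tendsto (fun n => 1 + B n) atTop (𝓝 (1 + L)) := h2.const_add 1
  have h7 : Tendsto (fun n => s * A n) atTop (𝓝 (s * L)) := h1.const_mul s
  rw [show (fun n => 1 + B n) = fun n => s * A n from funext hrel] at h6
  exact tendsto_nhds_unique h6 h7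

private theorem qquadb_sBL (s : ℝ) (m n : ℕ) : sBL s m n 0 = 0 := by
  unfold sBL
  simp

private theorem qquadb_sT {s : ℝ} (hs : 0 < s) (m n : ℕ) : 0 ≤ sT s m n 0 :=
  Finset.sum_nonneg (fun _ _ => tau_nonneg hs _ _ _ _)

private theorem qquadb_sR {s : ℝ} (hs : 0 < s) (m n : ℕ) : 0 ≤ sR s m n 0 :=
  Finset.sum_nonneg (fun _ _ => tau_nonneg hs _ _ _ _)

private theorem qquadb_rule {s : ℝ} (hs : 0 < s) (m n : ℕ) :
    sT s m n 0 + s * sR s m n 0 = 1 + s - (s ^ 2 - 1) * sBR s m n 0 := by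
  have h := ruleB hs (m := m) (n := n) (a := 0) le_rfl (by positivity)
  rw [qquadb_sBL, sub_zero] at h
  linarith

private theorem qquadb_bound {s : ℝ} (hs : 1 < s) (m n : ℕ) : sBR s m n 0 ≤ 1 / (s - 1) := by
  have hs0 : 0 < s := by linarith
  have h := qquadb_rule hs0 m n
  have h1 := qquadb_sT hs0 m n
  have h2 := mul_nonneg hs0.le (qquadb_sR hs0 m n)
  have h3 : 0 < s - 1 := by linarith
  rw [le_div_iff₀ h3]
  have h4 : (s ^ 2 - 1) * sBR s m n 0 ≤ 1 + s := by linarith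
  have h5 : (s + 1) * (sBR s m n 0 * (s - 1)) ≤ (s + 1) * 1 := by
    calc (s + 1) * (sBR s m n 0 * (s - 1)) = (s ^ 2 - 1) * sBR s m n 0 := by ring
      _ ≤ 1 + s := h4
      _ = (s + 1) * 1 := by ring
  exact le_of_mul_le_mul_left h5 (by linarith)

theorem F_tendsto {s : ℝ} (hs : 1 < s) :
    Tendsto (fun p : ℕ × ℕ => sBR s p.1 p.2 0) atTop (𝓝 (1 / (s - 1))) := by
  obtain ⟨L, hL, h1⟩ := F_limit hs.le (C := 1 / (s - 1)) (fun m n => qquadb_bound hs m n)
  have h3 : s - 1 ≠ 0 := by linarith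
  have h2 : L = 1 / (s - 1) := by
    rw [eq_div_iff h3]
    linarith
  rw [← h2]
  exact hL

private theorem qquadb_fst : Tendsto (fun i : ℕ × ℕ => i.1) atTop atTop := by
  rw [← prod_atTop_atTop_eq]
  exact tendsto_fst

private theorem qquadb_quad (s : ℝ) (k : ℕ) :
    quad s 0 (k + 1) = ⨆ i : ℕ × ℕ, tauB s i.1 i.2 (0, 0) (((k + 1 : ℕ) : ℤ), 0) := by
  unfold quad
  simp only [Nat.cast_zero]

theorem quad_sum {s : ℝ} (hs : 1 < s) :
    HasSum (fun k : ℕ => quad s 0 (k + 1)) (1 / (s - 1)) := by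
  have hs0 : 0 < s := by linarith
  have h := hasSum_of_tendsto
    (f := fun i k => tauB s i.1 i.2 (0, 0) (((k + 1 : ℕ) : ℤ), 0))
    (fun i k => tau_nonneg hs0 _ _ _ _) (fun i k => tau_le_one hs0 _ _ _ _)
    (fun k i j hij => tauB_mono hs.le hij.1 hij.2 _ _)
    (N := fun i => i.1) (fun i j hij => hij.1) qquadb_fst (L := 1 / (s - 1)) ?_
  · rw [show (fun k : ℕ => quad s 0 (k + 1)) =
      fun k => ⨆ i : ℕ × ℕ, tauB s i.1 i.2 (0, 0) (((k + 1 : ℕ) : ℤ), 0) from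
      funext (qquadb_quad s)]
    exact h
  · have h1 := F_tendsto hs
    rw [show (fun p : ℕ × ℕ => sBR s p.1 p.2 0) = fun p : ℕ × ℕ =>
      ∑ k ∈ range p.1, tauB s p.1 p.2 (0, 0) (((k + 1 : ℕ) : ℤ), 0) from
      funext fun p => sBR_zero s p.1 p.2] at h1
    exact h1

theorem far_zero {s : ℝ} (hs : 1 < s) :
    Tendsto (fun p : ℕ × ℕ => sT s p.1 p.2 0) atTop (𝓝 0) ∧
      Tendsto (fun p : ℕ × ℕ => sR s p.1 p.2 0) atTop (𝓝 0) := by
  have hs0 : 0 < s := by linarith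
  have h3 : s - 1 ≠ 0 := by linarith
  have h1 : Tendsto (fun p : ℕ × ℕ => 1 + s - (s ^ 2 - 1) * sBR s p.1 p.2 0) atTop
      (𝓝 (1 + s - (s ^ 2 - 1) * (1 / (s - 1)))) :=
    ((F_tendsto hs).const_mul _).const_sub _
  have h2 : 1 + s - (s ^ 2 - 1) * (1 / (s - 1)) = 0 := by
    field_simp
    ring
  rw [h2] at h1
  constructor
  · refine squeeze_zero (fun p => qquadb_sT hs0 _ _) (fun p => ?_) h1
    rw [← qquadb_rule hs0]
    have := mul_nonneg hs0.le (qquadb_sR hs0 p.1 p.2)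
    linarith
  · refine squeeze_zero (fun p => qquadb_sR hs0 _ _) (fun p => ?_) h1
    rw [← qquadb_rule hs0]
    have h4 := qquadb_sT hs0 p.1 p.2
    have h5 := mul_nonneg (show (0 : ℝ) ≤ s - 1 by linarith) (qquadb_sR hs0 p.1 p.2)
    nlinarith

theorem quad_one : ¬ Summable fun k : ℕ => quad 1 0 (k + 1) := by
  intro hsm
  rw [show (fun k : ℕ => quad 1 0 (k + 1)) =
    fun k => ⨆ i : ℕ × ℕ, tauB 1 i.1 i.2 (0, 0) (((k + 1 : ℕ) : ℤ), 0) from
    funext (qquadb_quad 1)] at hsm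
  have hb : ∀ m n : ℕ, sBR 1 m n 0 ≤
      ∑' k, ⨆ i : ℕ × ℕ, tauB 1 i.1 i.2 (0, 0) (((k + 1 : ℕ) : ℤ), 0) := by
    intro m n
    rw [sBR_zero]
    exact le_tsum_sup (f := fun i k => tauB 1 i.1 i.2 (0, 0) (((k + 1 : ℕ) : ℤ), 0))
      (fun i k => tau_nonneg one_pos _ _ _ _) (fun i k => tau_le_one one_pos _ _ _ _)
      (fun i => i.1) hsm (m, n)
  obtain ⟨L, _, hL⟩ := F_limit le_rfl hb
  linarith

end FKI
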