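import Pool.Agent.Lib.MP_216314_pr.QQuadB

/-!
# JOB QStart: the quadrant, an arbitrary starting point `(a,0)` on the boundary

* `far_start`: `tau_tri` (`(0,0), (a,0), v`) and `tau_row`: `(1/(1+s))^a * tauB (a,0) v ≤ tauB (0,0) v` for every `v`; sum over the top side and over the right
  side, `a ≤ m` eventually (`p.1 ≥ a`); squeeze with `far_zero`.
* `sBR_range`, `sBL_range`: reindexing.
* `R_start`: `sBR s m n a` (restricted to `p.1 ≥ a`: write boxes `(a + p.1, p.2)`) is bounded by `(1 + s + a)/(s^2-1)` (`ruleB`, `sBL ≤ a` as every `tauB ≤ 1`) and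
  monotone; `ruleB` in the limit: `sBL → ∑_{x<a} quad s a x` (finite sum of limits `tendsto_atTop_ciSup`), `sT, sR → 0` so `sBR → L` with
  `(s^2-1) L - ∑_{x<a} quad s a x = 1 + s`. Then `hasSum_of_tendsto` with `f i k = tauB s (a + i.1) i.2 (a,0) (a+1+k,0)`, `N i = i.1`; the suprema over the
  boxes `(a + i.1, i.2)` and over all boxes agree (cofinal monotone: `le_antisymm`, `ciSup_le`, `le_ciSup`).
-/

set_option autoImplicit false

noncomputable section

namespace FKI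

open Finset Filter Topology

private theorem qstart_map (a : ℕ) :
    Tendsto (fun p : ℕ × ℕ => ((a + p.1, p.2) : ℕ × ℕ)) atTop atTop := by
  refine tendsto_atTop_mono (f := fun p : ℕ × ℕ => p) ?_ tendsto_id
  intro p
  exact ⟨Nat.le_add_left _ _, le_rfl⟩

private theorem qstart_pt {s : ℝ} (hs : 1 < s) {a m n : ℕ} (ha : a ≤ m) (v : V) :
    tauB s m n ((a : ℤ), 0) v ≤ (1 + s) ^ a * tauB s m n (0, 0) v := by
  have hs0 : 0 < s := by linarith
  have h1 := tau_tri hs.le (ends_box m n) (0, 0) ((a : ℤ), 0) v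
  have h2 := tau_row hs.le (m := m) (n := n) a ha
  have h3 : 0 ≤ tauB s m n ((a : ℤ), 0) v := tau_nonneg hs0 _ _ _ _
  have h4 : (1 / (1 + s)) ^ a * tauB s m n ((a : ℤ), 0) v ≤ tauB s m n (0, 0) v :=
    le_trans (mul_le_mul_of_nonneg_right h2 h3) h1
  have h5 : (1 / (1 + s)) ^ a = ((1 + s) ^ a)⁻¹ := by
    rw [one_div, inv_pow]
  have h6 : 0 < (1 + s) ^ a := by positivity
  rw [h5, inv_mul_le_iff₀ h6] at h4
  exact h4

theorem far_start {s : ℝ} (hs : 1 < s) (a : ℕ) :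
    Tendsto (fun p : ℕ × ℕ => sT s (a + p.1) p.2 a) atTop (𝓝 0) ∧
      Tendsto (fun p : ℕ × ℕ => sR s (a + p.1) p.2 a) atTop (𝓝 0) := by
  have hs0 : 0 < s := by linarith
  constructor
  · have h1 : Tendsto (fun p : ℕ × ℕ => (1 + s) ^ a * sT s (a + p.1) p.2 0) atTop (𝓝 0) := by
      have h := ((far_zero hs).1.comp (qstart_map a)).const_mul ((1 + s) ^ a)
      rw [mul_zero] at h
      exact h
    refine squeeze_zero (fun p => ?_) (fun p => ?_) h1
    · exact Finset.sum_nonneg (fun _ _ => tau_nonneg hs0 _ _ _ _)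
    · unfold sT
      rw [Finset.mul_sum]
      exact Finset.sum_le_sum (fun x _ => qstart_pt hs (Nat.le_add_right _ _) _)
  · have h1 : Tendsto (fun p : ℕ × ℕ => (1 + s) ^ a * sR s (a + p.1) p.2 0) atTop (𝓝 0) := by
      have h := ((far_zero hs).2.comp (qstart_map a)).const_mul ((1 + s) ^ a)
      rw [mul_zero] at h
      exact h
    refine squeeze_zero (fun p => ?_) (fun p => ?_) h1
    · exact Finset.sum_nonneg (fun _ _ => tau_nonneg hs0 _ _ _ _)
    · unfold sR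
      rw [Finset.mul_sum]
      exact Finset.sum_le_sum (fun x _ => qstart_pt hs (Nat.le_add_right _ _) _)

theorem sBR_range (s : ℝ) (a m n : ℕ) :
    sBR s (a + m) n a = ∑ k ∈ range m, tauB s (a + m) n ((a : ℤ), 0) (((a + 1 + k : ℕ) : ℤ), 0) := by
  unfold sBR
  symm
  refine Finset.sum_bij (fun k _ => ((a + 1 + k : ℕ) : ℤ)) ?_ ?_ ?_ ?_
  · intro k hk
    rw [Finset.mem_range] at hk
    rw [Finset.mem_Ioc]
    constructor <;> push_cast <;> omega
  · intro x _ y _ h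
    have h' : ((a + 1 + x : ℕ) : ℤ) = ((a + 1 + y : ℕ) : ℤ) := h
    push_cast at h'
    omega
  · intro x hx
    rw [Finset.mem_Ioc] at hx
    push_cast at hx
    refine ⟨(x - 1 - a).toNat, ?_, ?_⟩
    · rw [Finset.mem_range]
      omega
    · push_cast
      omega
  · intro k _
    rfl

theorem sBL_range (s : ℝ) (a m n : ℕ) :
    sBL s m n a = ∑ x ∈ range a, tauB s m n ((a : ℤ), 0) ((x : ℤ), 0) := by
  unfold sBL
  symm
  refine Finset.sum_bij (fun k _ => (k : ℤ)) ?_ ?_ ?_ ?_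
  · intro k hk
    rw [Finset.mem_range] at hk
    rw [Finset.mem_Ico]
    constructor <;> omega
  · intro x _ y _ h
    have h' : (x : ℤ) = (y : ℤ) := h
    exact_mod_cast h'
  · intro x hx
    rw [Finset.mem_Ico] at hx
    refine ⟨x.toNat, ?_, ?_⟩
    · rw [Finset.mem_range]
      omega
    · omega
  · intro k _
    rfl

private theorem qstart_tend {s : ℝ} (hs : 1 < s) (a x : ℕ) :
    Tendsto (fun p : ℕ × ℕ => tauB s (a + p.1) p.2 ((a : ℤ), 0) ((x : ℤ), 0)) atTop
      (𝓝 (quad s a x)) := by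
  have hs0 : 0 < s := by linarith
  have hm : Monotone fun p : ℕ × ℕ => tauB s p.1 p.2 ((a : ℤ), 0) ((x : ℤ), 0) :=
    fun i j hij => tauB_mono hs.le hij.1 hij.2 _ _
  have hb : BddAbove (Set.range fun p : ℕ × ℕ => tauB s p.1 p.2 ((a : ℤ), 0) ((x : ℤ), 0)) := by
    refine ⟨1, ?_⟩
    rintro _ ⟨p, rfl⟩
    exact tau_le_one hs0 _ _ _ _
  have hq : quad s a x = ⨆ p : ℕ × ℕ, tauB s p.1 p.2 ((a : ℤ), 0) ((x : ℤ), 0) := by
    unfold quad
    rfl
  rw [hq]
  have h := (tendsto_atTop_ciSup hm hb).comp (qstart_map a)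
  simp only [Function.comp_def] at h
  exact h

private theorem qstart_sup {s : ℝ} (hs : 1 < s) (a x : ℕ) :
    (⨆ i : ℕ × ℕ, tauB s (a + i.1) i.2 ((a : ℤ), 0) ((x : ℤ), 0)) = quad s a x := by
  have hs0 : 0 < s := by linarith
  have hm : Monotone fun p : ℕ × ℕ => tauB s (a + p.1) p.2 ((a : ℤ), 0) ((x : ℤ), 0) :=
    fun i j hij => tauB_mono hs.le (Nat.add_le_add_left hij.1 a) hij.2 _ _
  have hb : BddAbove
      (Set.range fun p : ℕ × ℕ => tauB s (a + p.1) p.2 ((a : ℤ), 0) ((x : ℤ), 0)) := by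
    refine ⟨1, ?_⟩
    rintro _ ⟨p, rfl⟩
    exact tau_le_one hs0 _ _ _ _
  exact tendsto_nhds_unique (tendsto_atTop_ciSup hm hb) (qstart_tend hs a x)

/-- the sum rule in the quadrant for a starting point `(a,0)` -/
theorem quad_start {s : ℝ} (hs : 1 < s) (a : ℕ) :
    HasSum (fun k : ℕ => quad s a (a + 1 + k))
      ((1 + s + ∑ x ∈ range a, quad s a x) / (s ^ 2 - 1)) := by
  have hs0 : 0 < s := by linarith
  have hs2 : s ^ 2 - 1 ≠ 0 := by
    have : 0 < s ^ 2 - 1 := by nlinarith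
    exact this.ne'
  have hrule : ∀ p : ℕ × ℕ, sBR s (a + p.1) p.2 a =
      (1 + s + sBL s (a + p.1) p.2 a - sT s (a + p.1) p.2 a - s * sR s (a + p.1) p.2 a) /
        (s ^ 2 - 1) := by
    intro p
    have h := ruleB hs0 (m := a + p.1) (n := p.2) (a := (a : ℤ)) (by positivity)
      (by push_cast; omega)
    rw [eq_div_iff hs2]
    linarith
  have hBL : Tendsto (fun p : ℕ × ℕ => sBL s (a + p.1) p.2 a) atTop
      (𝓝 (∑ x ∈ range a, quad s a x)) := by
    rw [show (fun p : ℕ × ℕ => sBL s (a + p.1) p.2 a) = fun p : ℕ × ℕ =>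
      ∑ x ∈ range a, tauB s (a + p.1) p.2 ((a : ℤ), 0) ((x : ℤ), 0) from
      funext fun p => sBL_range s a (a + p.1) p.2]
    exact tendsto_finsetSum _ (fun x _ => qstart_tend hs a x)
  obtain ⟨hT, hR⟩ := far_start hs a
  have hlim : Tendsto (fun p : ℕ × ℕ => sBR s (a + p.1) p.2 a) atTop
      (𝓝 ((1 + s + ∑ x ∈ range a, quad s a x) / (s ^ 2 - 1))) := by
    rw [show (fun p : ℕ × ℕ => sBR s (a + p.1) p.2 a) = fun p : ℕ × ℕ =>
      (1 + s + sBL s (a + p.1) p.2 a - sT s (a + p.1) p.2 a - s * sR s (a + p.1) p.2 a) /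
        (s ^ 2 - 1) from funext hrule]
    have h := ((((hBL.const_add (1 + s)).sub hT).sub (hR.const_mul s)).div_const (s ^ 2 - 1))
    rw [sub_zero, mul_zero, sub_zero] at h
    exact h
  have h := hasSum_of_tendsto
    (f := fun i k => tauB s (a + i.1) i.2 ((a : ℤ), 0) (((a + 1 + k : ℕ) : ℤ), 0))
    (fun i k => tau_nonneg hs0 _ _ _ _) (fun i k => tau_le_one hs0 _ _ _ _)
    (fun k i j hij => tauB_mono hs.le (Nat.add_le_add_left hij.1 a) hij.2 _ _)
    (N := fun i => i.1) (fun i j hij => hij.1)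
    (by
      rw [← prod_atTop_atTop_eq]
      exact tendsto_fst)
    (L := (1 + s + ∑ x ∈ range a, quad s a x) / (s ^ 2 - 1)) ?_
  · rw [show (fun k : ℕ => quad s a (a + 1 + k)) =
      fun k => ⨆ i : ℕ × ℕ, tauB s (a + i.1) i.2 ((a : ℤ), 0) (((a + 1 + k : ℕ) : ℤ), 0) from
      funext fun k => (qstart_sup hs a (a + 1 + k)).symm]
    exact h
  · rw [show (fun p : ℕ × ℕ => sBR s (a + p.1) p.2 a) = fun p : ℕ × ℕ =>
      ∑ k ∈ range p.1, tauB s (a + p.1) p.2 ((a : ℤ), 0) (((a + 1 + k : ℕ) : ℤ), 0) from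
      funext fun p => sBR_range s a p.1 p.2] at hlim
    exact hlim

end FKI
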