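import Pool.Agent.Lib.MP_216314_pr.QDefs

/-!
# JOB QSup: supermodularity of the number of clusters

* `kc_insert_reach`, `kc_insert_not`: `ncard_cc (gr_insert ω e)` (file CC) as in `wts_reach`.
* `gr_mono`: `SimpleGraph.fromRel_adj`.
* `kc_super`: put `C = A ∩ B`. Claim: for `C ⊆ A ⊆ E` and every `D ⊆ E`:
  `kc A + kc (C ∪ D) ≤ kc C + kc (A ∪ D)` (`Finset.induction_on D`). `D = ∅`: equality. `D = insert e D'`: if `e` connects two vertices
  that are connected in `C ∪ D'` then they are connected in `A ∪ D'` as well (`Reachable.mono`), nothing changes. Otherwise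
  `kc (C ∪ D)` is `kc (C ∪ D') - 1` and `kc (A ∪ D) ≥ kc (A ∪ D') - 1`. Then take `D = B` (`C ∪ B = B`).
* `wk_lattice`: cardinalities `Finset.card_inter_add_card_union`, `s^2 ≥ 1`, `pow_le_pow_right₀`.
-/

set_option autoImplicit false

noncomputable section

namespace FKI

open Finset

theorem gr_mono {A B : Finset Edge} (h : A ⊆ B) : gr A ≤ gr B := by
  intro x y hxy
  rw [gr, SimpleGraph.fromRel_adj] at hxy ⊢
  obtain ⟨hne, ⟨e, he, h1⟩ | ⟨e, he, h1⟩⟩ := hxy
  · exact ⟨hne, Or.inl ⟨e, h he, h1⟩⟩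
  · exact ⟨hne, Or.inr ⟨e, h he, h1⟩⟩

theorem kc_insert_reach {W : Finset V} {ω : Finset Edge} {e : Edge} (ha : ea e ∈ W)
    (hb : eb e ∈ W) (h : (gr ω).Reachable (ea e) (eb e)) : kc W (insert e ω) = kc W ω :=
  (ncard_cc (gr_insert ω e) W.finite_toSet (mem_coe.2 ha) (mem_coe.2 hb)).1 h

theorem kc_insert_not {W : Finset V} {ω : Finset Edge} {e : Edge} (ha : ea e ∈ W)
    (hb : eb e ∈ W) (h : ¬ (gr ω).Reachable (ea e) (eb e)) : kc W (insert e ω) + 1 = kc W ω :=
  (ncard_cc (gr_insert ω e) W.finite_toSet (mem_coe.2 ha) (mem_coe.2 hb)).2 h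

theorem qsup_step {W : Finset V} {E : Finset Edge} (hE : Ends W E) {A C : Finset Edge}
    (hCA : C ⊆ A) (D : Finset Edge) (hD : D ⊆ E) :
    kc W A + kc W (C ∪ D) ≤ kc W C + kc W (A ∪ D) := by
  induction D using Finset.induction_on with
  | empty => rw [union_empty, union_empty, add_comm]
  | insert e D' he ih =>
    have hD' : D' ⊆ E := (subset_insert e D').trans hD
    have ih' := ih hD'
    have heE : e ∈ E := hD (mem_insert_self e D')
    obtain ⟨ha, hb⟩ := hE e heE
    have h1 : C ∪ insert e D' = insert e (C ∪ D') := union_insert e C D'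
    have h2 : A ∪ insert e D' = insert e (A ∪ D') := union_insert e A D'
    rw [h1, h2]
    by_cases hr : (gr (C ∪ D')).Reachable (ea e) (eb e)
    · have hr' : (gr (A ∪ D')).Reachable (ea e) (eb e) :=
        hr.mono (gr_mono (union_subset_union_left hCA))
      rw [kc_insert_reach ha hb hr, kc_insert_reach ha hb hr']
      exact ih'
    · have g1 := kc_insert_not ha hb hr
      by_cases hr' : (gr (A ∪ D')).Reachable (ea e) (eb e)
      · rw [kc_insert_reach ha hb hr']
        omega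
      · have g2 := kc_insert_not ha hb hr'
        omega

theorem kc_super {W : Finset V} {E : Finset Edge} (hE : Ends W E) {A B : Finset Edge}
    (hA : A ⊆ E) (hB : B ⊆ E) : kc W A + kc W B ≤ kc W (A ∩ B) + kc W (A ∪ B) := by
  have _ := hA
  have h := qsup_step hE (A := A) (C := A ∩ B) inter_subset_left B hB
  rwa [union_eq_right.2 inter_subset_right] at h

theorem wk_lattice {s : ℝ} (hs : 1 ≤ s) {W : Finset V} {E : Finset Edge} (hE : Ends W E)
    {A B : Finset Edge} (hA : A ⊆ E) (hB : B ⊆ E) :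
    wk s W A * wk s W B ≤ wk s W (A ∩ B) * wk s W (A ∪ B) := by
  have h0 : (0 : ℝ) ≤ s := by linarith
  have h1 : 1 ≤ s ^ 2 := one_le_pow₀ hs
  have hk := kc_super hE hA hB
  have hc : (A ∩ B).card + (A ∪ B).card = A.card + B.card := card_inter_add_card_union A B
  have e1 : wk s W A * wk s W B = s ^ (A.card + B.card) * (s ^ 2) ^ (kc W A + kc W B) := by
    rw [wk, wk, pow_add, pow_add]
    ring
  have e2 : wk s W (A ∩ B) * wk s W (A ∪ B)
      = s ^ ((A ∩ B).card + (A ∪ B).card) * (s ^ 2) ^ (kc W (A ∩ B) + kc W (A ∪ B)) := by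
    rw [wk, wk, pow_add, pow_add]
    ring
  rw [e1, e2, hc]
  exact mul_le_mul_of_nonneg_left (pow_le_pow_right₀ h1 hk) (pow_nonneg h0 _)

end FKI
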