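import Pool.Agent.Lib.MP_216314_pr.QTau

/-!
# JOB QSym: symmetries

* `tau_map`: `ω ↦ ω.map ψ` is a bijection of the powersets (`Finset.map_powerset`-type lemma or `Finset.sum_bij'` with `ψ.symm`), it preserves the cardinality
  (`card_map`); `(gr (ω.map ψ)).Adj (φ x) (φ y) ↔ (gr ω).Adj x y` (`hinc`), so there is a graph isomorphism `(gr ω) ≃g (gr (ω.map ψ))` with underlying
  equivalence `φ`; `SimpleGraph.Iso.reachable_iff`; `SimpleGraph.Iso.connectedComponentEquiv` (for `kc`; or `Set.ncard_image_of_injective`).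
* `tauB_transpose`: `φ = Prod.swap`, `ψ (x, y, t) = (y, x, !t)`: `ea (ψ e) = swap (ea e)`, `eb (ψ e) = swap (eb e)`; the images of `verts m n` and
  `edges m n` are `verts n m` and `edges n m` (`Finset.ext`, `mem_edges`).
* `tauB_reflect`: `φ (x,y) = (m - x, y)`, `ψ (x,y,false) = (m - 1 - x, y, false)`, `ψ (x,y,true) = (m - x, y, true)` (end points exchanged for horizontal edges).
* `tauB_shift`: `φ (x,y) = (x + 1, y)`, `ψ (x,y,t) = (x + 1, y, t)`, then `tau_mono` (the image of the box `[0,m] × [0,n]` is contained in `[0,m+1] × [0,n]`).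
-/

set_option autoImplicit false

noncomputable section

namespace FKI

open Finset

theorem qsym_gr_adj (ω : Finset Edge) (x y : V) : (gr ω).Adj x y ↔
    x ≠ y ∧ ((∃ e ∈ ω, ea e = x ∧ eb e = y) ∨ ∃ e ∈ ω, ea e = y ∧ eb e = x) := by
  unfold gr
  rw [SimpleGraph.fromRel_adj]

theorem qsym_adj (φ : V ≃ V) (ψ : Edge ≃ Edge)
    (hinc : ∀ e, (ea (ψ e) = φ (ea e) ∧ eb (ψ e) = φ (eb e)) ∨
      (ea (ψ e) = φ (eb e) ∧ eb (ψ e) = φ (ea e))) (ω : Finset Edge) (x y : V) :
    (gr (ω.map ψ.toEmbedding)).Adj (φ x) (φ y) ↔ (gr ω).Adj x y := by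
  rw [qsym_gr_adj, qsym_gr_adj]
  have h1 : ∀ x y : V, (∃ e ∈ ω.map ψ.toEmbedding, ea e = φ x ∧ eb e = φ y) →
      ((∃ e ∈ ω, ea e = x ∧ eb e = y) ∨ ∃ e ∈ ω, ea e = y ∧ eb e = x) := by
    rintro x y ⟨e', he', h2, h3⟩
    rw [mem_map_equiv] at he'
    have h4 := hinc (ψ.symm e')
    rw [ψ.apply_symm_apply, h2, h3] at h4
    rcases h4 with ⟨h5, h6⟩ | ⟨h5, h6⟩
    · exact Or.inl ⟨_, he', (φ.injective h5).symm, (φ.injective h6).symm⟩
    · exact Or.inr ⟨_, he', (φ.injective h6).symm, (φ.injective h5).symm⟩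
  have h2 : ∀ x y : V, (∃ e ∈ ω, ea e = x ∧ eb e = y) →
      ((∃ e ∈ ω.map ψ.toEmbedding, ea e = φ x ∧ eb e = φ y) ∨
        ∃ e ∈ ω.map ψ.toEmbedding, ea e = φ y ∧ eb e = φ x) := by
    rintro x y ⟨e, he, rfl, rfl⟩
    have he' : ψ e ∈ ω.map ψ.toEmbedding := mem_map_of_mem _ he
    rcases hinc e with ⟨h5, h6⟩ | ⟨h5, h6⟩
    · exact Or.inl ⟨_, he', h5, h6⟩
    · exact Or.inr ⟨_, he', h5, h6⟩
  constructor
  · rintro ⟨h3, h4⟩
    refine ⟨fun h => h3 (by rw [h]), ?_⟩
    rcases h4 with h4 | h4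
    · exact h1 x y h4
    · exact (h1 y x h4).symm
  · rintro ⟨h3, h4⟩
    refine ⟨fun h => h3 (φ.injective h), ?_⟩
    rcases h4 with h4 | h4
    · exact h2 x y h4
    · exact (h2 y x h4).symm

/-- the graph isomorphism -/
def qsym_iso (φ : V ≃ V) (ψ : Edge ≃ Edge)
    (hinc : ∀ e, (ea (ψ e) = φ (ea e) ∧ eb (ψ e) = φ (eb e)) ∨
      (ea (ψ e) = φ (eb e) ∧ eb (ψ e) = φ (ea e))) (ω : Finset Edge) :
    gr ω ≃g gr (ω.map ψ.toEmbedding) where
  toEquiv := φ
  map_rel_iff' := by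
    intro a b
    exact qsym_adj φ ψ hinc ω a b

theorem qsym_kc (φ : V ≃ V) (ψ : Edge ≃ Edge)
    (hinc : ∀ e, (ea (ψ e) = φ (ea e) ∧ eb (ψ e) = φ (eb e)) ∨
      (ea (ψ e) = φ (eb e) ∧ eb (ψ e) = φ (ea e))) (W : Finset V) (ω : Finset Edge) :
    kc (W.map φ.toEmbedding) (ω.map ψ.toEmbedding) = kc W ω := by
  unfold kc
  have h : (gr (ω.map ψ.toEmbedding)).connectedComponentMk '' ((W.map φ.toEmbedding : Finset V) : Set V) =
      (qsym_iso φ ψ hinc ω).connectedComponentEquiv ''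
        ((gr ω).connectedComponentMk '' (W : Set V)) := by
    rw [coe_map, Set.image_image, Set.image_image]
    rfl
  rw [h, Set.ncard_image_of_injective _ (Equiv.injective _)]

theorem qsym_sum (E : Finset Edge) (ψ : Edge ≃ Edge) (F : Finset Edge → ℝ) :
    ∑ ω ∈ (E.map ψ.toEmbedding).powerset, F ω = ∑ ω ∈ E.powerset, F (ω.map ψ.toEmbedding) := by
  symm
  refine sum_bij (fun ω _ => ω.map ψ.toEmbedding) (fun ω hω => ?_) (fun ω _ ω' _ h => ?_)
    (fun ω' hω' => ?_) (fun ω _ => rfl)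
  · rw [mem_powerset] at *
    exact map_subset_map.2 hω
  · exact map_injective _ h
  · rw [mem_powerset] at hω'
    refine ⟨ω'.map ψ.symm.toEmbedding, ?_, ?_⟩
    · rw [mem_powerset]
      intro e he
      rw [mem_map_equiv] at he
      have h1 := hω' he
      rw [mem_map_equiv] at h1
      simpa using h1
    · ext e
      rw [mem_map_equiv, mem_map_equiv]
      simp

theorem tau_map (s : ℝ) (W : Finset V) (E : Finset Edge) (φ : V ≃ V) (ψ : Edge ≃ Edge)
    (hinc : ∀ e, (ea (ψ e) = φ (ea e) ∧ eb (ψ e) = φ (eb e)) ∨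
      (ea (ψ e) = φ (eb e) ∧ eb (ψ e) = φ (ea e))) (u v : V) :
    tau s (W.map φ.toEmbedding) (E.map ψ.toEmbedding) (φ u) (φ v) = tau s W E u v := by
  unfold tau ex ZZ
  rw [qsym_sum, qsym_sum]
  have h1 : ∀ ω : Finset Edge, wk s (W.map φ.toEmbedding) (ω.map ψ.toEmbedding) = wk s W ω := by
    intro ω
    unfold wk
    rw [card_map, qsym_kc φ ψ hinc]
  have h2 : ∀ ω : Finset Edge, con (φ u) (φ v) (ω.map ψ.toEmbedding) = con u v ω := by
    intro ω
    unfold con
    have h3 : (gr (ω.map ψ.toEmbedding)).Reachable (φ u) (φ v) ↔ (gr ω).Reachable u v :=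
      SimpleGraph.Iso.reachable_iff (φ := qsym_iso φ ψ hinc ω)
    by_cases h4 : (gr ω).Reachable u v
    · rw [if_pos h4, if_pos (h3.2 h4)]
    · rw [if_neg h4, if_neg (fun h5 => h4 (h3.1 h5))]
  simp only [h1]
  rw [sum_congr rfl fun ω _ => by rw [h2 ω]]

theorem tauB_transpose (s : ℝ) (m n : ℕ) (x y x' y' : ℤ) :
    tauB s m n (x, y) (x', y') = tauB s n m (y, x) (y', x') := by
  let ψ : Edge ≃ Edge :=
    { toFun := fun e => (e.2.1, e.1, !e.2.2)
      invFun := fun e => (e.2.1, e.1, !e.2.2)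
      left_inv := fun e => by simp
      right_inv := fun e => by simp }
  have h := tau_map s (verts m n) (edges m n) (Equiv.prodComm ℤ ℤ) ψ (fun e => by
    left
    obtain ⟨a, b, t⟩ := e
    cases t <;> exact ⟨rfl, rfl⟩) (x, y) (x', y')
  have hW : (verts m n).map (Equiv.prodComm ℤ ℤ).toEmbedding = verts n m := by
    ext ⟨a, b⟩
    rw [mem_map_equiv]
    simp only [verts, Equiv.prodComm_symm, Equiv.prodComm_apply, Prod.swap_prod_mk, mem_product,
      mem_Icc]
    tauto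
  have hE : (edges m n).map ψ.toEmbedding = edges n m := by
    ext ⟨a, b, t⟩
    rw [mem_map_equiv]
    show (b, a, !t) ∈ edges m n ↔ (a, b, t) ∈ edges n m
    rw [mem_edges, mem_edges]
    cases t <;> simp <;> tauto
  rw [hW, hE] at h
  exact h.symm

theorem tauB_reflect (s : ℝ) (m n : ℕ) (x y x' y' : ℤ) :
    tauB s m n (x, y) (x', y') = tauB s m n ((m : ℤ) - x, y) ((m : ℤ) - x', y') := by
  let φ : V ≃ V :=
    { toFun := fun v => ((m : ℤ) - v.1, v.2)
      invFun := fun v => ((m : ℤ) - v.1, v.2)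
      left_inv := fun v => by simp
      right_inv := fun v => by simp }
  let ψ : Edge ≃ Edge :=
    { toFun := fun e => (if e.2.2 then (m : ℤ) - e.1 else (m : ℤ) - 1 - e.1, e.2.1, e.2.2)
      invFun := fun e => (if e.2.2 then (m : ℤ) - e.1 else (m : ℤ) - 1 - e.1, e.2.1, e.2.2)
      left_inv := fun e => by
        obtain ⟨a, b, t⟩ := e
        cases t <;> simp
      right_inv := fun e => by
        obtain ⟨a, b, t⟩ := e
        cases t <;> simp }
  have h := tau_map s (verts m n) (edges m n) φ ψ (fun e => by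
    obtain ⟨a, b, t⟩ := e
    cases t
    · right
      constructor
      · show ((m : ℤ) - 1 - a, b) = ((m : ℤ) - (a + 1), b)
        rw [Prod.mk.injEq]
        exact ⟨by ring, rfl⟩
      · show ((m : ℤ) - 1 - a + 1, b) = ((m : ℤ) - a, b)
        rw [Prod.mk.injEq]
        exact ⟨by ring, rfl⟩
    · left
      exact ⟨rfl, rfl⟩) (x, y) (x', y')
  have hW : (verts m n).map φ.toEmbedding = verts m n := by
    ext ⟨a, b⟩
    rw [mem_map_equiv]
    show ((m : ℤ) - a, b) ∈ verts m n ↔ (a, b) ∈ verts m n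
    simp only [verts, mem_product, mem_Icc]
    omega
  have hE : (edges m n).map ψ.toEmbedding = edges m n := by
    ext ⟨a, b, t⟩
    rw [mem_map_equiv]
    show (if t then (m : ℤ) - a else (m : ℤ) - 1 - a, b, t) ∈ edges m n ↔ (a, b, t) ∈ edges m n
    rw [mem_edges, mem_edges]
    cases t <;> simp <;> omega
  rw [hW, hE] at h
  exact h.symm

theorem tauB_shift {s : ℝ} (hs : 1 ≤ s) (m n : ℕ) (x y x' y' : ℤ) :
    tauB s m n (x, y) (x', y') ≤ tauB s (m + 1) n (x + 1, y) (x' + 1, y') := by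
  let φ : V ≃ V :=
    { toFun := fun v => (v.1 + 1, v.2)
      invFun := fun v => (v.1 - 1, v.2)
      left_inv := fun v => by simp
      right_inv := fun v => by simp }
  let ψ : Edge ≃ Edge :=
    { toFun := fun e => (e.1 + 1, e.2.1, e.2.2)
      invFun := fun e => (e.1 - 1, e.2.1, e.2.2)
      left_inv := fun e => by simp
      right_inv := fun e => by simp }
  have h := tau_map s (verts m n) (edges m n) φ ψ (fun e => by
    obtain ⟨a, b, t⟩ := e
    left
    cases t <;> exact ⟨rfl, rfl⟩) (x, y) (x', y')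
  have hW : (verts m n).map φ.toEmbedding ⊆ verts (m + 1) n := by
    rintro ⟨a, b⟩ hab
    rw [mem_map_equiv] at hab
    have h1 : (a - 1, b) ∈ verts m n := hab
    simp only [verts, mem_product, mem_Icc] at h1 ⊢
    push_cast
    omega
  have hE : (edges m n).map ψ.toEmbedding ⊆ edges (m + 1) n := by
    rintro ⟨a, b, t⟩ hab
    rw [mem_map_equiv] at hab
    have h1 : (a - 1, b, t) ∈ edges m n := hab
    rw [mem_edges] at h1 ⊢
    push_cast
    cases t <;> simp at h1 ⊢ <;> omega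
  have hends : Ends ((verts m n).map φ.toEmbedding) ((edges m n).map ψ.toEmbedding) := by
    rintro ⟨a, b, t⟩ hab
    rw [mem_map_equiv] at hab
    have h1 : (a - 1, b, t) ∈ edges m n := hab
    have h2 := ends_box m n _ h1
    rw [mem_map_equiv, mem_map_equiv]
    cases t
    · refine ⟨h2.1, ?_⟩
      have h3 : (a - 1 + 1, b) ∈ verts m n := h2.2
      show (a + 1 - 1, b) ∈ verts m n
      have h4 : a + 1 - 1 = a - 1 + 1 := by ring
      rw [h4]
      exact h3
    · exact ⟨h2.1, h2.2⟩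
  have h5 := tau_mono hs hW hE hends (ends_box (m + 1) n) (x + 1, y) (x' + 1, y')
  unfold tauB
  rw [← h]
  exact h5

end FKI
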