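import Pool.Agent.Lib.MP_216314_pr.QDom

/-!
# JOB QTau: elementary properties of the two point function

* `con_mono`: `gr_mono`, `Reachable.mono`. `tau_mono` from `ex_mono`.
* `tau_tri`: `ex_fkg` with `f = con u v`, `g = con v w`, and `con u v ω * con v w ω ≤ con u w ω` (monotonicity of `ex`: `Finset.sum_le_sum`, `div_le_div_of_nonneg_right`).
* `ends_box`: `mem_edges`, `ea`, `eb`, `verts`.
* `tauB_out`: for `ω ⊆ edges m n` a vertex outside the box is isolated, so `con v u ω = 0` for `u ≠ v`.
-/

set_option autoImplicit false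

noncomputable section

namespace FKI

open Finset

theorem con_nonneg (u v : V) (ω : Finset Edge) : 0 ≤ con u v ω := by
  unfold con
  split_ifs
  · exact zero_le_one
  · exact le_rfl

theorem qtau_con_le_one (u v : V) (ω : Finset Edge) : con u v ω ≤ 1 := by
  unfold con
  split_ifs
  · exact le_rfl
  · exact zero_le_one

theorem con_mono (u v : V) : ∀ A B : Finset Edge, A ⊆ B → con u v A ≤ con u v B := by
  intro A B hAB
  by_cases h : (gr A).Reachable u v
  · have h' : (gr B).Reachable u v := h.mono (gr_mono hAB)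
    unfold con
    rw [if_pos h, if_pos h']
  · unfold con
    rw [if_neg h]
    exact con_nonneg u v B

/-- monotonicity of the expectation -/
theorem qtau_ex_le {s : ℝ} (hs : 0 < s) (W : Finset V) (E : Finset Edge)
    {f g : Finset Edge → ℝ} (h : ∀ ω, f ω ≤ g ω) : ex s W E f ≤ ex s W E g := by
  unfold ex
  refine div_le_div_of_nonneg_right ?_ (ZZ_pos hs W E).le
  exact Finset.sum_le_sum fun ω _ => mul_le_mul_of_nonneg_left (h ω) (wk_pos hs W ω).le

theorem qtau_ex_one {s : ℝ} (hs : 0 < s) (W : Finset V) (E : Finset Edge) :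
    ex s W E (fun _ => 1) = 1 := by
  unfold ex
  simp only [mul_one]
  exact div_self (ZZ_pos hs W E).ne'

theorem qtau_ex_zero (s : ℝ) (W : Finset V) (E : Finset Edge) :
    ex s W E (fun _ => 0) = 0 := by
  unfold ex
  simp only [mul_zero, Finset.sum_const_zero, zero_div]

theorem tau_nonneg {s : ℝ} (hs : 0 < s) (W : Finset V) (E : Finset Edge) (u v : V) :
    0 ≤ tau s W E u v := by
  have h := qtau_ex_le hs W E (f := fun _ => 0) (g := con u v) (con_nonneg u v)
  rw [qtau_ex_zero] at h
  exact h

theorem tau_le_one {s : ℝ} (hs : 0 < s) (W : Finset V) (E : Finset Edge) (u v : V) :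
    tau s W E u v ≤ 1 := by
  have h := qtau_ex_le hs W E (f := con u v) (g := fun _ => 1) (qtau_con_le_one u v)
  rw [qtau_ex_one hs] at h
  exact h

theorem tau_self {s : ℝ} (hs : 0 < s) (W : Finset V) (E : Finset Edge) (u : V) :
    tau s W E u u = 1 := by
  have h : con u u = fun _ => 1 := by
    funext ω
    unfold con
    rw [if_pos (SimpleGraph.Reachable.refl u)]
  unfold tau
  rw [h, qtau_ex_one hs]

theorem tau_comm (s : ℝ) (W : Finset V) (E : Finset Edge) (u v : V) :
    tau s W E u v = tau s W E v u := by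
  have h : con u v = con v u := by
    funext ω
    unfold con
    by_cases h : (gr ω).Reachable u v
    · rw [if_pos h, if_pos h.symm]
    · rw [if_neg h, if_neg (fun h' => h h'.symm)]
  unfold tau
  rw [h]

theorem tau_mono {s : ℝ} (hs : 1 ≤ s) {W W' : Finset V} {E E' : Finset Edge} (hW : W ⊆ W')
    (hEE : E ⊆ E') (hE : Ends W E) (hE' : Ends W' E') (u v : V) :
    tau s W E u v ≤ tau s W' E' u v :=
  ex_mono hs hW hEE hE hE' (con_nonneg u v) (con_mono u v)

theorem tau_tri {s : ℝ} (hs : 1 ≤ s) {W : Finset V} {E : Finset Edge} (hE : Ends W E)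
    (u v w : V) : tau s W E u v * tau s W E v w ≤ tau s W E u w := by
  refine (ex_fkg hs hE (con_nonneg u v) (con_nonneg v w) (con_mono u v) (con_mono v w)).trans ?_
  refine qtau_ex_le (zero_lt_one.trans_le hs) W E fun ω => ?_
  by_cases h1 : (gr ω).Reachable u v
  · by_cases h2 : (gr ω).Reachable v w
    · have h3 : con u w ω = 1 := by
        unfold con
        rw [if_pos (h1.trans h2)]
      rw [h3]
      exact mul_le_one₀ (qtau_con_le_one u v ω) (con_nonneg v w ω) (qtau_con_le_one v w ω)
    · have h3 : con v w ω = 0 := by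
        unfold con
        rw [if_neg h2]
      rw [h3, mul_zero]
      exact con_nonneg u w ω
  · have h3 : con u v ω = 0 := by
      unfold con
      rw [if_neg h1]
    rw [h3, zero_mul]
    exact con_nonneg u w ω

theorem ends_box (m n : ℕ) : Ends (verts m n) (edges m n) := by
  intro e he
  exact CC_ends he

theorem qtau_verts_mono {m m' n n' : ℕ} (hm : m ≤ m') (hn : n ≤ n') :
    verts m n ⊆ verts m' n' := by
  have hm' : (m : ℤ) ≤ m' := by exact_mod_cast hm
  have hn' : (n : ℤ) ≤ n' := by exact_mod_cast hn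
  intro v hv
  simp only [verts, Finset.mem_product, Finset.mem_Icc] at hv ⊢
  omega

theorem qtau_edges_mono {m m' n n' : ℕ} (hm : m ≤ m') (hn : n ≤ n') :
    edges m n ⊆ edges m' n' := by
  have hm' : (m : ℤ) ≤ m' := by exact_mod_cast hm
  have hn' : (n : ℤ) ≤ n' := by exact_mod_cast hn
  intro e he
  simp only [edges, Finset.mem_union, Finset.mem_product, Finset.mem_Icc, Finset.mem_Ico,
    Finset.mem_singleton] at he ⊢
  rcases he with ⟨h1, h2, h3⟩ | ⟨h1, h2, h3⟩
  · left
    exact ⟨by omega, by omega, h3⟩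
  · right
    exact ⟨by omega, by omega, h3⟩

theorem tauB_mono {s : ℝ} (hs : 1 ≤ s) {m m' n n' : ℕ} (hm : m ≤ m') (hn : n ≤ n') (u v : V) :
    tauB s m n u v ≤ tauB s m' n' u v :=
  tau_mono hs (qtau_verts_mono hm hn) (qtau_edges_mono hm hn) (ends_box m n) (ends_box m' n') u v

/-- a vertex outside the box is isolated -/
theorem tauB_out (s : ℝ) (m n : ℕ) {u v : V} (hv : v ∉ verts m n) (huv : u ≠ v) :
    tauB s m n v u = 0 := by
  unfold tauB tau ex
  have h : ∑ ω ∈ (edges m n).powerset, wk s (verts m n) ω * con v u ω = 0 := by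
    refine Finset.sum_eq_zero fun ω hω => ?_
    rw [Finset.mem_powerset] at hω
    have h1 : ¬ (gr ω).Reachable v u := fun h2 =>
      huv (qdom_iso (fun e he => ends_box m n e (hω he)) hv h2).symm
    unfold con
    rw [if_neg h1, mul_zero]
  rw [h, zero_div]

end FKI
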