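import Pool.Agent.Lib.MP_216314_pr.NextB
import Pool.Agent.Lib.MP_216314_pr.Abs

/-!
# JOB Run: the interface of a configuration

`rr b` = south east corner of `(b,0)` (start), `ss a` = south west corner of `(a,0)` (stop). `TT ω a b` is the hitting time, `DD ω a b` the list
of the corners of the interface before the stop.

* `under`: for `0 ≤ i ≤ 2(b-a)+1` the `i`-th point of the orbit of `ss a` is `(2a+i, 0)`: at an even abscissa `next_SW_closed` (the edge below,
  `(_, -1, true)`, is not in the box), at an odd abscissa `2j+1 < 2b+1` the edge `(j,0,false)` is in the arc, `next_SE_open`.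
* `exists_run`: `exists_hits` with `C = cor m n`, `k = 2(b-a)+1` (`next_mem_cor`, `under`).
* `DD_under`: no `(2a+i,0)`, `0 ≤ i ≤ 2(b-a)`, is in `DD`: induction on `i`; `i = 0` is `ss a ∉ DD` (second part of `Hits`);
  if `(2a+i+1,0) = (next ω)^[t] (rr b)`, then `t ≠ 0` (abscissa), and by injectivity `(next ω)^[t-1] (rr b) = (2a+i,0)`.
* `DD_reach`: along the orbit by `reach_next`; `(a,0)` and `(b,0)` are connected by the arc (induction; e.g. by `under` and `reach_next` again: the
  orbit of `ss a` reaches `rr b`, `vtx (ss a) = (a,0)`, `vtx (rr b) = (b,0)`).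
* `visits_iff`: unfold; `t < TT` iff no `i ≤ t` is a hitting time.
-/

set_option autoImplicit false

noncomputable section

namespace FKI

open Finset

/-- the starting corner of the interface -/
def rr (b : ℤ) : V := (2 * b + 1, 0)

/-- the final corner of the interface -/
def ss (a : ℤ) : V := (2 * a, 0)

/-- the arc lies in the bottom side -/
structure Geo (m : ℕ) (a b : ℤ) : Prop where
  ha : 0 ≤ a
  hab : a ≤ b
  hb : b ≤ m

theorem mem_cfg {m n : ℕ} {a b : ℤ} {ω : Finset Edge} :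
    ω ∈ cfg m n a b ↔ ω ⊆ edges m n ∧ arc a b ⊆ ω := by
  unfold cfg
  rw [mem_filter, mem_powerset]

theorem rr_ne_ss (a b : ℤ) : rr b ≠ ss a := by
  intro h
  have h1 : 2 * b + 1 = 2 * a := congrArg Prod.fst h
  omega

theorem rr_mem {m n : ℕ} {a b : ℤ} (hg : Geo m a b) : rr b ∈ cor m n := by
  obtain ⟨ha, hab, hb⟩ := hg
  unfold rr cor
  simp only [mem_product, mem_Icc]
  omega

theorem under {m n : ℕ} {a b : ℤ} (hg : Geo m a b) {ω : Finset Edge} (hω : ω ∈ cfg m n a b)
    (i : ℕ) (hi : (i : ℤ) ≤ 2 * (b - a) + 1) : (next ω)^[i] (ss a) = (2 * a + i, 0) := by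
  obtain ⟨h1, h2⟩ := mem_cfg.1 hω
  induction i with
  | zero => simp [ss]
  | succ i ih =>
    rw [Function.iterate_succ_apply', ih (by push_cast at hi; omega)]
    rcases Nat.even_or_odd' i with ⟨j, hj | hj⟩
    · have e1 : ((2 * a + (i : ℤ), 0) : V) = (2 * (a + j), 2 * 0) := by
        rw [hj]; push_cast; ext <;> simp; ring
      have hn : (a + (j : ℤ), (0 : ℤ) - 1, true) ∉ ω := by
        intro hc
        have := mem_edges.1 (h1 hc)
        simp at this
      rw [e1, next_SW_closed hn]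
      rw [hj]; push_cast; ext <;> simp; ring
    · have e1 : ((2 * a + (i : ℤ), 0) : V) = (2 * (a + j) + 1, 2 * 0) := by
        rw [hj]; push_cast; ext <;> simp; ring
      have hn : (a + (j : ℤ), (0 : ℤ), false) ∈ ω := by
        apply h2
        unfold arc
        simp only [mem_product, mem_Ico, mem_singleton, and_true]
        subst hj
        push_cast at hi
        omega
      rw [e1, next_SE_open hn]
      rw [hj]; push_cast; ext <;> simp; ring

theorem run_ss_rr {m n : ℕ} {a b : ℤ} (hg : Geo m a b) {ω : Finset Edge}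
    (hω : ω ∈ cfg m n a b) : (next ω)^[(2 * (b - a) + 1).toNat] (ss a) = rr b := by
  have hab := hg.hab
  have h0 : (((2 * (b - a) + 1).toNat : ℕ) : ℤ) = 2 * (b - a) + 1 := Int.toNat_of_nonneg (by omega)
  rw [under hg hω _ (by rw [h0]), h0]
  unfold rr
  ext <;> simp
  ring

theorem exists_run {m n : ℕ} {a b : ℤ} (hg : Geo m a b) {ω : Finset Edge}
    (hω : ω ∈ cfg m n a b) : ∃ T, Hits (next ω) (rr b) (ss a) T :=
  exists_hits (next_inj ω) (cor m n) (fun _ hp => next_mem_cor (mem_cfg.1 hω).1 hp) (rr_mem hg)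
    (2 * (b - a) + 1).toNat (run_ss_rr hg hω)

/-- the length of the interface -/
def TT (ω : Finset Edge) (a b : ℤ) : ℕ := sInf {t : ℕ | (next ω)^[t] (rr b) = ss a}

/-- the interface, without its last corner -/
def DD (ω : Finset Edge) (a b : ℤ) : List V := run (next ω) (rr b) (TT ω a b)

theorem hits {m n : ℕ} {a b : ℤ} (hg : Geo m a b) {ω : Finset Edge} (hω : ω ∈ cfg m n a b) :
    Hits (next ω) (rr b) (ss a) (TT ω a b) := by
  obtain ⟨T, hT⟩ := exists_run hg hω
  have hne : {t : ℕ | (next ω)^[t] (rr b) = ss a}.Nonempty := ⟨T, hT.1⟩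
  exact ⟨Nat.sInf_mem hne, fun i hi => Nat.notMem_of_lt_sInf hi⟩

theorem TT_pos {m n : ℕ} {a b : ℤ} (hg : Geo m a b) {ω : Finset Edge} (hω : ω ∈ cfg m n a b) :
    0 < TT ω a b := by
  rcases Nat.eq_zero_or_pos (TT ω a b) with h | h
  · have h1 := (hits hg hω).1
    rw [h] at h1
    exact absurd h1 (rr_ne_ss a b)
  · exact h

theorem orbit_mem_cor {m n : ℕ} {a b : ℤ} (hg : Geo m a b) {ω : Finset Edge}
    (hω : ω ∈ cfg m n a b) (t : ℕ) : (next ω)^[t] (rr b) ∈ cor m n := by
  induction t with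
  | zero => exact rr_mem hg
  | succ t ih =>
    rw [Function.iterate_succ_apply']
    exact next_mem_cor (mem_cfg.1 hω).1 ih

theorem DD_mem_cor {m n : ℕ} {a b : ℤ} (hg : Geo m a b) {ω : Finset Edge}
    (hω : ω ∈ cfg m n a b) {p : V} (hp : p ∈ DD ω a b) : p ∈ cor m n := by
  obtain ⟨i, _, rfl⟩ := mem_run.1 hp
  exact orbit_mem_cor hg hω i

theorem run_under_aux {m n : ℕ} {a b : ℤ} (hg : Geo m a b) {ω : Finset Edge}
    (hω : ω ∈ cfg m n a b) (i : ℕ) (hi : (i : ℤ) ≤ 2 * (b - a)) :
    ∀ t < TT ω a b, (next ω)^[t] (rr b) ≠ (2 * a + i, 0) := by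
  induction i with
  | zero =>
    intro t ht h
    refine (hits hg hω).2 t ht ?_
    rw [h]
    simp [ss]
  | succ i ih =>
    intro t ht h
    have hi' : (i : ℤ) + 1 ≤ 2 * (b - a) := by push_cast at hi; exact hi
    cases t with
    | zero =>
      have h1 : 2 * b + 1 = 2 * a + ((i + 1 : ℕ) : ℤ) := congrArg Prod.fst h
      push_cast at h1
      omega
    | succ t =>
      refine ih (by omega) t (by omega) ?_
      apply next_inj ω
      rw [← Function.iterate_succ_apply' (next ω) t, h, ← under hg hω i (by omega),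
        ← Function.iterate_succ_apply' (next ω) i, under hg hω (i + 1) (by push_cast; omega)]

theorem DD_under {m n : ℕ} {a b : ℤ} (hg : Geo m a b) {ω : Finset Edge}
    (hω : ω ∈ cfg m n a b) {p : V} (hp : p ∈ DD ω a b) :
    ¬ (p.2 = 0 ∧ 2 * a ≤ p.1 ∧ p.1 ≤ 2 * b) := by
  rintro ⟨h1, h2, h3⟩
  obtain ⟨t, ht, hpt⟩ := mem_run.1 hp
  have hi : (((p.1 - 2 * a).toNat : ℕ) : ℤ) = p.1 - 2 * a := Int.toNat_of_nonneg (by omega)
  refine run_under_aux hg hω (p.1 - 2 * a).toNat (by omega) t ht ?_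
  rw [hpt, hi]
  ext
  · simp
  · exact h1

theorem run_reach_iter (ω : Finset Edge) (p : V) (t : ℕ) :
    (gr ω).Reachable (vtx p) (vtx ((next ω)^[t] p)) := by
  induction t with
  | zero => exact SimpleGraph.Reachable.refl _
  | succ t ih =>
    rw [Function.iterate_succ_apply']
    exact ih.trans (reach_next ω _)

theorem DD_reach {m n : ℕ} {a b : ℤ} (hg : Geo m a b) {ω : Finset Edge}
    (hω : ω ∈ cfg m n a b) {p : V} (hp : p ∈ DD ω a b) :
    (gr ω).Reachable (a, 0) (vtx p) := by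
  obtain ⟨t, _, rfl⟩ := mem_run.1 hp
  have h1 := run_reach_iter ω (ss a) (2 * (b - a) + 1).toNat
  rw [run_ss_rr hg hω] at h1
  have h2 : vtx (ss a) = (a, 0) := by
    unfold vtx ss
    ext <;> simp
  rw [h2] at h1
  exact h1.trans (run_reach_iter ω (rr b) t)

theorem visits_iff {m n : ℕ} {a b : ℤ} (hg : Geo m a b) {ω : Finset Edge}
    (hω : ω ∈ cfg m n a b) (p : V) : Visits ω a b p ↔ p ∈ DD ω a b := by
  have hH := hits hg hω
  unfold DD
  rw [mem_run]
  constructor
  · rintro ⟨t, h1, h2⟩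
    refine ⟨t, ?_, h1⟩
    by_contra hc
    exact h2 (TT ω a b) (not_lt.1 hc) hH.1
  · rintro ⟨t, ht, h1⟩
    exact ⟨t, h1, fun i hi => hH.2 i (lt_of_le_of_lt hi ht)⟩

end FKI
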