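import Pool.Agent.Lib.MP_216314_pr.Abs

/-!
# JOB Spl: what happens to a run when the images of two points are exchanged

`f' ` is `f` with the images of `c1` and `c2` exchanged. `D = run f r T`, `D' = run f' r T'` (both end just before `s`).

PROOF. If neither `c1` nor `c2` is in `D`, then `D` is a run of `f'` too (`chain_run`), so `D' = D` (`Hits.unique`).
Otherwise let `x` be the first point of `D` in `{c1, c2}` (`List.append_of_mem` applied to the first occurrence; e.g. by `List.takeWhile`,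
or strong induction, or use times: the least `i < T` with `f^[i] r ∈ {c1, c2}`), `y` the other one. `D = A ++ x :: R`, no `c1, c2` in `A`, and
`D' = A ++ x :: R'` (same start: `f' = f` on `A`).
(a) `y ∈ R`: `R = M ++ y :: B`. Then `A ++ x :: B` is a run of `f'`: `f' x = f y` is the head of `B` (or `s`, if `B = []`), `f' = f` on `B`. So
    `D' = A ++ x :: B` by `chain_run` and uniqueness (second alternative).
(b) `y ∉ R`, `y ∈ R'`: the same with `f` and `f'` exchanged (third alternative) - the hypotheses are symmetric in `f` and `f'`.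
(c) `y ∉ R`, `y ∉ R'`: impossible. `R` is the orbit of `v = f x` under `f` up to `s` (length `l`, `f^[l] v = s`), `R'` is the orbit of
    `u = f' x = f y` under `f'`, hence under `f`, up to `s` (`f^[k] u = s`), as `c1, c2 ∉ R'`. If `k ≤ l`: `f^[k] u = f^[k] (f^[l-k] v)`, so
    `u = f^[l-k] v` by injectivity; if `l = k` then `f y = f x`, `y = x`; if `l > k`, `f y = f (f^[l-k-1] v)`, `y = f^[l-k-1] v ∈ R`.
    If `k > l`: `v = f^[k-l] u`, `f x = f (f^[k-l-1] u)`, so `x ∈ R'`, contradiction to `run_nodup` for `D'`.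
-/

set_option autoImplicit false

namespace FKI

variable {α : Type*}

/-- `D` is obtained from the shorter list `D'` by the insertion of `M ++ [y]` after `x` -/
def Longer (c1 c2 : α) (D D' : List α) : Prop :=
  ∃ A M B : List α, ∃ x y : α, ((x = c1 ∧ y = c2) ∨ (x = c2 ∧ y = c1)) ∧
    D = A ++ x :: (M ++ y :: B) ∧ D' = A ++ x :: B ∧
    (∀ z ∈ A, z ≠ c1 ∧ z ≠ c2) ∧ (∀ z ∈ M, z ≠ c1 ∧ z ≠ c2) ∧ (∀ z ∈ B, z ≠ c1 ∧ z ≠ c2)

theorem spl_free {f f' : α → α} {c1 c2 : α} (h3 : ∀ p, p ≠ c1 → p ≠ c2 → f' p = f p) {r s : α}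
    {T : ℕ} (hT : Hits f r s T) (n1 : c1 ∉ run f r T) (n2 : c2 ∉ run f r T) :
    Hits f' r s T ∧ run f' r T = run f r T := by
  have key : ∀ i, i ≤ T → f'^[i] r = f^[i] r := by
    intro i
    induction i with
    | zero => intro _; rfl
    | succ i ih =>
      intro hi
      rw [Function.iterate_succ_apply', Function.iterate_succ_apply', ih (by omega)]
      apply h3
      · intro h
        exact n1 (mem_run.2 ⟨i, by omega, h⟩)
      · intro h
        exact n2 (mem_run.2 ⟨i, by omega, h⟩)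
  refine ⟨⟨by rw [key T le_rfl]; exact hT.1, fun i hi => by rw [key i hi.le]; exact hT.2 i hi⟩, ?_⟩
  unfold run
  apply List.map_congr_left
  intro i hi
  exact key i (List.mem_range.1 hi).le

theorem spl_cons (f : α → α) (r : α) (T : ℕ) : run f r (T + 1) = r :: run f (f r) T := by
  unfold run
  rw [List.range_succ_eq_map, List.map_cons, List.map_map]
  rfl

theorem spl_split (f : α → α) (v : α) (j m : ℕ) :
    run f v (j + 1 + m) = run f v j ++ f^[j] v :: run f (f^[j + 1] v) m := by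
  induction j generalizing v with
  | zero =>
    rw [show 0 + 1 + m = m + 1 by omega, spl_cons]
    rfl
  | succ j ih =>
    rw [show j + 1 + 1 + m = (j + 1 + m) + 1 by omega, spl_cons, ih (f v), spl_cons f v j]
    rfl

theorem spl_tail {f : α → α} {v s : α} {j m : ℕ} (h : Hits f v s (j + m)) :
    Hits f (f^[j] v) s m := by
  constructor
  · rw [← Function.iterate_add_apply, add_comm m j]
    exact h.1
  · intro i hi
    rw [← Function.iterate_add_apply]
    exact h.2 (i + j) (by omega)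

theorem spl_tail1 {f : α → α} {v s : α} {m : ℕ} (h : Hits f v s (m + 1)) : Hits f (f v) s m := by
  have h' : Hits f v s (1 + m) := by rwa [add_comm] at h
  exact spl_tail h'

theorem spl_a {f f' : α → α} (hf : Function.Injective f) {x y : α} (hxy : x ≠ y)
    (h1 : f' x = f y) (h3 : ∀ p, p ≠ x → p ≠ y → f' p = f p) {s : α} {l k : ℕ}
    (hl : Hits f x s (l + 1)) (hk : Hits f' x s (k + 1)) (hy : y ∈ run f (f x) l) :
    ∃ M B : List α, run f x (l + 1) = x :: (M ++ y :: B) ∧ run f' x (k + 1) = x :: B ∧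
      (∀ z ∈ M, z ≠ x ∧ z ≠ y) ∧ (∀ z ∈ B, z ≠ x ∧ z ≠ y) := by
  have hnd := run_nodup hf hl
  obtain ⟨j, hj, hjy⟩ := mem_run.1 hy
  obtain ⟨m, rfl⟩ : ∃ m, l = j + 1 + m := ⟨l - j - 1, by omega⟩
  have e1 := spl_split f (f x) j m
  have e2 : f^[j + 1] (f x) = f y := by rw [Function.iterate_succ_apply', hjy]
  rw [hjy, e2] at e1
  have hl' : Hits f (f x) s (j + 1 + m) := spl_tail1 hl
  have hB : Hits f (f y) s m := by rw [← e2]; exact spl_tail hl'
  rw [spl_cons, e1] at hnd
  obtain ⟨hn1, hn2⟩ := List.nodup_cons.1 hnd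
  rw [List.nodup_middle] at hn2
  have hn3 := (List.nodup_cons.1 hn2).1
  rw [List.mem_append, not_or] at hn1 hn3
  have hk' : Hits f' (f y) s k := by rw [← h1]; exact spl_tail1 hk
  have hx2 : x ∉ run f (f y) m := fun h => hn1.2 (List.mem_cons_of_mem _ h)
  obtain ⟨g1, g2⟩ := spl_free h3 hB hx2 hn3.2
  have hkm : k = m := hk'.unique g1
  subst hkm
  refine ⟨run f (f x) j, run f (f y) k, by rw [spl_cons, e1], by rw [spl_cons, h1, g2], ?_, ?_⟩
  · intro z hz
    refine ⟨?_, ?_⟩
    · rintro rfl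
      exact hn1.1 hz
    · rintro rfl
      exact hn3.1 hz
  · intro z hz
    refine ⟨?_, ?_⟩
    · rintro rfl
      exact hx2 hz
    · rintro rfl
      exact hn3.2 hz

theorem spl_c {f : α → α} (hf : Function.Injective f) {x y s : α} (hxy : x ≠ y) {l k : ℕ}
    (hl : Hits f (f x) s l) (hk : Hits f (f y) s k) (hy : y ∉ run f (f x) l) (hkl : k ≤ l) :
    False := by
  obtain ⟨d, rfl⟩ : ∃ d, l = k + d := ⟨l - k, by omega⟩
  have e1 : f^[k] (f y) = f^[k] (f^[d] (f x)) := by
    rw [hk.1, ← Function.iterate_add_apply, hl.1]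
  have e2 : f y = f^[d] (f x) := hf.iterate k e1
  rcases d with _ | j
  · exact hxy (hf e2).symm
  · rw [Function.iterate_succ_apply'] at e2
    exact hy (mem_run.2 ⟨j, by omega, (hf e2).symm⟩)

theorem spl_head {f f' : α → α} (hf : Function.Injective f) (hf' : Function.Injective f')
    {x y : α} (hxy : x ≠ y) (h1 : f' x = f y) (h2 : f' y = f x)
    (h3 : ∀ p, p ≠ x → p ≠ y → f' p = f p) {s : α} {l k : ℕ}
    (hl : Hits f x s (l + 1)) (hk : Hits f' x s (k + 1)) :
    (∃ M B : List α, run f x (l + 1) = x :: (M ++ y :: B) ∧ run f' x (k + 1) = x :: B ∧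
      (∀ z ∈ M, z ≠ x ∧ z ≠ y) ∧ (∀ z ∈ B, z ≠ x ∧ z ≠ y)) ∨
    (∃ M B : List α, run f' x (k + 1) = x :: (M ++ y :: B) ∧ run f x (l + 1) = x :: B ∧
      (∀ z ∈ M, z ≠ x ∧ z ≠ y) ∧ (∀ z ∈ B, z ≠ x ∧ z ≠ y)) := by
  by_cases hy : y ∈ run f (f x) l
  · left
    exact spl_a hf hxy h1 h3 hl hk hy
  by_cases hy' : y ∈ run f' (f' x) k
  · right
    exact spl_a hf' hxy h2.symm (fun p hp hp' => (h3 p hp hp').symm) hk hl hy'
  exfalso
  have hnd := run_nodup hf' hk
  rw [spl_cons] at hnd
  have hx' := (List.nodup_cons.1 hnd).1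
  have hk' : Hits f' (f' x) s k := spl_tail1 hk
  have hl' : Hits f (f x) s l := spl_tail1 hl
  obtain ⟨g1, g2⟩ := spl_free (fun p hp hp' => (h3 p hp hp').symm) hk' hx' hy'
  rw [h1] at g1 g2 hx'
  rcases le_total k l with hkl | hkl
  · exact spl_c hf hxy hl' g1 hy hkl
  · exact spl_c hf hxy.symm g1 hl' (by rw [g2]; exact hx') hkl

theorem spl_longer_cons {c1 c2 r : α} (h1 : r ≠ c1) (h2 : r ≠ c2) {D D' : List α}
    (h : Longer c1 c2 D D') : Longer c1 c2 (r :: D) (r :: D') := by
  obtain ⟨A, M, B, x, y, hxy, e1, e2, hA, hM, hB⟩ := h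
  refine ⟨r :: A, M, B, x, y, hxy, by rw [e1]; rfl, by rw [e2]; rfl, ?_, hM, hB⟩
  intro z hz
  rcases List.mem_cons.1 hz with rfl | hz
  · exact ⟨h1, h2⟩
  · exact hA z hz

theorem splice {f f' : α → α} (hf : Function.Injective f) (hf' : Function.Injective f')
    {c1 c2 : α} (hc : c1 ≠ c2) (h1 : f' c1 = f c2) (h2 : f' c2 = f c1)
    (h3 : ∀ p, p ≠ c1 → p ≠ c2 → f' p = f p) {r s : α} {T T' : ℕ} (hT : Hits f r s T)
    (hT' : Hits f' r s T') (hrs : r ≠ s) :
    (c1 ∉ run f r T ∧ c2 ∉ run f r T ∧ run f' r T' = run f r T) ∨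
    Longer c1 c2 (run f r T) (run f' r T') ∨ Longer c1 c2 (run f' r T') (run f r T) := by
  clear hrs
  induction T generalizing r T' with
  | zero =>
    have hrs : r = s := hT.1
    have h0 : T' = 0 := by
      by_contra h
      exact hT'.2 0 (by omega) hrs
    subst h0
    left
    exact ⟨List.not_mem_nil, List.not_mem_nil, rfl⟩
  | succ T ih =>
    have hrs : r ≠ s := hT.2 0 (by omega)
    obtain ⟨T'', rfl⟩ : ∃ k, T' = k + 1 := by
      rcases T' with _ | k
      · exact absurd hT'.1 hrs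
      · exact ⟨k, rfl⟩
    by_cases hr1 : r = c1
    · subst hr1
      right
      rcases spl_head hf hf' hc h1 h2 h3 hT hT' with ⟨M, B, e1, e2, hM, hB⟩ | ⟨M, B, e1, e2, hM, hB⟩
      · left
        exact ⟨[], M, B, r, c2, Or.inl ⟨rfl, rfl⟩, e1, e2,
          fun z hz => absurd hz List.not_mem_nil, hM, hB⟩
      · right
        exact ⟨[], M, B, r, c2, Or.inl ⟨rfl, rfl⟩, e1, e2,
          fun z hz => absurd hz List.not_mem_nil, hM, hB⟩
    by_cases hr2 : r = c2
    · subst hr2
      right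
      rcases spl_head hf hf' hc.symm h2 h1 (fun p hp hp' => h3 p hp' hp) hT hT' with
        ⟨M, B, e1, e2, hM, hB⟩ | ⟨M, B, e1, e2, hM, hB⟩
      · left
        exact ⟨[], M, B, r, c1, Or.inr ⟨rfl, rfl⟩, e1, e2,
          fun z hz => absurd hz List.not_mem_nil, fun z hz => (hM z hz).symm,
          fun z hz => (hB z hz).symm⟩
      · right
        exact ⟨[], M, B, r, c1, Or.inr ⟨rfl, rfl⟩, e1, e2,
          fun z hz => absurd hz List.not_mem_nil, fun z hz => (hM z hz).symm,
          fun z hz => (hB z hz).symm⟩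
    have e := h3 r hr1 hr2
    have a1 : Hits f (f r) s T := spl_tail1 hT
    have a2 : Hits f' (f r) s T'' := by
      rw [← e]
      exact spl_tail1 hT'
    rw [spl_cons f, spl_cons f', e]
    rcases ih a1 a2 with ⟨m1, m2, m3⟩ | h | h
    · left
      refine ⟨?_, ?_, by rw [m3]⟩
      · intro hm
        rcases List.mem_cons.1 hm with h | h
        · exact hr1 h.symm
        · exact m1 h
      · intro hm
        rcases List.mem_cons.1 hm with h | h
        · exact hr2 h.symm
        · exact m2 h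
    · right; left
      exact spl_longer_cons hr1 hr2 h
    · right; right
      exact spl_longer_cons hr1 hr2 h

end FKI
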