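import Pool.Agent.Lib.MP_216314_pr.Loc

/-!
# JOB SumA: summation over the edges

* `SS_total`: with `G` an antiderivative of `g` (`exists_anti`), every contribution is `G (w + dl) - G w`: `SS g ω (fun _ => True) w D = G (w + ∑ dl) - G w`
  (induction). With `w = 0` and total winding `3` (`Wd_stop`, `Wd_eq_sum`): `G 3 - G 0 = g 0 + g 1 + g 2`.
* `SS_split`: `SS` is additive in the predicate: every corner meets exactly one edge, which is in `edges m n \ arc a b`, in the arc, or not in the box
  (`Finset.sum_ite_eq`; induction on `D`).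
* `sum_edge`: `∑_{ω ∈ cfg} wts ω * SS (edgeOf = e) = 0` for `e ∈ edges m n \ arc a b`: the configurations with `e ∉ ω` and with `e ∈ ω` are in
  bijection by `insert e` (`arc a b ⊆ ω` is not affected), `loc_edge`; e.g. `Finset.sum_filter_add_sum_filter_not` and `Finset.sum_bij'` (`erase`).
* `sum_rest`: combine.
-/

set_option autoImplicit false

noncomputable section

namespace FKI

open Finset

/-- an antiderivative -/
def SumA_G (g : ℤ → ℝ) : ℤ → ℝ
  | Int.ofNat n => ∑ i ∈ range n, g (i : ℤ)
  | Int.negSucc n => - ∑ i ∈ range (n + 1), g (Int.negSucc i)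

theorem exists_anti (g : ℤ → ℝ) : ∃ G : ℤ → ℝ, ∀ w, G (w + 1) = G w + g w := by
  refine ⟨SumA_G g, ?_⟩
  intro w
  cases w with
  | ofNat n =>
    show (∑ i ∈ range (n + 1), g (i : ℤ)) = (∑ i ∈ range n, g (i : ℤ)) + g (n : ℤ)
    rw [Finset.sum_range_succ]
  | negSucc n =>
    cases n with
    | zero =>
      show (∑ i ∈ range 0, g (i : ℤ)) = (- ∑ i ∈ range (0 + 1), g (Int.negSucc i)) + g (Int.negSucc 0)
      rw [Finset.sum_range_succ]
      simp
    | succ n =>
      show (- ∑ i ∈ range (n + 1), g (Int.negSucc i)) =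
        (- ∑ i ∈ range (n + 1 + 1), g (Int.negSucc i)) + g (Int.negSucc (n + 1))
      rw [Finset.sum_range_succ _ (n + 1)]
      ring

theorem SumA_tel {G : ℤ → ℝ} {g : ℤ → ℝ} (hG : ∀ w, G (w + 1) = G w + g w) (ω : Finset Edge)
    (D : List V) : ∀ w : ℤ, SS g ω (fun _ => True) w D = G (w + (D.map (dl ω)).sum) - G w := by
  induction D with
  | nil =>
    intro w
    simp [SS]
  | cons p D ih =>
    intro w
    rw [SS, ih, if_pos trivial, List.map_cons, List.sum_cons]
    have h1 : w + (dl ω p + (D.map (dl ω)).sum) = w + dl ω p + (D.map (dl ω)).sum := by ring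
    rw [h1]
    by_cases h : edgeOf p ∈ ω
    · have h2 : dl ω p = -1 := by rw [dl, if_pos h]
      have h3 : ct g ω p w = - g (w - 1) := by rw [ct, if_pos h]
      have h4 := hG (w - 1)
      have h5 : w - 1 + 1 = w := by ring
      rw [h5] at h4
      have h6 : w + -1 = w - 1 := by ring
      rw [h2, h3, h6]
      linarith
    · have h2 : dl ω p = 1 := by rw [dl, if_neg h]
      have h3 : ct g ω p w = g w := by rw [ct, if_neg h]
      have h4 := hG w
      rw [h2, h3]
      linarith

theorem SS_total {m n : ℕ} {a b : ℤ} (hgeo : Geo m a b) (g : ℤ → ℝ) {ω : Finset Edge}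
    (hω : ω ∈ cfg m n a b) :
    SS g ω (fun _ => True) 0 (DD ω a b) = g 0 + g 1 + g 2 := by
  obtain ⟨G, hG⟩ := exists_anti g
  have h1 := Wd_stop hgeo hω
  rw [Wd_eq_sum] at h1
  have h2 : ((DD ω a b).map (dl ω)).sum = 3 := h1
  rw [SumA_tel hG, h2]
  have e0 := hG 0
  have e1 := hG 1
  have e2 := hG 2
  norm_num at e0 e1 e2 ⊢
  linarith

theorem SS_split (m n : ℕ) (a b : ℤ) (g : ℤ → ℝ) (ω : Finset Edge) (w : ℤ) (D : List V) :
    SS g ω (fun _ => True) w D =
      ∑ e ∈ edges m n \ arc a b, SS g ω (fun p => edgeOf p = e) w D +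
        SS g ω (fun p => edgeOf p ∈ edges m n ∩ arc a b) w D +
        SS g ω (fun p => edgeOf p ∉ edges m n) w D := by
  induction D generalizing w with
  | nil => simp [SS]
  | cons p D ih =>
    simp only [SS]
    rw [ih (w + dl ω p), Finset.sum_add_distrib, if_pos trivial]
    have key : ct g ω p w =
        (∑ e ∈ edges m n \ arc a b, (if edgeOf p = e then ct g ω p w else 0)) +
          (if edgeOf p ∈ edges m n ∩ arc a b then ct g ω p w else 0) +
          (if edgeOf p ∉ edges m n then ct g ω p w else 0) := by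
      by_cases h1 : edgeOf p ∈ edges m n
      · by_cases h2 : edgeOf p ∈ arc a b
        · have h3 : edgeOf p ∈ edges m n ∩ arc a b := Finset.mem_inter.2 ⟨h1, h2⟩
          have h4 : ∀ e ∈ edges m n \ arc a b, (if edgeOf p = e then ct g ω p w else 0) = 0 := by
            intro e he
            refine if_neg ?_
            intro h5
            rw [← h5] at he
            exact (Finset.mem_sdiff.1 he).2 h2
          rw [Finset.sum_eq_zero h4, if_pos h3, if_neg (not_not.2 h1)]
          ring
        · have h3 : edgeOf p ∉ edges m n ∩ arc a b := fun h => h2 (Finset.mem_inter.1 h).2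
          have h4 : edgeOf p ∈ edges m n \ arc a b := Finset.mem_sdiff.2 ⟨h1, h2⟩
          rw [Finset.sum_eq_single (edgeOf p) (fun e _ hne => if_neg (Ne.symm hne))
            (fun h => absurd h4 h), if_pos rfl, if_neg h3, if_neg (not_not.2 h1)]
          ring
      · have h3 : edgeOf p ∉ edges m n ∩ arc a b := fun h => h1 (Finset.mem_inter.1 h).1
        have h4 : ∀ e ∈ edges m n \ arc a b, (if edgeOf p = e then ct g ω p w else 0) = 0 := by
          intro e he
          refine if_neg ?_
          intro h5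
          rw [← h5] at he
          exact h1 (Finset.mem_sdiff.1 he).1
        rw [Finset.sum_eq_zero h4, if_neg h3, if_pos h1]
        ring
    have e1 : (∑ e ∈ edges m n \ arc a b,
        @ite ℝ (edgeOf p = e) (Classical.propDecidable _) (ct g ω p w) 0) =
        ∑ e ∈ edges m n \ arc a b, (if edgeOf p = e then ct g ω p w else 0) := by
      refine Finset.sum_congr rfl (fun e _ => ?_)
      by_cases h : edgeOf p = e
      · rw [if_pos h, if_pos h]
      · rw [if_neg h, if_neg h]
    have e2 : @ite ℝ (edgeOf p ∈ edges m n ∩ arc a b) (Classical.propDecidable _) (ct g ω p w) 0 =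
        (if edgeOf p ∈ edges m n ∩ arc a b then ct g ω p w else 0) := by
      by_cases h : edgeOf p ∈ edges m n ∩ arc a b
      · rw [if_pos h, if_pos h]
      · rw [if_neg h, if_neg h]
    have e3 : @ite ℝ (edgeOf p ∉ edges m n) (Classical.propDecidable _) (ct g ω p w) 0 =
        (if edgeOf p ∉ edges m n then ct g ω p w else 0) := by
      by_cases h : edgeOf p ∉ edges m n
      · rw [if_pos h, if_pos h]
      · rw [if_neg h, if_neg h]
    rw [e1, e2, e3]
    linarith

theorem sum_edge {m n : ℕ} {a b : ℤ} (hgeo : Geo m a b) {g : ℤ → ℝ} {s : ℝ}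
    (hg : ∀ w, g (w + 1) + g (w - 1) = s * g w) {e : Edge} (he : e ∈ edges m n \ arc a b) :
    ∑ ω ∈ cfg m n a b, wts s m n ω * SS g ω (fun p => edgeOf p = e) 0 (DD ω a b) = 0 := by
  obtain ⟨he1, he2⟩ := Finset.mem_sdiff.1 he
  have hb : ∑ ω ∈ (cfg m n a b).filter (fun ω => e ∈ ω),
        wts s m n ω * SS g ω (fun p => edgeOf p = e) 0 (DD ω a b) =
      ∑ ω ∈ (cfg m n a b).filter (fun ω => ¬ e ∈ ω),
        wts s m n (insert e ω) *
          SS g (insert e ω) (fun p => edgeOf p = e) 0 (DD (insert e ω) a b) := by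
    refine Finset.sum_nbij' (fun ω => ω.erase e) (fun ω => insert e ω) ?_ ?_ ?_ ?_ ?_
    · intro ω hω
      obtain ⟨h1, h2⟩ := Finset.mem_filter.1 hω
      obtain ⟨h3, h4⟩ := mem_cfg.1 h1
      refine Finset.mem_filter.2 ⟨mem_cfg.2 ⟨(Finset.erase_subset e ω).trans h3, ?_⟩,
        Finset.notMem_erase e ω⟩
      intro x hx
      refine Finset.mem_erase.2 ⟨?_, h4 hx⟩
      rintro rfl
      exact he2 hx
    · intro ω hω
      obtain ⟨h1, h2⟩ := Finset.mem_filter.1 hω
      exact Finset.mem_filter.2 ⟨insert_cfg he1 h1, Finset.mem_insert_self e ω⟩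
    · intro ω hω
      exact Finset.insert_erase (Finset.mem_filter.1 hω).2
    · intro ω hω
      exact Finset.erase_insert (Finset.mem_filter.1 hω).2
    · intro ω hω
      have h : insert e (ω.erase e) = ω := Finset.insert_erase (Finset.mem_filter.1 hω).2
      show wts s m n ω * SS g ω (fun p => edgeOf p = e) 0 (DD ω a b) =
        wts s m n (insert e (ω.erase e)) *
          SS g (insert e (ω.erase e)) (fun p => edgeOf p = e) 0 (DD (insert e (ω.erase e)) a b)
      rw [h]
  rw [← Finset.sum_filter_add_sum_filter_not (cfg m n a b) (fun ω => e ∈ ω), hb,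
    ← Finset.sum_add_distrib]
  refine Finset.sum_eq_zero (fun ω hω => ?_)
  obtain ⟨h1, h2⟩ := Finset.mem_filter.1 hω
  have h3 := loc_edge hgeo hg he1 h2 h1
  linarith

theorem sum_rest {m n : ℕ} {a b : ℤ} (hgeo : Geo m a b) {g : ℤ → ℝ} {s : ℝ}
    (hg : ∀ w, g (w + 1) + g (w - 1) = s * g w) :
    ∑ ω ∈ cfg m n a b, wts s m n ω *
      (SS g ω (fun p => edgeOf p ∈ edges m n ∩ arc a b) 0 (DD ω a b) +
        SS g ω (fun p => edgeOf p ∉ edges m n) 0 (DD ω a b)) =
      (g 0 + g 1 + g 2) * ∑ ω ∈ cfg m n a b, wts s m n ω := by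
  have h1 : ∀ ω ∈ cfg m n a b, wts s m n ω *
      (SS g ω (fun p => edgeOf p ∈ edges m n ∩ arc a b) 0 (DD ω a b) +
        SS g ω (fun p => edgeOf p ∉ edges m n) 0 (DD ω a b)) =
      (g 0 + g 1 + g 2) * wts s m n ω - ∑ e ∈ edges m n \ arc a b,
        wts s m n ω * SS g ω (fun p => edgeOf p = e) 0 (DD ω a b) := by
    intro ω hω
    have h2 := SS_total hgeo g hω
    rw [SS_split m n a b g ω 0 (DD ω a b)] at h2
    rw [← Finset.mul_sum, ← h2]
    ring
  rw [Finset.sum_congr rfl h1, Finset.sum_sub_distrib, Finset.mul_sum, Finset.sum_comm,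
    Finset.sum_eq_zero (s := edges m n \ arc a b) (fun e he => sum_edge hgeo hg he), sub_zero]

end FKI
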