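import Pool.Agent.Lib.MP_216314_pr.Defs

/-!
# Definitions of the final statement: wired arc in the union of the lower and left side

The arc starts at the vertex `(b,0)` of the lower side and goes clockwise: it ends at `(-K,0)` if `K < 0`, and if `K ≥ 0` it goes
through the corner `(0,0)` and ends at the vertex `(0,K)` of the left side.
-/

set_option autoImplicit false

noncomputable section

namespace FKI

open Finset

/-- the edges of the wired arc -/
def warc (b K : ℤ) : Finset Edge :=
  (Ico (max 0 (-K)) b ×ˢ ({0} ×ˢ {false})) ∪ ({0} ×ˢ (Ico 0 K ×ˢ {true}))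

/-- the configurations of the box `[0,m] × [0,n]` in which the arc is wired (its edges are open) -/
def wcfg (m n : ℕ) (b K : ℤ) : Finset (Finset Edge) :=
  (edges m n).powerset.filter (fun ω => warc b K ⊆ ω)

/-- expectation under the critical random-cluster measure with the wired arc, free elsewhere -/
def Ex (q : ℝ) (m n : ℕ) (b K : ℤ) (F : Finset Edge → ℝ) : ℝ :=
  (∑ ω ∈ wcfg m n b K, wt q m n ω * F ω) / ∑ ω ∈ wcfg m n b K, wt q m n ω

/-- the corner at which the interface stops: the south west corner of `(-K,0)` or the north west
corner of `(0,K)` -/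
def stopc (K : ℤ) : V := if K < 0 then (-2 * K, 0) else (0, 2 * K + 1)

/-- the interface passes at the corner `p` -/
def Pass (ω : Finset Edge) (b K : ℤ) (p : V) : Prop :=
  ∃ t : ℕ, (next ω)^[t] (2 * b + 1, 0) = p ∧ ∀ i ≤ t, (next ω)^[i] (2 * b + 1, 0) ≠ stopc K

open Classical in
/-- number of vertices of the right side connected to the arc -/
def cR (m n : ℕ) (b : ℤ) (ω : Finset Edge) : ℝ :=
  ((Icc 0 (n : ℤ)).filter (fun y => (gr ω).Reachable (b, 0) ((m : ℤ), y))).card

open Classical in
/-- number of vertices of the upper side connected to the arc -/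
def cT (m n : ℕ) (b : ℤ) (ω : Finset Edge) : ℝ :=
  ((Icc 0 (m : ℤ)).filter (fun x => (gr ω).Reachable (b, 0) (x, (n : ℤ)))).card

open Classical in
/-- number of vertices of the free part of the left side connected to the arc -/
def cL (n : ℕ) (b K : ℤ) (ω : Finset Edge) : ℝ :=
  ((Icc (max 0 (K + 1)) (n : ℤ)).filter (fun y => (gr ω).Reachable (b, 0) (0, y))).card

open Classical in
/-- number of vertices of the lower side to the left of the arc connected to it -/
def cBL (b K : ℤ) (ω : Finset Edge) : ℝ :=
  ((Ico 0 (-K)).filter (fun x => (gr ω).Reachable (b, 0) (x, 0))).card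

open Classical in
/-- number of vertices of the lower side to the right of the arc connected to it -/
def cBR (m : ℕ) (b : ℤ) (ω : Finset Edge) : ℝ :=
  ((Ioc b (m : ℤ)).filter (fun x => (gr ω).Reachable (b, 0) (x, 0))).card

open Classical in
/-- number of arc edges of the lower side along whose upper side the interface passes -/
def aB (b K : ℤ) (ω : Finset Edge) : ℝ :=
  ((Ico (max 0 (-K)) b).filter (fun j => Pass ω b K (2 * j + 2, 1))).card

open Classical in
/-- number of arc edges of the left side along whose right side the interface passes -/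
def aL (b K : ℤ) (ω : Finset Edge) : ℝ :=
  ((Ico 0 K).filter (fun j => Pass ω b K (1, 2 * j + 1))).card

end FKI
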