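import Pool.Agent.Lib.MP_216314_pr.Run
import Pool.Agent.Lib.MP_216314_pr.Par

/-!
# JOB VisA: a boundary corner of the cluster of the arc is on the interface (general principle)

`o` is a chain outside the box joining `v` to `(a,0)`: it has boundary `ind v + ind (a,0)`; the only edges of `o` that a corner of the box can meet
(`edgeOf p`, `p ∈ cor m n`) are the edge met by `p0` and the edge `(a,-1,true)` below `(a,0)` (met by `ss a` only).

PROOF. Suppose `v` is connected to `(a,0)` in `ω`: `pth` gives `c` in `ω`, `c' = c + o` is closed (`Clo`). Suppose `p0 ∉ DD ω a b`. For every `p ∈ DD ω a b`: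
`par c' (next ω p) = par c' p` by `par_next`: if `edgeOf p ∉ ω` then `c (edgeOf p) = 0`, and `o (edgeOf p) = 0` because otherwise
`p = p0` or `p = ss a` (`ho`), none of which is in `DD`. So `par c'` is the same at `rr b` and `ss a` (induction along the orbit, `Hits`).
But `par c' (rr b) = c' (b, -1, false) = o (b,-1,false)` and `par c' (ss a) = o (a-1,-1,false)` (only the row `-1` is below; `c` vanishes there as `ω ⊆ edges m n`),
which differ (`hd`).
-/

set_option autoImplicit false

noncomputable section

namespace FKI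

open Finset

theorem visA_row {m n : ℕ} {ω : Finset Edge} (hω : ω ⊆ edges m n) {c : Edge → ZMod 2}
    (hc : ∀ e ∉ ω, c e = 0) (x k : ℤ) (t : Bool) (hk : k < 0) : c (x, k, t) = 0 := by
  refine hc _ fun hmem => ?_
  have h1 := hω hmem
  unfold edges at h1
  simp only [Finset.mem_union, Finset.mem_product, Finset.mem_Ico, Finset.mem_Icc] at h1
  rcases h1 with h1 | h1 <;> omega

theorem visA_char (x y : ZMod 2) : x + y + (y + x) = 0 := by
  revert x y
  decide

theorem visA_par_zero (c : Edge → ZMod 2) (X x : ℤ) (hx : (X - 1) / 2 = x) :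
    par c (X, 0) = c (x, -1, false) := by
  unfold par
  have h1 : Finset.Ico (-1 : ℤ) (((X, (0 : ℤ)).2 + 1) / 2) = {-1} := by
    have h2 : (((X, (0 : ℤ)).2 + 1) / 2) = (0 : ℤ) := by
      show ((0 : ℤ) + 1) / 2 = 0
      norm_num
    rw [h2]
    rfl
  rw [h1, Finset.sum_singleton]
  show c ((X - 1) / 2, -1, false) = _
  rw [hx]

theorem vis_of_chain {m n : ℕ} {a b : ℤ} (hg : Geo m a b) {ω : Finset Edge}
    (hω : ω ∈ cfg m n a b) {v : V} {p0 : V} (o : Edge → ZMod 2)
    (hbd : ∀ w, bd o w = ind v w + ind (a, 0) w) (hlow : ∀ x k t, k < -1 → o (x, k, t) = 0)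
    (ho : ∀ p ∈ cor m n, o (edgeOf p) ≠ 0 → p = p0 ∨ p = ss a)
    (hd : o (b, -1, false) ≠ o (a - 1, -1, false))
    (hr : (gr ω).Reachable (a, 0) v) : p0 ∈ DD ω a b := by
  have hωe : ω ⊆ edges m n := (mem_cfg.1 hω).1
  obtain ⟨c, hc0, hcb⟩ := pth hr
  have hrow := fun x k t hk => visA_row hωe hc0 x k t hk
  have hclo : Clo (c + o) := by
    constructor
    · intro w
      rw [bd_add, hcb, hbd]
      exact visA_char _ _
    · intro x k t hk
      rw [Pi.add_apply, hrow x k t (by omega), hlow x k t hk, add_zero]
  by_contra hp0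
  have hH := hits hg hω
  have hstep : ∀ i ≤ TT ω a b, par (c + o) ((next ω)^[i] (rr b)) = par (c + o) (rr b) := by
    intro i
    induction i with
    | zero => intro _; rfl
    | succ i ih =>
      intro hi
      have hmem : (next ω)^[i] (rr b) ∈ DD ω a b := mem_run.2 ⟨i, by omega, rfl⟩
      have hcor := DD_mem_cor hg hω hmem
      have hp2 : 0 ≤ ((next ω)^[i] (rr b)).2 := by
        unfold cor at hcor
        exact (Finset.mem_Icc.1 (Finset.mem_product.1 hcor).2).1
      rw [Function.iterate_succ_apply', par_next hclo ω _ hp2, ih (by omega)]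
      split_ifs with hedge
      · exact add_zero _
      · have h1 : c (edgeOf ((next ω)^[i] (rr b))) = 0 := hc0 _ hedge
        have h2 : o (edgeOf ((next ω)^[i] (rr b))) = 0 := by
          by_contra hne
          rcases ho _ hcor hne with h3 | h3
          · rw [h3] at hmem
            exact hp0 hmem
          · exact hH.2 i (by omega) h3
        rw [Pi.add_apply, h1, h2, add_zero, add_zero]
  have h1 := hstep (TT ω a b) le_rfl
  rw [hH.1] at h1
  have h2 : par (c + o) (ss a) = o (a - 1, -1, false) := by
    unfold ss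
    rw [visA_par_zero (c + o) (2 * a) (a - 1) (by omega), Pi.add_apply,
      hrow (a - 1) (-1) false (by omega), zero_add]
  have h3 : par (c + o) (rr b) = o (b, -1, false) := by
    unfold rr
    rw [visA_par_zero (c + o) (2 * b + 1) b (by omega), Pi.add_apply,
      hrow b (-1) false (by omega), zero_add]
  rw [h2, h3] at h1
  exact hd h1.symm

end FKI
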