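import Pool.Agent.Lib.MP_216314_pr.Run
import Pool.Agent.Lib.MP_216314_pr.Lift

/-!
# JOB Wind: the formula for the winding of the interface

`dl ω p = 1` if the loop turns left at the edge `edgeOf p` (closed), `-1` if it turns right (open). `Wd ω b t` is the winding (in units of 90 degrees)
of the interface between its start and its `t`-th corner `pt ω b t`.

* `turn_eq`: case analysis on the type of the corner `p i` (`corner_cases`, NextB) and on the states of the two edges; all vectors are explicit.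
  (a left turn at two consecutive edges is a step direction turning by 90 degrees = 2 units, closed-open and open-closed is straight.)
* `last_step`: by `next_inj`/explicit computation of `next` at the four types of corners `p` (`corner_cases`, `next_SE_open`, ...; the type of `next ω p` and
  the state of the edge determine the type of `p`):
  SE corner `(2x+1,2y)`: last step `(1,0)` if `dl = 1`, `(0,1)` if `dl = -1`;       NE corner `(2x+1,2y+1)`: `(0,1)` if `dl = 1`, `(-1,0)` if `dl = -1`;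
  NW corner `(2x,2y+1)`: `(-1,0)` if `dl = 1`, `(0,-1)` if `dl = -1`;              SW corner `(2x,2y)`: `(0,-1)` if `dl = 1`, `(1,0)` if `dl = -1`.
* `Wd_formula`: `∑_{i < t-1} (dl_i + dl_(i+1)) = 2 Wd t - dl_0 - dl_(t-1)` and `hopf` (with `p i = pt ω b i`, `T = t`; injective by `hits_inj` and `hits`, steps are
  unit by `next_unit`), `turn_eq`, `sum_row` with `lS` (all corners have ordinate `≥ 0` by `orbit_mem_cor`, `p 0` has ordinate `0`, so `A` = not south holds),
  `sum_col` with the lift `l`. `lS (p 1 - p 0) = 1 + dl_0` (the first step is `(1,0)` if `dl_0 = -1`, `(0,1)` if `dl_0 = 1`: `rr b` is a south east corner).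
-/

set_option autoImplicit false

noncomputable section

namespace FKI

open Finset

/-- `1` for a left turn (closed edge), `-1` for a right turn (open edge) -/
def dl (ω : Finset Edge) (p : V) : ℤ := if edgeOf p ∈ ω then -1 else 1

/-- the `t`-th corner of the interface -/
def pt (ω : Finset Edge) (b : ℤ) (t : ℕ) : V := (next ω)^[t] (rr b)

/-- the winding of the interface at time `t` -/
def Wd (ω : Finset Edge) (b : ℤ) (t : ℕ) : ℤ := ∑ i ∈ range t, dl ω (pt ω b i)

theorem wind_last (ω : Finset Edge) (p : V) (x y : ℤ) :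
    (next ω p = (2 * x + 1, 2 * y) → next ω p - p = if dl ω p = 1 then (1, 0) else (0, 1)) ∧
    (next ω p = (2 * x + 1, 2 * y + 1) → next ω p - p = if dl ω p = 1 then (0, 1) else (-1, 0)) ∧
    (next ω p = (2 * x, 2 * y + 1) → next ω p - p = if dl ω p = 1 then (-1, 0) else (0, -1)) ∧
    (next ω p = (2 * x, 2 * y) → next ω p - p = if dl ω p = 1 then (0, -1) else (1, 0)) := by
  have fin : ∀ (a b c d e f : ℤ), a - c = e → b - d = f → ((a, b) : V) - (c, d) = (e, f) := by
    intro a b c d e f h1 h2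
    rw [Prod.mk_sub_mk, h1, h2]
  rcases corner_cases p with ⟨u, v, rfl⟩ | ⟨u, v, rfl⟩ | ⟨u, v, rfl⟩ | ⟨u, v, rfl⟩
  · by_cases h : (u, v, false) ∈ ω
    · have hd : dl ω (2 * u + 1, 2 * v) = -1 := by simp [dl, edgeOf_SE, h]
      rw [next_SE_open h, hd]
      refine ⟨?_, ?_, ?_, ?_⟩ <;> intro hh <;> simp only [Prod.mk.injEq] at hh <;>
        first | (exfalso; omega) | (rw [if_neg (by decide)]; apply fin <;> ring)
    · have hd : dl ω (2 * u + 1, 2 * v) = 1 := by simp [dl, edgeOf_SE, h]
      rw [next_SE_closed h, hd]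
      refine ⟨?_, ?_, ?_, ?_⟩ <;> intro hh <;> simp only [Prod.mk.injEq] at hh <;>
        first | (exfalso; omega) | (rw [if_pos rfl]; apply fin <;> ring)
  · by_cases h : (u, v, true) ∈ ω
    · have hd : dl ω (2 * u + 1, 2 * v + 1) = -1 := by simp [dl, edgeOf_NE, h]
      rw [next_NE_open h, hd]
      refine ⟨?_, ?_, ?_, ?_⟩ <;> intro hh <;> simp only [Prod.mk.injEq] at hh <;>
        first | (exfalso; omega) | (rw [if_neg (by decide)]; apply fin <;> ring)
    · have hd : dl ω (2 * u + 1, 2 * v + 1) = 1 := by simp [dl, edgeOf_NE, h]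
      rw [next_NE_closed h, hd]
      refine ⟨?_, ?_, ?_, ?_⟩ <;> intro hh <;> simp only [Prod.mk.injEq] at hh <;>
        first | (exfalso; omega) | (rw [if_pos rfl]; apply fin <;> ring)
  · by_cases h : (u - 1, v, false) ∈ ω
    · have hd : dl ω (2 * u, 2 * v + 1) = -1 := by simp [dl, edgeOf_NW, h]
      rw [next_NW_open h, hd]
      refine ⟨?_, ?_, ?_, ?_⟩ <;> intro hh <;> simp only [Prod.mk.injEq] at hh <;>
        first | (exfalso; omega) | (rw [if_neg (by decide)]; apply fin <;> ring)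
    · have hd : dl ω (2 * u, 2 * v + 1) = 1 := by simp [dl, edgeOf_NW, h]
      rw [next_NW_closed h, hd]
      refine ⟨?_, ?_, ?_, ?_⟩ <;> intro hh <;> simp only [Prod.mk.injEq] at hh <;>
        first | (exfalso; omega) | (rw [if_pos rfl]; apply fin <;> ring)
  · by_cases h : (u, v - 1, true) ∈ ω
    · have hd : dl ω (2 * u, 2 * v) = -1 := by simp [dl, edgeOf_SW, h]
      rw [next_SW_open h, hd]
      refine ⟨?_, ?_, ?_, ?_⟩ <;> intro hh <;> simp only [Prod.mk.injEq] at hh <;>
        first | (exfalso; omega) | (rw [if_neg (by decide)]; apply fin <;> ring)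
    · have hd : dl ω (2 * u, 2 * v) = 1 := by simp [dl, edgeOf_SW, h]
      rw [next_SW_closed h, hd]
      refine ⟨?_, ?_, ?_, ?_⟩ <;> intro hh <;> simp only [Prod.mk.injEq] at hh <;>
        first | (exfalso; omega) | (rw [if_pos rfl]; apply fin <;> ring)

theorem wind_dl (ω : Finset Edge) (p : V) : dl ω p = 1 ∨ dl ω p = -1 := by
  unfold dl
  split_ifs
  · exact Or.inr rfl
  · exact Or.inl rfl

/-- the next step in terms of `dl` -/
theorem wind_step (ω : Finset Edge) (q : V) :
    next ω q - q = if dl ω q = 1 then cstep q else ostep q := by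
  unfold next dl
  by_cases h : edgeOf q ∈ ω
  · simp [h]
  · simp [h]

theorem turn_eq (ω : Finset Edge) (p : ℕ → V) (i : ℕ) (h1 : p (i + 1) = next ω (p i))
    (h2 : p (i + 2) = next ω (p (i + 1))) : turn p i = dl ω (p i) + dl ω (p (i + 1)) := by
  have e1 : turn p i = inc (p (i + 1) - p i) ((p (i + 1) - p i) + (p (i + 2) - p (i + 1))) +
      inc ((p (i + 1) - p i) + (p (i + 2) - p (i + 1))) (p (i + 2) - p (i + 1)) := by
    rw [turn, show (p (i + 1) - p i) + (p (i + 2) - p (i + 1)) = p (i + 2) - p i by abel]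
  rw [e1]
  generalize p (i + 2) = r at *
  generalize p (i + 1) = q at *
  generalize p i = p0 at *
  have h3 := wind_step ω q
  rw [h2, h3]
  rcases corner_cases q with ⟨x, y, hq⟩ | ⟨x, y, hq⟩ | ⟨x, y, hq⟩ | ⟨x, y, hq⟩
  · have h4 := (wind_last ω p0 x y).1 (by rw [← h1, hq])
    rw [← h1] at h4
    rw [h4, hq, cstep_SE, ostep_SE]
    rcases wind_dl ω p0 with h5 | h5 <;> rcases wind_dl ω (2 * x + 1, 2 * y) with h6 | h6 <;>
      rw [h5, h6] <;> decide
  · have h4 := (wind_last ω p0 x y).2.1 (by rw [← h1, hq])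
    rw [← h1] at h4
    rw [h4, hq, cstep_NE, ostep_NE]
    rcases wind_dl ω p0 with h5 | h5 <;> rcases wind_dl ω (2 * x + 1, 2 * y + 1) with h6 | h6 <;>
      rw [h5, h6] <;> decide
  · have h4 := (wind_last ω p0 x y).2.2.1 (by rw [← h1, hq])
    rw [← h1] at h4
    rw [h4, hq, cstep_NW, ostep_NW]
    rcases wind_dl ω p0 with h5 | h5 <;> rcases wind_dl ω (2 * x, 2 * y + 1) with h6 | h6 <;>
      rw [h5, h6] <;> decide
  · have h4 := (wind_last ω p0 x y).2.2.2 (by rw [← h1, hq])
    rw [← h1] at h4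
    rw [h4, hq, cstep_SW, ostep_SW]
    rcases wind_dl ω p0 with h5 | h5 <;> rcases wind_dl ω (2 * x, 2 * y) with h6 | h6 <;>
      rw [h5, h6] <;> decide

theorem last_step (ω : Finset Edge) (p : V) (x y : ℤ) :
    (next ω p = (2 * x + 1, 2 * y) → next ω p - p = if dl ω p = 1 then (1, 0) else (0, 1)) ∧
    (next ω p = (2 * x + 1, 2 * y + 1) → next ω p - p = if dl ω p = 1 then (0, 1) else (-1, 0)) ∧
    (next ω p = (2 * x, 2 * y + 1) → next ω p - p = if dl ω p = 1 then (-1, 0) else (0, -1)) ∧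
    (next ω p = (2 * x, 2 * y) → next ω p - p = if dl ω p = 1 then (0, -1) else (1, 0)) := by
  exact wind_last ω p x y

theorem wind_sum (ω : Finset Edge) (b : ℤ) {t : ℕ} (ht : 1 ≤ t) :
    ∑ i ∈ range (t - 1), (dl ω (pt ω b i) + dl ω (pt ω b (i + 1))) =
      2 * Wd ω b t - dl ω (pt ω b 0) - dl ω (pt ω b (t - 1)) := by
  obtain ⟨s, rfl⟩ : ∃ s, t = s + 1 := ⟨t - 1, by omega⟩
  rw [show s + 1 - 1 = s by omega, sum_add_distrib]
  have h1 : Wd ω b (s + 1) = ∑ i ∈ range s, dl ω (pt ω b i) + dl ω (pt ω b s) := by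
    rw [Wd, sum_range_succ]
  have h2 : Wd ω b (s + 1) = ∑ i ∈ range s, dl ω (pt ω b (i + 1)) + dl ω (pt ω b 0) := by
    rw [Wd, sum_range_succ']
  linarith

theorem wind_first (ω : Finset Edge) (b : ℤ) :
    lS (pt ω b 1 - pt ω b 0) = 1 + dl ω (pt ω b 0) := by
  have h0 : pt ω b 0 = (2 * b + 1, 2 * 0) := by simp [pt, rr]
  have h1 : pt ω b 1 = next ω (pt ω b 0) := by simp [pt]
  rw [h1, wind_step, h0, cstep_SE, ostep_SE]
  rcases wind_dl ω (2 * b + 1, 2 * 0) with h5 | h5 <;> rw [h5] <;> decide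

theorem Wd_formula {m n : ℕ} {a b : ℤ} (hg : Geo m a b) {ω : Finset Edge}
    (hω : ω ∈ cfg m n a b) {t : ℕ} (ht : 1 ≤ t) (htT : t ≤ TT ω a b) {A : V → Prop} {l : V → ℤ}
    (hl : IsLift A l) (hA : ∀ i < t, A (pt ω b t - pt ω b i)) :
    2 * Wd ω b t = dl ω (pt ω b (t - 1)) - 1 + l (pt ω b t - pt ω b (t - 1))
      + lS (pt ω b t - pt ω b 0) - l (pt ω b t - pt ω b 0) := by
  have hinj : ∀ i j, i ≤ t → j ≤ t → pt ω b i = pt ω b j → i = j := by
    intro i j hi hj h
    exact hits_inj (next_inj ω) (hits hg hω) (hi.trans htT) (hj.trans htT) h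
  have hstep : ∀ i < t, Unit' (pt ω b i) (pt ω b (i + 1)) := by
    intro i _
    have h := next_unit ω (pt ω b i)
    unfold Unit'
    rw [show pt ω b (i + 1) = next ω (pt ω b i) by simp [pt, Function.iterate_succ_apply']]
    exact h
  have h1 := hopf (pt ω b) t ht hinj hstep
  have h2 : ∑ i ∈ range (t - 1), turn (pt ω b) i =
      ∑ i ∈ range (t - 1), (dl ω (pt ω b i) + dl ω (pt ω b (i + 1))) := by
    apply sum_congr rfl
    intro i _
    apply turn_eq
    · simp [pt, Function.iterate_succ_apply']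
    · simp [pt, Function.iterate_succ_apply']
  have h3 := sum_row lift_S (pt ω b) t ht hinj hstep (by
    intro j _ _ h
    have h4 := orbit_mem_cor hg hω j
    have h5 : (pt ω b 0).2 = 0 := by simp [pt, rr]
    rw [cor, mem_product, mem_Icc, mem_Icc] at h4
    have h6 : (pt ω b j - pt ω b 0).2 = (pt ω b j).2 - (pt ω b 0).2 := rfl
    have h7 : (pt ω b j).2 = ((next ω)^[j] (rr b)).2 := rfl
    omega)
  have h4 := sum_col hl (pt ω b) t ht hinj hstep hA
  rw [h2, wind_sum ω b ht, h3, h4, wind_first] at h1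
  linarith

end FKI
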